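import Pool.Agent.Q218.AD.Exp

/-! Weak convergence from the Laplace transforms at the natural numbers. -/

set_option autoImplicit false

open MeasureTheory Set Filter Topology

namespace Pool.Agent.Q218.AD

theorem mul_bdd_int {h : ℝ → ℝ} (hh : IntegrableOn h (Ioi (0 : ℝ))) {f : ℝ → ℂ}
    (hf : Measurable f) {B : ℝ} (hB : ∀ s, 0 < s → ‖f s‖ ≤ B) :
    Integrable (fun s => ((h s : ℝ) : ℂ) * f s) (volume.restrict (Ioi (0 : ℝ))) := by
  have h1 : Integrable (fun s => ((h s : ℝ) : ℂ)) (volume.restrict (Ioi (0 : ℝ))) := hh.ofReal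
  have h2 := h1.bdd_mul hf.aestronglyMeasurable
    ((ae_restrict_mem measurableSet_Ioi).mono fun s hs => hB s hs)
  refine h2.congr (Filter.Eventually.of_forall fun s => ?_)
  simp only
  ring

/-- **the approximation argument** -/
theorem appr {h : ℝ → ℝ} (hh : IntegrableOn h (Ioi (0 : ℝ))) {n : ℕ} {c : ℕ → ℝ} {ε δ B : ℝ}
    (hn : ∫ s in Ioi (0 : ℝ), |h s - ep n c s| ≤ ε) {f : ℝ → ℂ} (hf : Measurable f) (hB0 : 0 ≤ B)
    (hB : ∀ s, 0 < s → ‖f s‖ ≤ B)
    (hk : ∀ k ∈ Finset.range n, ‖∫ s in Ioi (0 : ℝ),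
      ((Real.exp (-((k : ℝ) + 1) * s) : ℝ) : ℂ) * f s‖ ≤ δ) :
    ‖∫ s in Ioi (0 : ℝ), ((h s : ℝ) : ℂ) * f s‖ ≤ B * ε + (∑ k ∈ Finset.range n, |c k|) * δ := by
  have i1 := mul_bdd_int (hh.sub (ep_int n c)) hf hB
  have i2 := mul_bdd_int (ep_int n c) hf hB
  have e1 : ∫ s in Ioi (0 : ℝ), ((h s : ℝ) : ℂ) * f s =
      (∫ s in Ioi (0 : ℝ), (((h - ep n c) s : ℝ) : ℂ) * f s) +
        ∫ s in Ioi (0 : ℝ), ((ep n c s : ℝ) : ℂ) * f s := by
    rw [← integral_add i1 i2]
    refine integral_congr_ae (Filter.Eventually.of_forall fun s => ?_)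
    simp only [Pi.sub_apply]
    push_cast
    ring
  have b1 : ‖∫ s in Ioi (0 : ℝ), (((h - ep n c) s : ℝ) : ℂ) * f s‖ ≤ B * ε := by
    have h1 : IntegrableOn (fun s => |h s - ep n c s|) (Ioi (0 : ℝ)) := (hh.sub (ep_int n c)).abs
    refine (norm_integral_le_of_norm_le (h1.const_mul B)
      ((ae_restrict_mem measurableSet_Ioi).mono fun s hs => ?_)).trans ?_
    · rw [norm_mul, Complex.norm_real, Real.norm_eq_abs, mul_comm, Pi.sub_apply]
      exact mul_le_mul_of_nonneg_right (hB s hs) (abs_nonneg _)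
    · rw [integral_const_mul]
      exact mul_le_mul_of_nonneg_left hn hB0
  have b2 : ‖∫ s in Ioi (0 : ℝ), ((ep n c s : ℝ) : ℂ) * f s‖ ≤
      (∑ k ∈ Finset.range n, |c k|) * δ := by
    have hi : ∀ k ∈ Finset.range n, Integrable (fun s => ((c k : ℝ) : ℂ) *
        (((Real.exp (-((k : ℝ) + 1) * s) : ℝ) : ℂ) * f s)) (volume.restrict (Ioi (0 : ℝ))) := by
      intro k _
      exact (mul_bdd_int (exp_int ((k : ℝ) + 1) (by positivity)) hf hB).const_mul _
    have e2 : ∫ s in Ioi (0 : ℝ), ((ep n c s : ℝ) : ℂ) * f s =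
        ∑ k ∈ Finset.range n, ((c k : ℝ) : ℂ) * ∫ s in Ioi (0 : ℝ),
          ((Real.exp (-((k : ℝ) + 1) * s) : ℝ) : ℂ) * f s := by
      rw [← Finset.sum_congr rfl fun k hk => integral_const_mul _ _, ← integral_finsetSum _ hi]
      refine integral_congr_ae (Filter.Eventually.of_forall fun s => ?_)
      simp only [ep]
      push_cast
      rw [Finset.sum_mul]
      refine Finset.sum_congr rfl fun k _ => ?_
      ring
    rw [e2, Finset.sum_mul]
    refine (norm_sum_le _ _).trans (Finset.sum_le_sum fun k hk' => ?_)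
    rw [norm_mul, Complex.norm_real, Real.norm_eq_abs]
    exact mul_le_mul_of_nonneg_left (hk k hk') (abs_nonneg _)
  rw [e1]
  exact (norm_add_le _ _).trans (add_le_add b1 b2)

end Pool.Agent.Q218.AD
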