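import Pool.Agent.TH794.QD.Planch

/-! Plancherel's theorem for the Laplace transform on a vertical line. -/

set_option autoImplicit false

open MeasureTheory Set Filter Topology FourierTransform

namespace Pool.Agent.Q218.AD

/-- the Laplace transform at `t - iE` -/
noncomputable def La1 (f : ℝ → ℂ) (E t : ℝ) : ℂ :=
  ∫ s in Ioi (0 : ℝ), Complex.exp ((Complex.I * E - t) * s) * f s

/-- the truncated function -/
noncomputable def cut (f : ℝ → ℂ) (t : ℝ) : ℝ → ℂ :=
  (Ioi (0 : ℝ)).indicator fun s => ((Real.exp (-t * s) : ℝ) : ℂ) * f s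

theorem cut_norm (f : ℝ → ℂ) (t s : ℝ) :
    ‖cut f t s‖ ^ 2 = (Ioi (0 : ℝ)).indicator (fun s => Real.exp (-(2 * t) * s) * ‖f s‖ ^ 2) s := by
  unfold cut
  by_cases h : s ∈ Ioi (0 : ℝ)
  · rw [indicator_of_mem h, indicator_of_mem h, norm_mul, mul_pow, Complex.norm_real,
      Real.norm_eq_abs, sq_abs, ← Real.exp_nat_mul]
    congr 2
    push_cast
    ring
  · rw [indicator_of_notMem h, indicator_of_notMem h]
    simp

section

variable {f : ℝ → ℂ} (hf : Continuous f) (hb : ∀ s, ‖f s‖ ≤ 1) {t : ℝ} (ht : 0 < t)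

include hf hb ht

theorem sq_int : IntegrableOn (fun s => Real.exp (-(2 * t) * s) * ‖f s‖ ^ 2) (Ioi (0 : ℝ)) := by
  refine Integrable.mono' (exp_neg_integrableOn_Ioi 0 (by positivity : 0 < 2 * t)) ?_ ?_
  · exact (Continuous.mul (by fun_prop) (hf.norm.pow 2)).aestronglyMeasurable
  · refine Filter.Eventually.of_forall fun s => ?_
    rw [norm_mul, Real.norm_eq_abs, abs_of_pos (Real.exp_pos _), norm_pow, norm_norm]
    exact mul_le_of_le_one_right (Real.exp_pos _).le (pow_le_one₀ (norm_nonneg _) (hb s))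

theorem cut_int : Integrable (cut f t) := by
  unfold cut
  rw [integrable_indicator_iff measurableSet_Ioi]
  refine Integrable.mono' (exp_neg_integrableOn_Ioi 0 ht) ?_ ?_
  · exact (Continuous.mul (by fun_prop) hf).aestronglyMeasurable
  · refine Filter.Eventually.of_forall fun s => ?_
    rw [norm_mul, Complex.norm_real, Real.norm_eq_abs, abs_of_pos (Real.exp_pos _)]
    exact mul_le_of_le_one_right (Real.exp_pos _).le (hb s)

theorem cut_mem : MemLp (cut f t) 2 := by
  rw [memLp_two_iff_integrable_sq_norm (cut_int hf hb ht).aestronglyMeasurable]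
  simp only [cut_norm]
  rw [integrable_indicator_iff measurableSet_Ioi]
  exact sq_int hf hb ht

omit hf hb ht in
theorem cut_fourier (ξ : ℝ) : 𝓕 (cut f t) ξ = La1 f (-(2 * Real.pi * ξ)) t := by
  rw [Real.fourier_eq']
  unfold La1 cut
  rw [← integral_indicator measurableSet_Ioi]
  refine integral_congr_ae (Filter.Eventually.of_forall fun s => ?_)
  simp only
  by_cases h : s ∈ Ioi (0 : ℝ)
  · rw [indicator_of_mem h, indicator_of_mem h, smul_eq_mul, ← mul_assoc, Complex.ofReal_exp,
      ← Complex.exp_add]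
    congr 2
    have : (inner ℝ s ξ : ℝ) = ξ * s := by simp
    rw [this]
    push_cast
    ring
  · rw [indicator_of_notMem h, indicator_of_notMem h, smul_zero]

theorem La1_cont : Continuous fun E : ℝ => La1 f E t := by
  have h1 := cut_int hf hb ht
  have hc : Continuous (𝓕 (cut f t)) := VectorFourier.fourierIntegral_continuous
    Real.continuous_fourierChar (by exact continuous_inner) h1
  have hE : (fun E : ℝ => La1 f E t) = fun E => 𝓕 (cut f t) (E * (-(2 * Real.pi))⁻¹) := by
    funext E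
    rw [cut_fourier]
    congr 1
    have := Real.pi_ne_zero
    field_simp
  rw [hE]
  exact hc.comp (by fun_prop)

/-- **Plancherel** -/
theorem planch1 : Integrable (fun E : ℝ => ‖La1 f E t‖ ^ 2) ∧
    ∫ E : ℝ, ‖La1 f E t‖ ^ 2 =
      2 * Real.pi * ∫ s in Ioi (0 : ℝ), Real.exp (-(2 * t) * s) * ‖f s‖ ^ 2 := by
  have h1 := cut_int hf hb ht
  have h2 := cut_mem hf hb ht
  have hpl := Pool.Agent.TH794.QD.plancherel (cut f t) h1 h2
  have hc : Continuous (𝓕 (cut f t)) := VectorFourier.fourierIntegral_continuous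
    Real.continuous_fourierChar (by exact continuous_inner) h1
  have hi : Integrable fun s => ‖cut f t s‖ ^ 2 :=
    (memLp_two_iff_integrable_sq_norm h1.1).1 h2
  have e1 : ∀ g : ℝ → ℂ, ∫⁻ x, ‖g x‖ₑ ^ 2 = ∫⁻ x, ENNReal.ofReal (‖g x‖ ^ 2) := by
    intro g
    refine lintegral_congr fun x => ?_
    rw [← ofReal_norm, ← ENNReal.ofReal_pow (norm_nonneg _)]
  rw [e1, e1, ← ofReal_integral_eq_lintegral_ofReal hi
    (Filter.Eventually.of_forall fun s => sq_nonneg _)] at hpl
  have hm : AEStronglyMeasurable (fun ξ => ‖𝓕 (cut f t) ξ‖ ^ 2) volume :=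
    (hc.norm.pow 2).aestronglyMeasurable
  have hF : Integrable fun ξ => ‖𝓕 (cut f t) ξ‖ ^ 2 := by
    refine ⟨hm, ?_⟩
    rw [hasFiniteIntegral_iff_ofReal (Filter.Eventually.of_forall fun s => sq_nonneg _), hpl]
    exact ENNReal.ofReal_lt_top
  have hv : ∫ ξ, ‖𝓕 (cut f t) ξ‖ ^ 2 = ∫ s, ‖cut f t s‖ ^ 2 := by
    rw [integral_eq_lintegral_of_nonneg_ae (Filter.Eventually.of_forall fun s => sq_nonneg _) hm,
      hpl, ENNReal.toReal_ofReal (integral_nonneg fun s => sq_nonneg _)]
  have hE : ∀ E : ℝ, ‖La1 f E t‖ ^ 2 = ‖𝓕 (cut f t) (E * (-(2 * Real.pi))⁻¹)‖ ^ 2 := by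
    intro E
    rw [cut_fourier]
    congr 3
    have := Real.pi_ne_zero
    field_simp
  have hne : (-(2 * Real.pi))⁻¹ ≠ 0 := by
    have := Real.pi_pos
    exact inv_ne_zero (by linarith)
  simp only [hE]
  constructor
  · exact hF.comp_mul_right' hne
  · rw [Measure.integral_comp_mul_right (fun ξ => ‖𝓕 (cut f t) ξ‖ ^ 2), hv, inv_inv, abs_neg,
      abs_of_pos (by positivity : 0 < 2 * Real.pi), smul_eq_mul]
    congr 1
    simp only [cut_norm]
    rw [integral_indicator measurableSet_Ioi]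

end

end Pool.Agent.Q218.AD
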