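import Pool.Agent.TH794.QD.Lap
import Pool.Agent.Q218.AD.Pl

/-! From the resolvent at all energies to the time average of the evolution. -/

set_option autoImplicit false
set_option linter.unusedSectionVars false

open scoped BigOperators Topology
open MeasureTheory Filter Set

namespace Pool.Agent.Q218.AD

open Pool.Agent.H4R2.LO (Zd)
open Pool.Agent.TH794.QD (Sol La ew)

variable {d : ℕ} {V : Zd d → ℝ} {a : Zd d} {ψ : ℝ → Zd d → ℂ}

/-- the average time at `x` -/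
noncomputable def At (ψ : ℝ → Zd d → ℂ) (η : ℝ) (x : Zd d) : ℝ :=
  ∫ s in Ioi (0 : ℝ), Real.exp (-(2 * η) * s) * ‖ψ s x‖ ^ 2

theorem La_sq (h : Sol d V a ψ) {η : ℝ} (hη : 0 < η) (x : Zd d) :
    Integrable (fun E : ℝ => ‖La ψ E η x‖ ^ 2) ∧
      ∫ E : ℝ, ‖La ψ E η x‖ ^ 2 = 2 * Real.pi * At ψ η x :=
  planch1 (f := fun s => ψ s x) (h.cont x) (fun s => h.le_one s x) hη

theorem At_int (h : Sol d V a ψ) {η : ℝ} (hη : 0 < η) (x : Zd d) :
    IntegrableOn (fun s => Real.exp (-(2 * η) * s) * ‖ψ s x‖ ^ 2) (Ioi (0 : ℝ)) :=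
  sq_int (f := fun s => ψ s x) (h.cont x) (fun s => h.le_one s x) hη

theorem At_nonneg (ψ : ℝ → Zd d → ℂ) (η : ℝ) (x : Zd d) : 0 ≤ At ψ η x :=
  integral_nonneg fun s => by positivity

theorem At_summable (h : Sol d V a ψ) {η : ℝ} (hη : 0 < η) : Summable (At ψ η) := by
  refine summable_of_sum_le (c := (2 * η)⁻¹) (fun x => At_nonneg ψ η x) fun F => ?_
  unfold At
  rw [← integral_finsetSum _ fun x _ => At_int h hη x]
  have hv : ∫ s in Ioi (0 : ℝ), Real.exp (-(2 * η) * s) = (2 * η)⁻¹ := by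
    have h := integral_exp_mul_Ioi (a := -(2 * η)) (by linarith) 0
    rw [h]
    simp
  rw [← hv]
  refine integral_mono (integrable_finsetSum _ fun x _ => At_int h hη x)
    (exp_neg_integrableOn_Ioi 0 (by positivity)) fun s => ?_
  simp only
  rw [← Finset.mul_sum]
  refine mul_le_of_le_one_right (Real.exp_pos _).le ?_
  have h2 := (h.norm s).summable.sum_le_tsum F fun x _ => sq_nonneg _
  rw [(h.norm s).tsum_eq] at h2
  exact h2

/-- the time integral -/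
theorem time_sum (h : Sol d V a ψ) {η : ℝ} (hη : 0 < η) (c : Zd d → ℂ) (hc : ∀ x, ‖c x‖ ≤ 1) :
    HasSum (fun x => c x * ((At ψ η x : ℝ) : ℂ))
      (∫ s in Ioi (0 : ℝ), ((Real.exp (-(2 * η) * s) : ℝ) : ℂ) *
        ∑' x, c x * ((‖ψ s x‖ ^ 2 : ℝ) : ℂ)) := by
  have hi : ∀ x, Integrable (fun s => c x * ((Real.exp (-(2 * η) * s) * ‖ψ s x‖ ^ 2 : ℝ) : ℂ))
      (volume.restrict (Ioi (0 : ℝ))) := fun x => (At_int h hη x).ofReal.const_mul _
  have hn : ∀ x, ∫ s in Ioi (0 : ℝ), ‖c x * ((Real.exp (-(2 * η) * s) * ‖ψ s x‖ ^ 2 : ℝ) : ℂ)‖ =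
      ‖c x‖ * At ψ η x := by
    intro x
    unfold At
    rw [← integral_const_mul]
    refine integral_congr_ae (Filter.Eventually.of_forall fun s => ?_)
    simp only
    rw [norm_mul, Complex.norm_real, Real.norm_of_nonneg (by positivity)]
  have hs : Summable fun x => ∫ s in Ioi (0 : ℝ),
      ‖c x * ((Real.exp (-(2 * η) * s) * ‖ψ s x‖ ^ 2 : ℝ) : ℂ)‖ := by
    simp only [hn]
    refine Summable.of_nonneg_of_le (fun x => mul_nonneg (norm_nonneg _) (At_nonneg ψ η x))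
      (fun x => ?_) (At_summable h hη)
    exact mul_le_of_le_one_left (At_nonneg ψ η x) (hc x)
  have h1 := hasSum_integral_of_summable_integral_norm hi hs
  have e1 : (fun x => ∫ s in Ioi (0 : ℝ), c x * ((Real.exp (-(2 * η) * s) * ‖ψ s x‖ ^ 2 : ℝ) : ℂ)) =
      fun x => c x * ((At ψ η x : ℝ) : ℂ) := by
    funext x
    rw [integral_const_mul, integral_complex_ofReal]
    rfl
  rw [e1] at h1
  have e2 : (∫ s in Ioi (0 : ℝ), ((Real.exp (-(2 * η) * s) : ℝ) : ℂ) *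
        ∑' x, c x * ((‖ψ s x‖ ^ 2 : ℝ) : ℂ)) =
      ∫ s in Ioi (0 : ℝ), ∑' x, c x * ((Real.exp (-(2 * η) * s) * ‖ψ s x‖ ^ 2 : ℝ) : ℂ) := by
    refine integral_congr_ae (Filter.Eventually.of_forall fun s => ?_)
    simp only
    rw [← tsum_mul_left]
    refine tsum_congr fun x => ?_
    push_cast
    ring
  rw [e2]
  exact h1

theorem At_total (h : Sol d V a ψ) {η : ℝ} (hη : 0 < η) : HasSum (At ψ η) (2 * η)⁻¹ := by
  have h1 := time_sum h hη (fun _ => 1) (fun x => by simp)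
  have e1 : (∫ s in Ioi (0 : ℝ), ((Real.exp (-(2 * η) * s) : ℝ) : ℂ) *
        ∑' x, (1 : ℂ) * ((‖ψ s x‖ ^ 2 : ℝ) : ℂ)) = (((2 * η)⁻¹ : ℝ) : ℂ) := by
    have hv : ∫ s in Ioi (0 : ℝ), Real.exp (-(2 * η) * s) = (2 * η)⁻¹ := by
      have h := integral_exp_mul_Ioi (a := -(2 * η)) (by linarith) 0
      rw [h]
      simp
    rw [← hv, ← integral_complex_ofReal]
    refine integral_congr_ae (Filter.Eventually.of_forall fun s => ?_)
    simp only [one_mul]
    rw [← Complex.ofReal_tsum, (h.norm s).tsum_eq]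
    simp
  rw [e1] at h1
  simp only [one_mul] at h1
  exact Complex.hasSum_ofReal.1 h1

/-- the energy integral over `J` -/
noncomputable def Bt (ψ : ℝ → Zd d → ℂ) (η : ℝ) (J : Set ℝ) (x : Zd d) : ℝ :=
  ∫ E in J, ‖La ψ E η x‖ ^ 2

theorem Bt_nonneg (ψ : ℝ → Zd d → ℂ) (η : ℝ) (J : Set ℝ) (x : Zd d) : 0 ≤ Bt ψ η J x :=
  integral_nonneg fun s => by positivity

theorem Bt_le (h : Sol d V a ψ) {η : ℝ} (hη : 0 < η) (J : Set ℝ) (x : Zd d) :
    Bt ψ η J x ≤ 2 * Real.pi * At ψ η x := by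
  rw [← (La_sq h hη x).2]
  exact setIntegral_le_integral (La_sq h hη x).1
    (Filter.Eventually.of_forall fun s => sq_nonneg _)

theorem Bt_summable (h : Sol d V a ψ) {η : ℝ} (hη : 0 < η) (J : Set ℝ) :
    Summable (Bt ψ η J) :=
  Summable.of_nonneg_of_le (fun x => Bt_nonneg ψ η J x) (fun x => Bt_le h hη J x)
    ((At_summable h hη).mul_left _)

theorem energy_sum (h : Sol d V a ψ) {η : ℝ} (hη : 0 < η) (J : Set ℝ) (c : Zd d → ℂ)
    (hc : ∀ x, ‖c x‖ ≤ 1) :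
    HasSum (fun x => c x * ((Bt ψ η J x : ℝ) : ℂ))
      (∫ E in J, ∑' x, c x * ((‖La ψ E η x‖ ^ 2 : ℝ) : ℂ)) := by
  have hi : ∀ x, Integrable (fun E => c x * ((‖La ψ E η x‖ ^ 2 : ℝ) : ℂ))
      (volume.restrict J) := fun x => ((La_sq h hη x).1.restrict.ofReal).const_mul _
  have hn : ∀ x, ∫ E in J, ‖c x * ((‖La ψ E η x‖ ^ 2 : ℝ) : ℂ)‖ = ‖c x‖ * Bt ψ η J x := by
    intro x
    unfold Bt
    rw [← integral_const_mul]
    refine integral_congr_ae (Filter.Eventually.of_forall fun s => ?_)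
    simp only
    rw [norm_mul, Complex.norm_real, Real.norm_of_nonneg (by positivity)]
  have hs : Summable fun x => ∫ E in J, ‖c x * ((‖La ψ E η x‖ ^ 2 : ℝ) : ℂ)‖ := by
    simp only [hn]
    refine Summable.of_nonneg_of_le (fun x => mul_nonneg (norm_nonneg _) (Bt_nonneg ψ η J x))
      (fun x => ?_) (Bt_summable h hη J)
    exact mul_le_of_le_one_left (Bt_nonneg ψ η J x) (hc x)
  have h1 := hasSum_integral_of_summable_integral_norm hi hs
  have e1 : (fun x => ∫ E in J, c x * ((‖La ψ E η x‖ ^ 2 : ℝ) : ℂ)) =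
      fun x => c x * ((Bt ψ η J x : ℝ) : ℂ) := by
    funext x
    rw [integral_const_mul, integral_complex_ofReal]
    rfl
  rw [e1] at h1
  exact h1

theorem Bt_total (h : Sol d V a ψ) {η : ℝ} (hη : 0 < η) (J : Set ℝ) :
    HasSum (Bt ψ η J) (∫ E in J, ∑' x, ‖La ψ E η x‖ ^ 2) := by
  have h1 := energy_sum h hη J (fun _ => 1) (fun x => by simp)
  simp only [one_mul, ← Complex.ofReal_tsum] at h1
  rw [integral_complex_ofReal] at h1
  exact Complex.hasSum_ofReal.1 h1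

/-- **the energies outside `J`** -/
theorem core (h : Sol d V a ψ) {η : ℝ} (hη : 0 < η) (J : Set ℝ) (c : Zd d → ℂ)
    (hc : ∀ x, ‖c x‖ ≤ 1) :
    ‖((2 * Real.pi : ℝ) : ℂ) * (∫ s in Ioi (0 : ℝ), ((Real.exp (-(2 * η) * s) : ℝ) : ℂ) *
        ∑' x, c x * ((‖ψ s x‖ ^ 2 : ℝ) : ℂ)) -
      ∫ E in J, ∑' x, c x * ((‖La ψ E η x‖ ^ 2 : ℝ) : ℂ)‖ ≤
    Real.pi / η - ∫ E in J, ∑' x, ‖La ψ E η x‖ ^ 2 := by
  have h1 := (time_sum h hη c hc).mul_left ((2 * Real.pi : ℝ) : ℂ)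
  have h2 := energy_sum h hη J c hc
  have h3 := h1.sub h2
  have h4 := ((At_total h hη).mul_left (2 * Real.pi)).sub (Bt_total h hη J)
  have e1 : 2 * Real.pi * (2 * η)⁻¹ = Real.pi / η := by
    field_simp
  rw [e1] at h4
  rw [← h3.tsum_eq, ← h4.tsum_eq]
  refine tsum_of_norm_bounded h4.summable.hasSum fun x => ?_
  have e2 : ((2 * Real.pi : ℝ) : ℂ) * (c x * ((At ψ η x : ℝ) : ℂ)) - c x * ((Bt ψ η J x : ℝ) : ℂ) =
      c x * ((2 * Real.pi * At ψ η x - Bt ψ η J x : ℝ) : ℂ) := by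
    push_cast
    ring
  rw [e2, norm_mul, Complex.norm_real, Real.norm_of_nonneg (by linarith [Bt_le h hη J x])]
  exact mul_le_of_le_one_left (by linarith [Bt_le h hη J x]) (hc x)

end Pool.Agent.Q218.AD
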