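import Mathlib

/-! The total mass of a limit of averages of Cauchy kernels. -/

set_option autoImplicit false

open MeasureTheory Set Filter Topology

namespace Pool.Agent.Q218.AD

/-- the Cauchy kernel -/
noncomputable def ck (t e E : ℝ) : ℝ := t / ((e - E) ^ 2 + t ^ 2)

theorem ck_cont (t e : ℝ) (ht : 0 < t) : Continuous (ck t e) := by
  unfold ck
  refine Continuous.div (by fun_prop) (by fun_prop) fun E => ?_
  positivity

theorem ck_int (t e a b : ℝ) (ht : 0 < t) :
    ∫ E in a..b, ck t e E = Real.arctan ((b - e) / t) - Real.arctan ((a - e) / t) := by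
  refine intervalIntegral.integral_eq_sub_of_hasDerivAt
    (f := fun E => Real.arctan ((E - e) / t)) (fun E _ => ?_)
    ((ck_cont t e ht).intervalIntegrable _ _)
  have h1 : HasDerivAt (fun E : ℝ => (E - e) / t) (1 / t) E :=
    ((hasDerivAt_id E).sub_const e).div_const t
  refine h1.arctan.congr_deriv ?_
  unfold ck
  have h2 : (e - E) ^ 2 + t ^ 2 ≠ 0 := by positivity
  have h3 : 1 + ((E - e) / t) ^ 2 ≠ 0 := by positivity
  field_simp
  ring

theorem ck_bounds (t e X R : ℝ) (ht : 0 < t) (he : |e| ≤ X) :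
    (∫ E in (-R)..R, ck t e E) ≤ Real.pi ∧
    2 * Real.arctan ((R - X) / t) ≤ ∫ E in (-R)..R, ck t e E := by
  rw [ck_int t e _ _ ht]
  have h1 := Real.arctan_lt_pi_div_two ((R - e) / t)
  have h2 := Real.neg_pi_div_two_lt_arctan ((-R - e) / t)
  rw [abs_le] at he
  have h3 : Real.arctan ((R - X) / t) ≤ Real.arctan ((R - e) / t) := by
    apply Real.arctan_mono
    apply div_le_div_of_nonneg_right _ ht.le
    linarith
  have h4 : Real.arctan ((-R - e) / t) ≤ -Real.arctan ((R - X) / t) := by
    rw [← Real.arctan_neg]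
    apply Real.arctan_mono
    rw [← neg_div]
    apply div_le_div_of_nonneg_right _ ht.le
    linarith
  constructor <;> linarith

/-- **the total mass** -/
theorem mass_lim (X : ℝ) (hX : 0 ≤ X) (g : ℝ → ℝ) (hg : Continuous g)
    (hyp : ∀ n : ℕ, ∃ t : ℝ, 0 < t ∧ t ≤ 1 / ((n : ℝ) + 1) ∧
      ∃ (ι : Type) (_ : Fintype ι) (_ : Nonempty ι) (e : ι → ℝ), (∀ k, |e k| ≤ X) ∧
        ∀ E : ℝ, |E| ≤ X + 1 →
          |(Fintype.card ι : ℝ)⁻¹ * ∑ k, ck t (e k) E - g E| ≤ 1 / ((n : ℝ) + 1)) :
    ∫ E in (-X)..X, g E = Real.pi := by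
  -- on the larger intervals
  have key : ∀ R : ℝ, X < R → R ≤ X + 1 → ∫ E in (-R)..R, g E = Real.pi := by
    intro R hR1 hR2
    have hR0 : 0 < R := by linarith
    have bd : ∀ n : ℕ, (∫ E in (-R)..R, g E) ≤ Real.pi + 2 * R * (1 / ((n : ℝ) + 1)) ∧
        2 * Real.arctan ((R - X) * ((n : ℝ) + 1)) - 2 * R * (1 / ((n : ℝ) + 1)) ≤
          ∫ E in (-R)..R, g E := by
      intro n
      obtain ⟨t, ht, htn, ι, i1, i2, e, he, hE⟩ := hyp n
      have hc : 0 < (Fintype.card ι : ℝ) := by exact_mod_cast Fintype.card_pos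
      have hcont : Continuous fun E => (Fintype.card ι : ℝ)⁻¹ * ∑ k, ck t (e k) E :=
        continuous_const.mul (continuous_finsetSum _ fun k _ => ck_cont t (e k) ht)
      have hI : ∫ E in (-R)..R, ((Fintype.card ι : ℝ)⁻¹ * ∑ k, ck t (e k) E) =
          (Fintype.card ι : ℝ)⁻¹ * ∑ k, ∫ E in (-R)..R, ck t (e k) E := by
        rw [intervalIntegral.integral_const_mul, intervalIntegral.integral_finsetSum]
        intro k _
        exact (ck_cont t (e k) ht).intervalIntegrable _ _
      have hd : |(∫ E in (-R)..R, ((Fintype.card ι : ℝ)⁻¹ * ∑ k, ck t (e k) E)) -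
          ∫ E in (-R)..R, g E| ≤ 2 * R * (1 / ((n : ℝ) + 1)) := by
        rw [← intervalIntegral.integral_sub (hcont.intervalIntegrable _ _)
          (hg.intervalIntegrable _ _)]
        have h1 := intervalIntegral.norm_integral_le_of_norm_le_const (a := -R) (b := R)
          (f := fun E => (Fintype.card ι : ℝ)⁻¹ * ∑ k, ck t (e k) E - g E)
          (C := 1 / ((n : ℝ) + 1)) (fun E hE' => by
            rw [uIoc_of_le (by linarith)] at hE'
            rw [Real.norm_eq_abs]
            apply hE
            rw [abs_le]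
            constructor <;> linarith [hE'.1, hE'.2])
        rw [Real.norm_eq_abs] at h1
        refine h1.trans (le_of_eq ?_)
        rw [abs_of_pos (by linarith : 0 < R - -R)]
        ring
      have hup : (Fintype.card ι : ℝ)⁻¹ * ∑ k, ∫ E in (-R)..R, ck t (e k) E ≤ Real.pi := by
        rw [inv_mul_le_iff₀ hc]
        calc ∑ k, ∫ E in (-R)..R, ck t (e k) E ≤ ∑ _k : ι, Real.pi :=
              Finset.sum_le_sum fun k _ => (ck_bounds t (e k) X R ht (he k)).1
          _ = _ := by rw [Finset.sum_const, Finset.card_univ, nsmul_eq_mul]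
      have hlo : 2 * Real.arctan ((R - X) / t) ≤
          (Fintype.card ι : ℝ)⁻¹ * ∑ k, ∫ E in (-R)..R, ck t (e k) E := by
        rw [le_inv_mul_iff₀ hc]
        calc (Fintype.card ι : ℝ) * (2 * Real.arctan ((R - X) / t)) =
              ∑ _k : ι, 2 * Real.arctan ((R - X) / t) := by
              rw [Finset.sum_const, Finset.card_univ, nsmul_eq_mul]
          _ ≤ _ := Finset.sum_le_sum fun k _ => (ck_bounds t (e k) X R ht (he k)).2
      have hat : Real.arctan ((R - X) * ((n : ℝ) + 1)) ≤ Real.arctan ((R - X) / t) := by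
        apply Real.arctan_mono
        rw [div_eq_mul_inv]
        apply mul_le_mul_of_nonneg_left _ (by linarith)
        have := inv_anti₀ ht htn
        rw [one_div, inv_inv] at this
        exact this
      rw [hI, abs_le] at hd
      constructor
      · linarith [hd.1]
      · linarith [hd.2]
    have l0 : Tendsto (fun n : ℕ => 2 * R * (1 / ((n : ℝ) + 1))) atTop (𝓝 0) := by
      have := (tendsto_one_div_add_atTop_nhds_zero_nat (𝕜 := ℝ)).const_mul (2 * R)
      rwa [mul_zero] at this
    have l1 : Tendsto (fun n : ℕ => Real.pi + 2 * R * (1 / ((n : ℝ) + 1))) atTop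
        (𝓝 (Real.pi + 0)) := l0.const_add _
    have l2 : Tendsto (fun n : ℕ => 2 * Real.arctan ((R - X) * ((n : ℝ) + 1)) -
        2 * R * (1 / ((n : ℝ) + 1))) atTop (𝓝 (2 * (Real.pi / 2) - 0)) := by
      refine Tendsto.sub (Tendsto.const_mul 2 ?_) l0
      refine (Real.tendsto_arctan_atTop.mono_right nhdsWithin_le_nhds).comp ?_
      refine Tendsto.const_mul_atTop (by linarith) ?_
      exact tendsto_atTop_add_const_right _ _ tendsto_natCast_atTop_atTop
    apply le_antisymm
    · have := ge_of_tendsto' l1 fun n => (bd n).1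
      linarith
    · have := le_of_tendsto' l2 fun n => (bd n).2
      linarith
  -- continuity at the edge
  have hcont : Continuous fun R : ℝ => ∫ E in (-R)..R, g E := by
    have h1 : (fun R : ℝ => ∫ E in (-R)..R, g E) =
        fun R => (∫ E in (0 : ℝ)..R, g E) - ∫ E in (0 : ℝ)..(-R), g E := by
      funext R
      rw [intervalIntegral.integral_interval_sub_left (hg.intervalIntegrable _ _)
        (hg.intervalIntegrable _ _)]
    rw [h1]
    have h2 : Continuous fun R : ℝ => ∫ E in (0 : ℝ)..R, g E :=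
      intervalIntegral.continuous_primitive (fun a b => hg.intervalIntegrable a b) 0
    exact h2.sub (h2.comp continuous_neg)
  have l1 : Tendsto (fun R : ℝ => ∫ E in (-R)..R, g E) (𝓝[>] X) (𝓝 (∫ E in (-X)..X, g E)) :=
    (hcont.tendsto X).mono_left nhdsWithin_le_nhds
  have l2 : Tendsto (fun R : ℝ => ∫ E in (-R)..R, g E) (𝓝[>] X) (𝓝 Real.pi) := by
    refine tendsto_const_nhds.congr' ?_
    have hmem : Set.Ioc X (X + 1) ∈ 𝓝[>] X := Ioc_mem_nhdsGT (by linarith)
    filter_upwards [hmem] with R hR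
    exact (key R hR.1 hR.2).symm
  exact tendsto_nhds_unique l1 l2

end Pool.Agent.Q218.AD
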