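import Pool.Agent.TH794.QD.Prof
import Pool.Agent.W788.MFP.Form
import Pool.Agent.Q218.AD.Mass

/-! The free density of states has mass one. -/

set_option autoImplicit false

open MeasureTheory Set Filter Topology

namespace Pool.Agent.Q218.AD

open Pool.Agent.W788.BK
open Pool.Agent.TH794.LL2
open Pool.Agent.TH794.QD
open Pool.Agent.W788.MFP.Four (T NN adj NN_pos card_T)

theorem gf0_cont (hO : S_OSC) (d : ℕ) (hd : 3 ≤ d) :
    Continuous fun E : ℝ => (GF (F0 d) (E : ℂ)).im := by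
  have h1 : Continuous fun E : ℝ => GF (F0 d) (E : ℂ) := by
    rw [continuous_iff_continuousAt]
    intro E0
    rw [ContinuousAt, tendsto_iff_norm_sub_tendsto_zero]
    have hc : Continuous fun E : ℝ => CH d * |E - E0| ^ (1 / 8 : ℝ) := by
      have := Real.continuous_rpow_const (show (0 : ℝ) ≤ 1 / 8 by norm_num)
      fun_prop
    have l1 := hc.tendsto E0
    have e1 : CH d * |E0 - E0| ^ (1 / 8 : ℝ) = 0 := by
      rw [sub_self, abs_zero, Real.zero_rpow (by norm_num), mul_zero]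
    rw [e1] at l1
    refine squeeze_zero (fun E => norm_nonneg _) (fun E => ?_) l1
    refine (hol0 hO d hd (E : ℂ) (E0 : ℂ) (by simp) (by simp)).trans (le_of_eq ?_)
    rw [← Complex.ofReal_sub, Complex.norm_real, Real.norm_eq_abs]
  exact Complex.continuous_im.comp h1

theorem gf1_cont (hO : S_OSC) (d : ℕ) (hd : 3 ≤ d) :
    Continuous fun E : ℝ => (GF (F1 d) (E : ℂ)).im := by
  have h1 : Continuous fun E : ℝ => GF (F1 d) (E : ℂ) := by
    rw [continuous_iff_continuousAt]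
    intro E0
    rw [ContinuousAt, tendsto_iff_norm_sub_tendsto_zero]
    have hc : Continuous fun E : ℝ => CH d * |E - E0| ^ (1 / 8 : ℝ) := by
      have := Real.continuous_rpow_const (show (0 : ℝ) ≤ 1 / 8 by norm_num)
      fun_prop
    have l1 := hc.tendsto E0
    have e1 : CH d * |E0 - E0| ^ (1 / 8 : ℝ) = 0 := by
      rw [sub_self, abs_zero, Real.zero_rpow (by norm_num), mul_zero]
    rw [e1] at l1
    refine squeeze_zero (fun E => norm_nonneg _) (fun E => ?_) l1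
    refine (hol1 hO d hd (E : ℂ) (E0 : ℂ) (by simp) (by simp)).trans (le_of_eq ?_)
    rw [← Complex.ofReal_sub, Complex.norm_real, Real.norm_eq_abs]
  exact Complex.continuous_im.comp h1

theorem gL_im {d L : ℕ} [NeZero L] (E t : ℝ) :
    (gL d L ((E : ℂ) + (t : ℂ) * Complex.I)).im =
      (Fintype.card (T d L) : ℝ)⁻¹ * ∑ k : T d L, ck t (adj k) E := by
  unfold gL
  rw [← Complex.ofReal_inv, Complex.im_ofReal_mul, Complex.im_sum, card_T]
  congr 1
  refine Finset.sum_congr rfl fun k _ => ?_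
  rw [Complex.inv_im]
  unfold ck
  have h1 : ((adj k : ℝ) : ℂ) - ((E : ℂ) + (t : ℂ) * Complex.I) =
      ((adj k - E : ℝ) : ℂ) + ((-t : ℝ) : ℂ) * Complex.I := by
    push_cast
    ring
  rw [h1, Complex.normSq_add_mul_I]
  simp

/-- the free density of states as a limit of averages of Cauchy kernels -/
theorem dos_appr (hO : S_OSC) (d : ℕ) (hd : 3 ≤ d) (n : ℕ) :
    ∃ t : ℝ, 0 < t ∧ t ≤ 1 / ((n : ℝ) + 1) ∧ ∃ (L : ℕ) (_ : NeZero L), ∀ E : ℝ,
      |(Fintype.card (T d L) : ℝ)⁻¹ * ∑ k : T d L, ck t (adj k) E - (GF (F0 d) (E : ℂ)).im| ≤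
        1 / ((n : ℝ) + 1) := by
  have hC := CH_nonneg d
  obtain ⟨x, hx⟩ : ∃ x : ℝ, x = (2 * (CH d + 1) * ((n : ℝ) + 1))⁻¹ := ⟨_, rfl⟩
  have hn0 : (0 : ℝ) ≤ n := Nat.cast_nonneg n
  have hn1 : (0 : ℝ) < (n : ℝ) + 1 := by positivity
  have hx0 : 0 < x := by rw [hx]; positivity
  have hxn : x ≤ 1 / ((n : ℝ) + 1) := by
    rw [hx, one_div]
    apply inv_anti₀ hn1
    nlinarith
  have hx1 : x ≤ 1 := by
    refine hxn.trans ?_
    rw [div_le_one hn1]
    linarith
  have hCx : CH d * x ≤ 1 / 2 * (1 / ((n : ℝ) + 1)) := by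
    have e1 : x * (2 * (CH d + 1) * ((n : ℝ) + 1)) = 1 := by
      rw [hx]
      exact inv_mul_cancel₀ (by positivity)
    rw [mul_one_div, le_div_iff₀ hn1]
    have : 0 ≤ x * (n + 1) := by positivity
    nlinarith
  obtain ⟨t, ht⟩ : ∃ t : ℝ, t = x ^ 8 := ⟨_, rfl⟩
  have ht0 : 0 < t := by rw [ht]; positivity
  have htx : t ≤ x := by
    rw [ht]
    calc x ^ 8 ≤ x ^ 1 := pow_le_pow_of_le_one hx0.le hx1 (by norm_num)
      _ = x := pow_one x
  have ht1 : t ≤ 1 := htx.trans hx1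
  have ht8 : t ^ (1 / 8 : ℝ) = x := by
    rw [ht, ← Real.rpow_natCast, ← Real.rpow_mul hx0.le]
    norm_num
  obtain ⟨L, hL⟩ : ∃ L : ℕ, L = ⌈56 * (d : ℝ) * ((n : ℝ) + 1) / t ^ 2⌉₊ + 1 := ⟨_, rfl⟩
  have hLp : 0 < L := by rw [hL]; positivity
  have hLn : NeZero L := ⟨hLp.ne'⟩
  have hLR : (0 : ℝ) < L := by exact_mod_cast hLp
  have hL2 : 56 * (d : ℝ) * ((n : ℝ) + 1) / t ^ 2 ≤ L := by
    rw [hL]
    push_cast
    have := Nat.le_ceil (56 * (d : ℝ) * ((n : ℝ) + 1) / t ^ 2)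
    linarith
  refine ⟨t, ht0, htx.trans hxn, L, hLn, fun E => ?_⟩
  rw [← gL_im]
  have h1 := fin0 (L := L) hO d hd t ht0 ht1 ((E : ℂ) + (t : ℂ) * Complex.I) (by simp)
  have h2 := hol0 hO d hd ((E : ℂ) + (t : ℂ) * Complex.I) (E : ℂ) (by simpa using ht0.le) (by simp)
  rw [add_sub_cancel_left, norm_mul, Complex.norm_I, mul_one, Complex.norm_real,
    Real.norm_of_nonneg ht0.le, ht8] at h2
  have h3 : 28 * (d : ℝ) / L / t ^ 2 ≤ 1 / 2 * (1 / ((n : ℝ) + 1)) := by
    rw [div_le_iff₀ (by positivity)] at hL2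
    rw [mul_one_div, div_div, div_le_div_iff₀ (by positivity) hn1]
    linarith
  have h4 := (Complex.abs_im_le_norm _).trans (h1.trans h3)
  have h5 := (Complex.abs_im_le_norm _).trans (h2.trans hCx)
  rw [Complex.sub_im] at h4 h5
  rw [abs_le] at h4 h5 ⊢
  constructor
  · linarith [h4.1, h5.1]
  · linarith [h4.2, h5.2]

/-- **the mass of the free density of states** -/
theorem dos_mass (hO : S_OSC) (d : ℕ) (hd : 3 ≤ d) :
    ∫ E in (-(2 * (d : ℝ)))..(2 * (d : ℝ)), (GF (F0 d) (E : ℂ)).im = Real.pi := by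
  refine mass_lim (2 * d) (by positivity) _ (gf0_cont hO d hd) fun n => ?_
  obtain ⟨t, ht0, htn, L, hL, h⟩ := dos_appr hO d hd n
  exact ⟨t, ht0, htn, T d L, inferInstance, inferInstance, adj,
    Pool.Agent.W788.MFP.Form.adj_abs, fun E _ => h E⟩

/-- **the free density of states vanishes outside the spectrum** -/
theorem dos_zero (hO : S_OSC) (d : ℕ) (hd : 3 ≤ d) (E : ℝ) (hE : 2 * d < |E|) :
    (GF (F0 d) (E : ℂ)).im = 0 := by
  apply le_antisymm
  · obtain ⟨r, hr⟩ : ∃ r, r = |E| - 2 * d := ⟨_, rfl⟩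
    have hr0 : 0 < r := by rw [hr]; linarith
    apply lim_le _ _ (1 + 1 / r ^ 2)
    intro n
    obtain ⟨t, ht0, htn, L, hL, h⟩ := dos_appr hO d hd n
    have hc : 0 < (Fintype.card (T d L) : ℝ) := by exact_mod_cast Fintype.card_pos
    have hk : ∀ k : T d L, ck t (adj k) E ≤ t / r ^ 2 := by
      intro k
      unfold ck
      apply div_le_div_of_nonneg_left ht0.le (by positivity)
      have h1 := Pool.Agent.W788.MFP.Form.adj_abs k
      have h2 : r ≤ |adj k - E| := by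
        have := abs_sub_abs_le_abs_sub E (adj k)
        rw [abs_sub_comm] at this
        linarith
      have h3 : r ^ 2 ≤ |adj k - E| ^ 2 := pow_le_pow_left₀ hr0.le h2 2
      rw [sq_abs] at h3
      nlinarith
    have h4 : (Fintype.card (T d L) : ℝ)⁻¹ * ∑ k : T d L, ck t (adj k) E ≤ t / r ^ 2 := by
      rw [inv_mul_le_iff₀ hc]
      calc ∑ k : T d L, ck t (adj k) E ≤ ∑ _k : T d L, t / r ^ 2 := Finset.sum_le_sum fun k _ => hk k
        _ = _ := by rw [Finset.sum_const, Finset.card_univ, nsmul_eq_mul]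
    have h5 : t / r ^ 2 ≤ 1 / ((n : ℝ) + 1) / r ^ 2 := by gcongr
    have h6 := (abs_le.1 (h E)).1
    have e1 : (1 + 1 / r ^ 2) / ((n : ℝ) + 1) = 1 / ((n : ℝ) + 1) + 1 / ((n : ℝ) + 1) / r ^ 2 := by
      field_simp
    rw [zero_add, e1]
    linarith
  · have h1 := GF_im hO d hd (E : ℂ) (by simp)
    exact h1.1.trans h1.2

end Pool.Agent.Q218.AD
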