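import Mathlib

/-! Density of the exponential polynomials in `L¹(0, ∞)`. -/

set_option autoImplicit false

open MeasureTheory Set Filter Topology

namespace Pool.Agent.Q218.AD

/-- exponential polynomials without constant term -/
noncomputable def ep (n : ℕ) (c : ℕ → ℝ) (s : ℝ) : ℝ :=
  ∑ k ∈ Finset.range n, c k * Real.exp (-((k : ℝ) + 1) * s)

theorem ep_cont (n : ℕ) (c : ℕ → ℝ) : Continuous (ep n c) := by
  unfold ep
  fun_prop

theorem exp_int (k : ℝ) (hk : 0 < k) : IntegrableOn (fun s : ℝ => Real.exp (-k * s)) (Ioi (0 : ℝ)) :=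
  exp_neg_integrableOn_Ioi 0 hk

theorem exp_val (k : ℝ) (hk : 0 < k) : ∫ s in Ioi (0 : ℝ), Real.exp (-k * s) = k⁻¹ := by
  have h := integral_exp_mul_Ioi (a := -k) (by linarith) 0
  rw [h]
  simp

theorem ep_int (n : ℕ) (c : ℕ → ℝ) : IntegrableOn (ep n c) (Ioi (0 : ℝ)) := by
  unfold ep
  refine integrable_finsetSum _ fun k _ => ?_
  exact (exp_int ((k : ℝ) + 1) (by positivity)).const_mul _

/-- a polynomial in `y = exp (-s)` times `y` -/
theorem poly_ep (P : Polynomial ℝ) (s : ℝ) :
    Real.exp (-s) * P.eval (Real.exp (-s)) = ep (P.natDegree + 1) P.coeff s := by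
  unfold ep
  rw [Polynomial.eval_eq_sum_range, Finset.mul_sum]
  refine Finset.sum_congr rfl fun k _ => ?_
  rw [← Real.exp_nat_mul, mul_left_comm, ← Real.exp_add]
  congr 2
  ring

/-- compactly supported continuous functions -/
theorem dense_cc (g : ℝ → ℝ) (hg : Continuous g) (hc : HasCompactSupport g) (ε : ℝ) (hε : 0 < ε) :
    ∃ (n : ℕ) (c : ℕ → ℝ), ∀ s : ℝ, 0 ≤ s → |g s - ep n c s| ≤ ε * Real.exp (-s) := by
  -- bound of the support
  obtain ⟨R, hR⟩ := hc.isCompact.isBounded.subset_closedBall 0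
  have hz : ∀ s : ℝ, R < |s| → g s = 0 := by
    intro s hs
    by_contra h
    have h1 : s ∈ tsupport g := subset_tsupport g (Function.mem_support.2 h)
    have h2 := hR h1
    rw [mem_closedBall_zero_iff, Real.norm_eq_abs] at h2
    linarith
  -- the function of `y`
  obtain ⟨K, hK⟩ : ∃ K : ℝ → ℝ, K = fun y => if y < Real.exp (-(|R| + 1)) then 0 else
    g (-Real.log y) / y := ⟨_, rfl⟩
  have hK0 : ∀ y, 0 < y → K y = g (-Real.log y) / y := by
    intro y hy
    rw [hK]
    simp only
    split_ifs with h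
    · have h1 : Real.log y < -(|R| + 1) := by
        rw [← Real.log_exp (-(|R| + 1))]
        exact Real.log_lt_log hy h
      have h2 : R < |(-Real.log y)| := by
        have := le_abs_self (-Real.log y)
        have := le_abs_self R
        linarith
      rw [hz _ h2, zero_div]
    · rfl
  have hKc : ContinuousOn K (Set.Icc 0 1) := by
    intro y hy
    rcases eq_or_lt_of_le hy.1 with h | h
    · have h1 : K =ᶠ[𝓝 y] fun _ => 0 := by
        have h2 : Set.Iio (Real.exp (-(|R| + 1))) ∈ 𝓝 y := by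
          apply Iio_mem_nhds
          rw [← h]
          exact Real.exp_pos _
        filter_upwards [h2] with z hz2
        rw [hK]
        simp only
        rw [if_pos (Set.mem_Iio.1 hz2)]
      exact (continuousAt_const.congr h1.symm).continuousWithinAt
    · have h1 : K =ᶠ[𝓝 y] fun z => g (-Real.log z) / z := by
        filter_upwards [Ioi_mem_nhds h] with z hz2
        exact hK0 z hz2
      have h2 : ContinuousAt (fun z => g (-Real.log z) / z) y := by
        have h3 : ContinuousAt (fun z => -Real.log z) y := (Real.continuousAt_log h.ne').neg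
        exact ContinuousAt.div (hg.continuousAt.comp h3) continuousAt_id h.ne'
      exact (h2.congr h1.symm).continuousWithinAt
  obtain ⟨P, hP⟩ := exists_polynomial_near_of_continuousOn 0 1 K hKc ε hε
  refine ⟨P.natDegree + 1, P.coeff, fun s hs => ?_⟩
  rw [← poly_ep]
  have hy0 : 0 < Real.exp (-s) := Real.exp_pos _
  have hy1 : Real.exp (-s) ≤ 1 := Real.exp_le_one_iff.2 (by linarith)
  have h1 := (hP (Real.exp (-s)) ⟨hy0.le, hy1⟩).le
  rw [hK0 _ hy0, Real.log_exp, neg_neg, abs_sub_comm] at h1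
  have h2 : g s - Real.exp (-s) * P.eval (Real.exp (-s)) =
      (g s / Real.exp (-s) - P.eval (Real.exp (-s))) * Real.exp (-s) := by
    field_simp
  rw [h2, abs_mul, abs_of_pos hy0]
  exact mul_le_mul_of_nonneg_right h1 hy0.le

/-- **density** -/
theorem dense_exp (h : ℝ → ℝ) (hh : IntegrableOn h (Ioi (0 : ℝ))) (ε : ℝ) (hε : 0 < ε) :
    ∃ (n : ℕ) (c : ℕ → ℝ), ∫ s in Ioi (0 : ℝ), |h s - ep n c s| ≤ ε := by
  obtain ⟨g, hgc, hg1, hgcont, hgi⟩ := hh.exists_hasCompactSupport_integral_sub_le
    (ε := ε / 2) (by positivity)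
  obtain ⟨n, c, hn⟩ := dense_cc g hgcont hgc (ε / 2) (by positivity)
  refine ⟨n, c, ?_⟩
  have i1 : IntegrableOn (fun s => |h s - g s|) (Ioi (0 : ℝ)) := (hh.sub hgi).abs
  have i2 : IntegrableOn (fun s => ε / 2 * Real.exp (-1 * s)) (Ioi (0 : ℝ)) :=
    (exp_int 1 one_pos).const_mul _
  have i3 : IntegrableOn (fun s => |h s - ep n c s|) (Ioi (0 : ℝ)) := (hh.sub (ep_int n c)).abs
  calc ∫ s in Ioi (0 : ℝ), |h s - ep n c s|
      ≤ ∫ s in Ioi (0 : ℝ), (|h s - g s| + ε / 2 * Real.exp (-1 * s)) := by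
        refine setIntegral_mono_on i3 (i1.add i2) measurableSet_Ioi fun s hs => ?_
        have h1 := hn s (le_of_lt hs)
        rw [neg_one_mul]
        calc |h s - ep n c s| = |(h s - g s) + (g s - ep n c s)| := by ring_nf
          _ ≤ |h s - g s| + |g s - ep n c s| := abs_add_le _ _
          _ ≤ _ := by linarith
    _ = (∫ s in Ioi (0 : ℝ), |h s - g s|) + ε / 2 * 1⁻¹ := by
        rw [integral_add i1 i2, integral_const_mul, exp_val 1 one_pos]
    _ ≤ ε := by
        simp only [Real.norm_eq_abs] at hg1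
        rw [inv_one, mul_one]
        linarith

end Pool.Agent.Q218.AD
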