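import Pool.Agent.Q218.AD.Main

/-! The time averages of the evolution. -/

set_option autoImplicit false
set_option linter.unusedSectionVars false

open scoped BigOperators Topology
open MeasureTheory Filter Set

namespace Pool.Agent.Q218.AD

open Pool.Agent.H4R2.LO (Zd)
open Pool.Agent.TH794.QD (Sol La ew)

variable {d : ℕ} {V : Zd d → ℝ} {a : Zd d} {ψ : ℝ → Zd d → ℂ}

theorem small_rpow (p c : ℝ) (hp : 0 < p) (hc : 0 < c) :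
    ∃ l : ℝ, 0 < l ∧ ∀ lam : ℝ, 0 < lam → lam ≤ l → lam ^ p ≤ c := by
  refine ⟨c ^ (1 / p), Real.rpow_pos_of_pos hc _, fun lam h0 h1 => ?_⟩
  calc lam ^ p ≤ (c ^ (1 / p)) ^ p := Real.rpow_le_rpow h0.le h1 hp.le
    _ = c := by
      rw [← Real.rpow_mul hc.le, one_div, inv_mul_cancel₀ hp.ne', Real.rpow_one]

/-- **the time averages** -/
theorem step3 (h : Sol d V a ψ) {T : ℝ} (hT : 0 < T) (c : Zd d → ℂ) (hc : ∀ x, ‖c x‖ ≤ 1)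
    {X κ e0 δ Q ε : ℝ} {G0 G1 : ℝ → ℝ} (hκ : 0 < κ) (hκX : κ ≤ X) (hδ : 0 ≤ δ) (hQ : 0 ≤ Q)
    (c0 : Continuous G0) (c1 : Continuous G1) (n0 : ∀ E, 0 ≤ G0 E) (n1 : ∀ E, 0 ≤ G1 E)
    (hm : ∫ E in (-X)..X, G0 E = Real.pi)
    {w : ℝ → ℝ} (hw : IntegrableOn w (Ioi (0 : ℝ))) {n : ℕ} {cf : ℕ → ℝ}
    (hn : ∫ s in Ioi (0 : ℝ), |w s - ep n cf s| ≤ ε)
    (hP : ∀ k ∈ Finset.range n, ∀ e, |e0 - e| ≤ X - κ →
      ‖((((k : ℝ) + 1) / (2 * T) : ℝ) : ℂ) * ∑' x, c x *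
      ((‖La ψ e (((k : ℝ) + 1) / (2 * T)) x‖ ^ 2 : ℝ) : ℂ) -
      ((G0 (e0 - e) / (1 + G1 (e0 - e) / G0 (e0 - e) ^ 2 * (2 * Q / ((k : ℝ) + 1))) : ℝ) : ℂ)‖ ≤ δ)
    (hN : ∀ k ∈ Finset.range n, ∀ e, |e0 - e| ≤ X - κ →
      |((k : ℝ) + 1) / (2 * T) * ∑' x, ‖La ψ e (((k : ℝ) + 1) / (2 * T)) x‖ ^ 2 -
        G0 (e0 - e)| ≤ δ)
    (hm1 : 0 ≤ 1 - Real.pi⁻¹ * ∫ E in (-(X - κ))..(X - κ), G0 E) :
    ‖(∫ s in Ioi (0 : ℝ), ((w s : ℝ) : ℂ) * Phi ψ c (s * T)) -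
      ((∫ s in Ioi (0 : ℝ), w s * Psi X G0 G1 Q s : ℝ) : ℂ)‖ ≤
    2 * ε + (∑ k ∈ Finset.range n, |cf k|) *
      (2 * (1 - Real.pi⁻¹ * ∫ E in (-(X - κ))..(X - κ), G0 E) + 4 * X / Real.pi * δ) := by
  have hX : 0 < X := by linarith
  have mPhi : Measurable fun s => Phi ψ c (s * T) := (phi_meas h c).comp (by fun_prop)
  have i1 := mul_bdd_int hw mPhi (B := 1) fun s _ => phi_le h c hc _
  have mPsi : Measurable fun s => ((Psi X G0 G1 Q s : ℝ) : ℂ) := by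
    have := psi_meas (X := X) c0 c1 Q
    fun_prop
  have bPsi : ∀ s : ℝ, 0 < s → ‖((Psi X G0 G1 Q s : ℝ) : ℂ)‖ ≤ 1 := fun s hs => by
    have := psi_bd hX c0 c1 n0 n1 hm Q s hQ hs.le
    rw [Complex.norm_real, Real.norm_of_nonneg this.1]
    exact this.2
  have i2 := mul_bdd_int hw mPsi (B := 1) bPsi
  have e4 : (∫ s in Ioi (0 : ℝ), ((w s : ℝ) : ℂ) * Phi ψ c (s * T)) -
        ((∫ s in Ioi (0 : ℝ), w s * Psi X G0 G1 Q s : ℝ) : ℂ) =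
      ∫ s in Ioi (0 : ℝ), ((w s : ℝ) : ℂ) * (Phi ψ c (s * T) - ((Psi X G0 G1 Q s : ℝ) : ℂ)) := by
    rw [← integral_complex_ofReal]
    simp only [mul_sub, Complex.ofReal_mul]
    exact (integral_sub i1 i2).symm
  rw [e4]
  refine appr hw hn (mPhi.sub mPsi) (by norm_num : (0 : ℝ) ≤ 2) (fun s hs => ?_) fun k hk => ?_
  · refine (norm_sub_le _ _).trans ?_
    have := phi_le h c hc (s * T)
    have := bPsi s hs
    linarith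
  · have hk0 : 0 < (k : ℝ) + 1 := by positivity
    refine (step2 h hk0 hT c hc hκ hκX hδ hQ c0 c1 n0 n1 hm (hP k hk) (hN k hk)).trans ?_
    apply div_le_self
    · have := Real.pi_pos
      positivity
    · have : (0 : ℝ) ≤ k := Nat.cast_nonneg k
      linarith

end Pool.Agent.Q218.AD
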