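import Pool.Agent.Q218.AD.Exp

/-! The limiting characteristic function. -/

set_option autoImplicit false

open MeasureTheory Set Filter Topology

namespace Pool.Agent.Q218.AD

/-- the characteristic function of the mixture -/
noncomputable def Psi (X : ℝ) (G0 G1 : ℝ → ℝ) (Q s : ℝ) : ℝ :=
  Real.pi⁻¹ * ∫ E in (-X)..X, G0 E * Real.exp (-(2 * s * (G1 E / G0 E ^ 2) * Q))

section

variable {X : ℝ} {G0 G1 : ℝ → ℝ} (hX : 0 < X) (c0 : Continuous G0) (c1 : Continuous G1)
  (n0 : ∀ E, 0 ≤ G0 E) (n1 : ∀ E, 0 ≤ G1 E) (hm : ∫ E in (-X)..X, G0 E = Real.pi)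

include c0 c1 in
theorem psi_meas (Q : ℝ) : Measurable (Psi X G0 G1 Q) := by
  have m0 := c0.measurable
  have m1 := c1.measurable
  unfold Psi
  refine Measurable.const_mul ?_ _
  have h1 : StronglyMeasurable fun p : ℝ × ℝ =>
      G0 p.2 * Real.exp (-(2 * p.1 * (G1 p.2 / G0 p.2 ^ 2) * Q)) := by
    apply Measurable.stronglyMeasurable
    fun_prop
  have h2 : ∀ s : Set ℝ, Measurable fun r : ℝ => ∫ E in s,
      G0 E * Real.exp (-(2 * r * (G1 E / G0 E ^ 2) * Q)) := fun s =>
    (h1.integral_prod_right (ν := volume.restrict s)).measurable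
  simp only [intervalIntegral]
  exact (h2 _).sub (h2 _)

include hX c0 c1 n0 n1 hm in
theorem psi_bd (Q s : ℝ) (hQ : 0 ≤ Q) (hs : 0 ≤ s) : 0 ≤ Psi X G0 G1 Q s ∧ Psi X G0 G1 Q s ≤ 1 := by
  have m0 := c0.measurable
  have m1 := c1.measurable
  have hx : -X ≤ X := by linarith
  have he : ∀ E, G0 E * Real.exp (-(2 * s * (G1 E / G0 E ^ 2) * Q)) ≤ G0 E := by
    intro E
    refine mul_le_of_le_one_right (n0 E) (Real.exp_le_one_iff.2 ?_)
    have := n1 E
    have : 0 ≤ 2 * s * (G1 E / G0 E ^ 2) * Q := by positivity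
    linarith
  have he0 : ∀ E, 0 ≤ G0 E * Real.exp (-(2 * s * (G1 E / G0 E ^ 2) * Q)) := fun E =>
    mul_nonneg (n0 E) (Real.exp_pos _).le
  have hi : IntervalIntegrable (fun E => G0 E * Real.exp (-(2 * s * (G1 E / G0 E ^ 2) * Q)))
      volume (-X) X := by
    rw [intervalIntegrable_iff_integrableOn_Ioc_of_le hx]
    have h1 := (c0.intervalIntegrable (μ := volume) (-X) X)
    rw [intervalIntegrable_iff_integrableOn_Ioc_of_le hx] at h1
    refine Integrable.mono' h1 ?_ (Filter.Eventually.of_forall fun E => ?_)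
    · apply Measurable.aestronglyMeasurable
      fun_prop
    · rw [Real.norm_of_nonneg (he0 E)]
      exact he E
  have h1 : ∫ E in (-X)..X, G0 E * Real.exp (-(2 * s * (G1 E / G0 E ^ 2) * Q)) ≤
      ∫ E in (-X)..X, G0 E :=
    intervalIntegral.integral_mono_on hx hi (c0.intervalIntegrable _ _) fun E _ => he E
  have h2 : 0 ≤ ∫ E in (-X)..X, G0 E * Real.exp (-(2 * s * (G1 E / G0 E ^ 2) * Q)) :=
    intervalIntegral.integral_nonneg hx fun E _ => he0 E
  unfold Psi
  have hp := Real.pi_pos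
  refine ⟨by positivity, ?_⟩
  rw [inv_mul_le_iff₀ hp, mul_one, ← hm]
  exact h1

include hX c0 c1 n0 n1 in
/-- the Laplace transform of the mixture -/
theorem psi_lap (Q k : ℝ) (hQ : 0 ≤ Q) (hk : 0 < k) :
    k * ∫ s in Ioi (0 : ℝ), Real.exp (-k * s) * Psi X G0 G1 Q s =
      Real.pi⁻¹ * ∫ E in (-X)..X, G0 E / (1 + G1 E / G0 E ^ 2 * (2 * Q / k)) := by
  have m0 := c0.measurable
  have m1 := c1.measurable
  have hx : -X ≤ X := by linarith
  have hD : ∀ E, 0 ≤ G1 E / G0 E ^ 2 := fun E => div_nonneg (n1 E) (sq_nonneg _)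
  obtain ⟨F, hF⟩ : ∃ F : ℝ → ℝ → ℝ, F = fun s E => Real.exp (-k * s) *
      (G0 E * Real.exp (-(2 * s * (G1 E / G0 E ^ 2) * Q))) := ⟨_, rfl⟩
  have hint : Integrable (Function.uncurry F)
      ((volume.restrict (Ioi (0 : ℝ))).prod (volume.restrict (Ioc (-X) X))) := by
    have h1 : Integrable (fun s : ℝ => Real.exp (-k * s)) (volume.restrict (Ioi (0 : ℝ))) :=
      exp_int k hk
    have h2 : Integrable G0 (volume.restrict (Ioc (-X) X)) := by
      have h1 := (c0.intervalIntegrable (μ := volume) (-X) X)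
      rwa [intervalIntegrable_iff_integrableOn_Ioc_of_le hx] at h1
    have h3 := h1.mul_prod h2
    refine Integrable.mono' h3 ?_ ?_
    · apply Measurable.aestronglyMeasurable
      rw [hF]
      simp only [Function.uncurry_def]
      fun_prop
    · have h4 : ∀ᵐ p : ℝ × ℝ ∂((volume.restrict (Ioi (0 : ℝ))).prod (volume.restrict (Ioc (-X) X))),
          p.1 ∈ Ioi (0 : ℝ) := by
        rw [Measure.prod_restrict]
        filter_upwards [ae_restrict_mem (measurableSet_Ioi.prod measurableSet_Ioc)] with p hp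
        exact hp.1
      filter_upwards [h4] with p hp
      have hp0 : 0 < p.1 := hp
      rw [hF]
      simp only [Function.uncurry_def]
      rw [Real.norm_of_nonneg (mul_nonneg (Real.exp_pos _).le
        (mul_nonneg (n0 _) (Real.exp_pos _).le))]
      refine mul_le_mul_of_nonneg_left ?_ (Real.exp_pos _).le
      refine mul_le_of_le_one_right (n0 _) (Real.exp_le_one_iff.2 ?_)
      have := hD p.2
      have : 0 ≤ 2 * p.1 * (G1 p.2 / G0 p.2 ^ 2) * Q := by positivity
      linarith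
  have hsw := integral_integral_swap hint
  have e1 : ∀ s, Real.exp (-k * s) * Psi X G0 G1 Q s =
      Real.pi⁻¹ * ∫ E in Ioc (-X) X, F s E := by
    intro s
    unfold Psi
    rw [intervalIntegral.integral_of_le hx, hF]
    simp only
    rw [integral_const_mul]
    ring
  have e2 : ∀ E, ∫ s in Ioi (0 : ℝ), F s E =
      k⁻¹ * (G0 E / (1 + G1 E / G0 E ^ 2 * (2 * Q / k))) := by
    intro E
    rw [hF]
    simp only
    have h1 : ∀ s, Real.exp (-k * s) * (G0 E * Real.exp (-(2 * s * (G1 E / G0 E ^ 2) * Q))) =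
        G0 E * Real.exp (-(k + 2 * (G1 E / G0 E ^ 2) * Q) * s) := by
      intro s
      rw [mul_left_comm, ← Real.exp_add]
      congr 2
      ring
    simp only [h1]
    have h2 := hD E
    have h3 : 0 < k + 2 * (G1 E / G0 E ^ 2) * Q := by positivity
    rw [integral_const_mul, exp_val _ h3]
    have h4 : 0 < 1 + G1 E / G0 E ^ 2 * (2 * Q / k) := by positivity
    generalize G1 E / G0 E ^ 2 = D at *
    field_simp
  simp only [e1]
  rw [integral_const_mul, hsw, intervalIntegral.integral_of_le hx]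
  simp only [e2]
  rw [integral_const_mul, mul_left_comm, ← mul_assoc k, mul_inv_cancel₀ hk.ne', one_mul]

include c0 in
theorem edge_small (hm : ∫ E in (-X)..X, G0 E = Real.pi) (ε : ℝ) (hε : 0 < ε) :
    ∃ κ : ℝ, 0 < κ ∧ κ ≤ 1 ∧ 1 - Real.pi⁻¹ * (∫ E in (-(X - κ))..(X - κ), G0 E) ≤ ε := by
  have hcont : Continuous fun κ : ℝ => ∫ E in (-(X - κ))..(X - κ), G0 E := by
    have h1 : (fun κ : ℝ => ∫ E in (-(X - κ))..(X - κ), G0 E) =
        fun κ => (∫ E in (0 : ℝ)..(X - κ), G0 E) - ∫ E in (0 : ℝ)..(-(X - κ)), G0 E := by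
      funext κ
      rw [intervalIntegral.integral_interval_sub_left (c0.intervalIntegrable _ _)
        (c0.intervalIntegrable _ _)]
    rw [h1]
    have h2 : Continuous fun R : ℝ => ∫ E in (0 : ℝ)..R, G0 E :=
      intervalIntegral.continuous_primitive (fun a b => c0.intervalIntegrable a b) 0
    have h3 : Continuous fun κ : ℝ => X - κ := by fun_prop
    have h4 : Continuous fun κ : ℝ => -(X - κ) := by fun_prop
    exact (h2.comp h3).sub (h2.comp h4)
  have hc2 : Continuous fun κ : ℝ => 1 - Real.pi⁻¹ * (∫ E in (-(X - κ))..(X - κ), G0 E) :=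
    continuous_const.sub (continuous_const.mul hcont)
  have l1 := hc2.tendsto 0
  simp only [sub_zero] at l1
  rw [hm, inv_mul_cancel₀ Real.pi_ne_zero, sub_self] at l1
  have l2 := (l1.mono_left (nhdsWithin_le_nhds (s := Set.Ioi 0))).eventually_le_const hε
  have hmem : Set.Ioc (0 : ℝ) 1 ∈ 𝓝[>] (0 : ℝ) := Ioc_mem_nhdsGT one_pos
  obtain ⟨κ, h1, h2⟩ := (l2.and hmem).exists
  exact ⟨κ, h2.1, h2.2, h1⟩

include c0 c1 n0 n1 in
/-- cutting off the edges -/
theorem edge_cut (Q κ : ℝ) (hQ : 0 ≤ Q) (hκ : 0 < κ) (hm : ∫ E in (-X)..X, G0 E = Real.pi) :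
    |Real.pi⁻¹ * (∫ E in (-X)..X, G0 E / (1 + G1 E / G0 E ^ 2 * Q)) -
      Real.pi⁻¹ * ∫ E in (-(X - κ))..(X - κ), G0 E / (1 + G1 E / G0 E ^ 2 * Q)| ≤
    1 - Real.pi⁻¹ * ∫ E in (-(X - κ))..(X - κ), G0 E := by
  have m0 := c0.measurable
  have m1 := c1.measurable
  have hD : ∀ E, 0 ≤ G1 E / G0 E ^ 2 := fun E => div_nonneg (n1 E) (sq_nonneg _)
  obtain ⟨f, hf⟩ : ∃ f : ℝ → ℝ, f = fun E => G0 E / (1 + G1 E / G0 E ^ 2 * Q) := ⟨_, rfl⟩
  have hfm : Measurable f := by
    rw [hf]
    fun_prop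
  have f0 : ∀ E, 0 ≤ f E := by
    intro E
    rw [hf]
    have := n0 E
    have := hD E
    positivity
  have f1 : ∀ E, f E ≤ G0 E := by
    intro E
    rw [hf]
    simp only
    have := hD E
    apply div_le_self (n0 E)
    have : 0 ≤ G1 E / G0 E ^ 2 * Q := by positivity
    linarith
  have hfi : ∀ a b : ℝ, IntervalIntegrable f volume a b := by
    intro a b
    rw [intervalIntegrable_iff]
    have h1 := (c0.intervalIntegrable (μ := volume) a b)
    rw [intervalIntegrable_iff] at h1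
    refine Integrable.mono' h1 hfm.aestronglyMeasurable (Filter.Eventually.of_forall fun E => ?_)
    rw [Real.norm_of_nonneg (f0 E)]
    exact f1 E
  have split : ∀ g : ℝ → ℝ, (∀ a b : ℝ, IntervalIntegrable g volume a b) →
      (∫ E in (-X)..X, g E) - ∫ E in (-(X - κ))..(X - κ), g E =
        (∫ E in (-X)..(-(X - κ)), g E) + ∫ E in (X - κ)..X, g E := by
    intro g hg
    rw [← intervalIntegral.integral_add_adjacent_intervals (hg (-X) (-(X - κ))) (hg _ _),
      ← intervalIntegral.integral_add_adjacent_intervals (hg (-(X - κ)) (X - κ)) (hg _ X)]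
    ring
  have hfs : (fun E => G0 E / (1 + G1 E / G0 E ^ 2 * Q)) = f := hf.symm
  have hff : ∀ a b : ℝ, ∫ E in a..b, G0 E / (1 + G1 E / G0 E ^ 2 * Q) = ∫ E in a..b, f E := by
    intro a b
    rw [hf]
  rw [hff, hff, ← mul_sub, split f hfi, abs_mul, abs_of_pos (inv_pos.2 Real.pi_pos)]
  have h0 := split G0 fun a b => c0.intervalIntegrable a b
  have e1 : 1 - Real.pi⁻¹ * (∫ E in (-(X - κ))..(X - κ), G0 E) =
      Real.pi⁻¹ * ((∫ E in (-X)..(-(X - κ)), G0 E) + ∫ E in (X - κ)..X, G0 E) := by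
    rw [← h0, hm, mul_sub, inv_mul_cancel₀ Real.pi_ne_zero]
  rw [e1]
  apply mul_le_mul_of_nonneg_left _ (inv_pos.2 Real.pi_pos).le
  have a1 : 0 ≤ ∫ E in (-X)..(-(X - κ)), f E :=
    intervalIntegral.integral_nonneg (by linarith) fun E _ => f0 E
  have a2 : 0 ≤ ∫ E in (X - κ)..X, f E :=
    intervalIntegral.integral_nonneg (by linarith) fun E _ => f0 E
  rw [abs_of_nonneg (by linarith)]
  apply add_le_add
  · exact intervalIntegral.integral_mono_on (by linarith) (hfi _ _) (c0.intervalIntegrable _ _)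
      fun E _ => f1 E
  · exact intervalIntegral.integral_mono_on (by linarith) (hfi _ _) (c0.intervalIntegrable _ _)
      fun E _ => f1 E

end

end Pool.Agent.Q218.AD
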