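import Pool.Agent.TH794.QD.Evo

/-! The coefficients of the evolution with respect to an eigenfunction. -/

set_option autoImplicit false
set_option linter.unusedSectionVars false

open scoped BigOperators Topology
open MeasureTheory Filter Set

namespace Pool.Agent.Q218.AD

open Pool.Agent.W788.LD.Spec (S)
open Pool.Agent.H4R2.LO (Zd)
open Pool.Agent.TH794.QD (Sol hmk hmk_apply Hop Hop_apply hs_sum)

variable {d : ℕ} {V : Zd d → ℝ} {a : Zd d} {ψ : ℝ → Zd d → ℂ}

/-- the derivative -/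
noncomputable def Dv (V : Zd d → ℝ) (ψ : ℝ → Zd d → ℂ) (s : ℝ) (x : Zd d) : ℂ :=
  -Complex.I * (-S (ψ s) x + (V x : ℂ) * ψ s x)

theorem Dv_cont (h : Sol d V a ψ) (x : Zd d) : Continuous fun s => Dv V ψ s x := by
  unfold Dv S
  have := h.cont
  fun_prop

theorem Dv_sum (h : Sol d V a ψ) (B : ℝ) (hV : ∀ x, |V x| ≤ B) : ∃ C : ℝ, 0 ≤ C ∧
    ∀ s, Summable (fun x => ‖Dv V ψ s x‖ ^ 2) ∧ ∀ F : Finset (Zd d), ∑ x ∈ F, ‖Dv V ψ s x‖ ^ 2 ≤ C := by
  have hB : 0 ≤ B := (abs_nonneg _).trans (hV 0)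
  refine ⟨‖Hop V B hB hV‖ ^ 2, by positivity, fun s => ?_⟩
  have hs := (h.norm s).summable
  have e1 : ∀ x, ‖Dv V ψ s x‖ ^ 2 = ‖Hop V B hB hV (hmk (ψ s) hs) x‖ ^ 2 := by
    intro x
    rw [Hop_apply]
    unfold Dv
    rw [norm_mul, norm_neg, Complex.norm_I, one_mul]
    rfl
  have h1 := hs_sum (Hop V B hB hV (hmk (ψ s) hs))
  simp only [e1]
  refine ⟨h1.summable, fun F => ?_⟩
  refine (h1.summable.sum_le_tsum F fun x _ => sq_nonneg _).trans ?_
  rw [h1.tsum_eq]
  have h2 := (Hop V B hB hV).le_opNorm (hmk (ψ s) hs)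
  have h3 : ‖hmk (ψ s) hs‖ = 1 := by
    have h4 := hs_sum (hmk (ψ s) hs)
    have h5 : ‖hmk (ψ s) hs‖ ^ 2 = 1 := h4.unique (h.norm s)
    exact (pow_eq_one_iff_of_nonneg (norm_nonneg _) two_ne_zero).1 h5
  rw [h3, mul_one] at h2
  exact pow_le_pow_left₀ (norm_nonneg _) h2 2

/-- the coefficient -/
noncomputable def cf (φ : Zd d → ℂ) (ψ : ℝ → Zd d → ℂ) (t : ℝ) : ℂ :=
  ∑' x, (starRingEnd ℂ) (φ x) * ψ t x

theorem cf_summ (h : Sol d V a ψ) (φ : Zd d → ℂ) (hφ : Summable fun x => ‖φ x‖ ^ 2) (t : ℝ) :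
    Summable fun x => (starRingEnd ℂ) (φ x) * ψ t x :=
  Pool.Agent.W788.LD.Spec.summ_mul φ (ψ t) hφ (h.norm t).summable

theorem cf_gen (h : Sol d V a ψ) (φ : Zd d → ℂ) (hφ : Summable fun x => ‖φ x‖ ^ 2) (E : ℝ)
    (he : ∀ x, -S φ x + (V x : ℂ) * φ x = (E : ℂ) * φ x) (B : ℝ) (hV : ∀ x, |V x| ≤ B) (s : ℝ) :
    ∑' x, (starRingEnd ℂ) (φ x) * Dv V ψ s x = -Complex.I * E * cf φ ψ s := by
  have hs := (h.norm s).summable
  obtain ⟨s1, s2, e1⟩ := Pool.Agent.W788.LD.Spec.symm φ (ψ s) hφ hs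
  have s0 := cf_summ h φ hφ s
  have s3 : Summable fun x => (starRingEnd ℂ) (φ x) * ((V x : ℂ) * ψ s x) := by
    refine Pool.Agent.W788.LD.Spec.summ_mul φ _ hφ ?_
    refine Summable.of_nonneg_of_le (fun x => sq_nonneg _) (fun x => ?_) (hs.mul_left (B ^ 2))
    rw [norm_mul, mul_pow, Complex.norm_real, Real.norm_eq_abs]
    have := hV x
    gcongr
  have e2 : ∀ x, (starRingEnd ℂ) (φ x) * Dv V ψ s x = Complex.I * ((starRingEnd ℂ) (φ x) *
      S (ψ s) x) + (-Complex.I) * ((starRingEnd ℂ) (φ x) * ((V x : ℂ) * ψ s x)) := by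
    intro x
    unfold Dv
    ring
  simp only [e2]
  rw [Summable.tsum_add (s1.mul_left _) (s3.mul_left _), tsum_mul_left, tsum_mul_left, e1]
  have e3 : ∀ x, (starRingEnd ℂ) (S φ x) * ψ s x = (starRingEnd ℂ) (φ x) * ((V x : ℂ) * ψ s x) -
      E * ((starRingEnd ℂ) (φ x) * ψ s x) := by
    intro x
    have h1 : S φ x = (V x : ℂ) * φ x - E * φ x := by
      linear_combination (-1 : ℂ) * he x
    rw [h1, map_sub, map_mul, map_mul, Complex.conj_ofReal, Complex.conj_ofReal]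
    ring
  simp only [e3]
  rw [Summable.tsum_sub s3 (s0.mul_left _), tsum_mul_left]
  unfold cf
  ring

theorem cf_int (h : Sol d V a ψ) (φ : Zd d → ℂ) (hφ : Summable fun x => ‖φ x‖ ^ 2) (E : ℝ)
    (he : ∀ x, -S φ x + (V x : ℂ) * φ x = (E : ℂ) * φ x) (B : ℝ) (hV : ∀ x, |V x| ≤ B)
    (t0 t1 : ℝ) (ht : t0 ≤ t1) :
    cf φ ψ t1 - cf φ ψ t0 = ∫ s in t0..t1, -Complex.I * E * cf φ ψ s := by
  obtain ⟨C, hC, hD⟩ := Dv_sum h B hV
  rw [intervalIntegral.integral_of_le ht]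
  simp only [← cf_gen h φ hφ E he B hV]
  obtain ⟨μ, hμ⟩ : ∃ μ : Measure ℝ, μ = volume.restrict (Ioc t0 t1) := ⟨_, rfl⟩
  have hfin : IsFiniteMeasure μ := by
    rw [hμ]
    exact ⟨by simp⟩
  rw [← hμ]
  have cD := Dv_cont h
  have bD : ∀ x s, ‖Dv V ψ s x‖ ^ 2 ≤ C := fun x s => by
    have := (hD s).2 {x}
    rwa [Finset.sum_singleton] at this
  have i2 : ∀ x, Integrable (fun s => ‖Dv V ψ s x‖ ^ 2) μ := fun x =>
    Integrable.mono' (integrable_const C) ((cD x).norm.pow 2).aestronglyMeasurable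
      (Filter.Eventually.of_forall fun s => by
        rw [norm_pow, norm_norm]
        exact bD x s)
  have i1 : ∀ x, Integrable (fun s => (starRingEnd ℂ) (φ x) * Dv V ψ s x) μ := fun x => by
    refine Integrable.const_mul ?_ _
    rw [hμ, ← IntegrableOn, ← intervalIntegrable_iff_integrableOn_Ioc_of_le ht]
    exact (cD x).intervalIntegrable _ _
  have hsm : Summable fun x => ∫ s, ‖(starRingEnd ℂ) (φ x) * Dv V ψ s x‖ ∂μ := by
    have h1 : Summable fun x => μ.real univ * ‖φ x‖ ^ 2 + ∫ s, ‖Dv V ψ s x‖ ^ 2 ∂μ := by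
      refine (hφ.mul_left _).add ?_
      refine summable_of_sum_le (c := μ.real univ * C) (fun x => integral_nonneg fun s => sq_nonneg _)
        fun F => ?_
      rw [← integral_finsetSum _ fun x _ => i2 x]
      refine (integral_mono (integrable_finsetSum _ fun x _ => i2 x) (integrable_const C)
        fun s => (hD s).2 F).trans (le_of_eq ?_)
      rw [integral_const, smul_eq_mul]
    refine Summable.of_nonneg_of_le (fun x => integral_nonneg fun s => norm_nonneg _)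
      (fun x => ?_) h1
    have h2 : ∫ s, ‖(starRingEnd ℂ) (φ x) * Dv V ψ s x‖ ∂μ ≤
        ∫ s, (‖φ x‖ ^ 2 + ‖Dv V ψ s x‖ ^ 2) ∂μ := by
      refine integral_mono (i1 x).norm ((integrable_const _).add (i2 x)) fun s => ?_
      simp only
      rw [norm_mul, Complex.norm_conj]
      nlinarith [sq_nonneg (‖φ x‖ - ‖Dv V ψ s x‖), sq_nonneg (‖φ x‖), sq_nonneg ‖Dv V ψ s x‖]
    refine h2.trans (le_of_eq ?_)
    rw [integral_add (integrable_const _) (i2 x), integral_const, smul_eq_mul]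
  have key := hasSum_integral_of_summable_integral_norm i1 hsm
  rw [← key.tsum_eq]
  unfold cf
  rw [← Summable.tsum_sub (cf_summ h φ hφ t1) (cf_summ h φ hφ t0)]
  refine tsum_congr fun x => ?_
  have h3 : ∫ s in t0..t1, Dv V ψ s x = ψ t1 x - ψ t0 x :=
    intervalIntegral.integral_eq_sub_of_hasDerivAt (f := fun s => ψ s x) (fun s _ => h.ode s x)
      ((cD x).intervalIntegrable _ _)
  rw [hμ, integral_const_mul, ← intervalIntegral.integral_of_le ht, h3]
  ring

/-- **the coefficients with respect to an eigenfunction** -/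
theorem cf_eq (h : Sol d V a ψ) (φ : Zd d → ℂ) (hφ : Summable fun x => ‖φ x‖ ^ 2) (E : ℝ)
    (he : ∀ x, -S φ x + (V x : ℂ) * φ x = (E : ℂ) * φ x) (B : ℝ) (hV : ∀ x, |V x| ≤ B) (t : ℝ) :
    cf φ ψ t = Complex.exp (-Complex.I * E * t) * (starRingEnd ℂ) (φ a) := by
  have hint : ∀ t, cf φ ψ t = cf φ ψ 0 + ∫ s in (0 : ℝ)..t, -Complex.I * E * cf φ ψ s := by
    intro t
    rcases le_total 0 t with h0 | h0
    · rw [← cf_int h φ hφ E he B hV 0 t h0]
      ring
    · rw [intervalIntegral.integral_symm, ← cf_int h φ hφ E he B hV t 0 h0]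
      ring
  have hm : Measurable (cf φ ψ) := by
    unfold cf
    refine Measurable.tsum fun x => ?_
    have := (h.cont x).measurable
    fun_prop
  have hb : ∃ C : ℝ, ∀ s, ‖cf φ ψ s‖ ≤ C := by
    refine ⟨(∑' x, ‖φ x‖ ^ 2) + 1, fun s => ?_⟩
    have h1 : HasSum (fun x => ‖φ x‖ ^ 2 + ‖ψ s x‖ ^ 2) ((∑' x, ‖φ x‖ ^ 2) + 1) :=
      hφ.hasSum.add (h.norm s)
    unfold cf
    refine tsum_of_norm_bounded h1 fun x => ?_
    rw [norm_mul, Complex.norm_conj]
    nlinarith [sq_nonneg (‖φ x‖ - ‖ψ s x‖), sq_nonneg (‖φ x‖), sq_nonneg ‖ψ s x‖]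
  obtain ⟨C, hC⟩ := hb
  have hii : ∀ a b : ℝ, IntervalIntegrable (fun s => -Complex.I * E * cf φ ψ s) volume a b := by
    intro a b
    refine IntervalIntegrable.const_mul ?_ _
    rw [intervalIntegrable_iff]
    exact Integrable.mono' (integrableOn_const (by simp)) hm.aestronglyMeasurable
      (Filter.Eventually.of_forall hC)
  have hcont : Continuous (cf φ ψ) := by
    have h1 : Continuous fun t => cf φ ψ 0 + ∫ s in (0 : ℝ)..t, -Complex.I * E * cf φ ψ s :=
      continuous_const.add (intervalIntegral.continuous_primitive hii 0)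
    exact (funext hint : cf φ ψ = _) ▸ h1
  have hder : ∀ t, HasDerivAt (cf φ ψ) (-Complex.I * E * cf φ ψ t) t := by
    intro t
    have hc2 : Continuous fun s => -Complex.I * E * cf φ ψ s := by fun_prop
    have h1 := (intervalIntegral.integral_hasDerivAt_right (hii 0 t)
      hc2.aestronglyMeasurable.stronglyMeasurableAtFilter hc2.continuousAt).const_add (cf φ ψ 0)
    exact h1.congr_of_eventuallyEq (Filter.Eventually.of_forall hint)
  have hk : ∀ t : ℝ, HasDerivAt (fun t : ℝ => Complex.exp (Complex.I * E * t) * cf φ ψ t) 0 t := by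
    intro t
    have h1 : HasDerivAt (fun t : ℝ => Complex.I * E * (t : ℂ)) (Complex.I * E * 1) t :=
      (Complex.ofRealCLM.hasDerivAt (x := t)).const_mul _
    have h2 := h1.cexp.mul (hder t)
    refine h2.congr_deriv ?_
    ring
  have h1 : Complex.exp (Complex.I * E * t) * cf φ ψ t =
      Complex.exp (Complex.I * E * (0 : ℝ)) * cf φ ψ 0 :=
    is_const_of_deriv_eq_zero (fun s => (hk s).differentiableAt) (fun s => (hk s).deriv) t 0
  rw [Complex.ofReal_zero, mul_zero, Complex.exp_zero, one_mul] at h1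
  have h2 : cf φ ψ 0 = (starRingEnd ℂ) (φ a) := by
    unfold cf
    rw [tsum_eq_single a]
    · rw [h.init, if_pos rfl, mul_one]
    · intro x hx
      rw [h.init, if_neg hx, mul_zero]
  rw [← h2, ← h1, ← mul_assoc, ← Complex.exp_add]
  have : -Complex.I * E * t + Complex.I * E * t = 0 := by ring
  rw [this, Complex.exp_zero, one_mul]

end Pool.Agent.Q218.AD
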