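import Pool.Agent.Q218.AD.Main

/-! The mass of a slab in terms of the characteristic function. -/

set_option autoImplicit false
set_option linter.unusedSectionVars false

open scoped BigOperators Topology
open MeasureTheory Filter Set

namespace Pool.Agent.Q218.AD

open Pool.Agent.H4R2.LO (Zd)
open Pool.Agent.TH794.QD (Sol)

variable {d : ℕ} {V : Zd d → ℝ} {a : Zd d} {ψ : ℝ → Zd d → ℂ}

/-- the lower bound of the Fejér kernel -/
theorem fejer_low (N : ℕ) (θ : ℝ) (h : |θ| * N ≤ 1) :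
    (N : ℝ) ^ 2 / 4 ≤ ‖∑ k ∈ Finset.range N, Complex.exp (Complex.I * ((k * θ : ℝ) : ℂ))‖ ^ 2 := by
  have h1 : (N : ℝ) / 2 ≤ (∑ k ∈ Finset.range N, Complex.exp (Complex.I * ((k * θ : ℝ) : ℂ))).re := by
    rw [Complex.re_sum]
    have h2 : ∀ k ∈ Finset.range N, (1 / 2 : ℝ) ≤
        (Complex.exp (Complex.I * ((k * θ : ℝ) : ℂ))).re := by
      intro k hk
      rw [mul_comm, Complex.exp_ofReal_mul_I_re]
      have h3 : (k : ℝ) ≤ N := by
        have := Finset.mem_range.1 hk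
        exact_mod_cast this.le
      have h4 : |k * θ| ≤ 1 := by
        rw [abs_mul, Nat.abs_cast]
        nlinarith [abs_nonneg θ]
      have h5 := Real.one_sub_sq_div_two_le_cos (x := k * θ)
      have h6 : (k * θ) ^ 2 ≤ 1 := by
        rw [← sq_abs]
        exact pow_le_one₀ (abs_nonneg _) h4
      linarith
    refine le_trans (le_of_eq ?_) (Finset.sum_le_sum h2)
    rw [Finset.sum_const, Finset.card_range, nsmul_eq_mul]
    ring
  have h2 := (Complex.re_le_norm _).trans' h1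
  have h3 : (0 : ℝ) ≤ (N : ℝ) / 2 := by positivity
  calc (N : ℝ) ^ 2 / 4 = ((N : ℝ) / 2) ^ 2 := by ring
    _ ≤ _ := pow_le_pow_left₀ h3 h2 2

theorem fejer_sq (N : ℕ) (θ : ℝ) :
    ((‖∑ k ∈ Finset.range N, Complex.exp (Complex.I * ((k * θ : ℝ) : ℂ))‖ ^ 2 : ℝ) : ℂ) =
    ∑ k ∈ Finset.range N, ∑ l ∈ Finset.range N,
      Complex.exp (Complex.I * ((((k : ℝ) - l) * θ : ℝ) : ℂ)) := by
  rw [← Complex.normSq_eq_norm_sq, Complex.normSq_eq_conj_mul_self, map_sum,
    Finset.sum_comm, Finset.sum_mul_sum]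
  refine Finset.sum_congr rfl fun k _ => Finset.sum_congr rfl fun l _ => ?_
  rw [← Complex.exp_conj, ← Complex.exp_add]
  congr 1
  simp only [map_mul, Complex.conj_I, Complex.conj_ofReal]
  push_cast
  ring

/-- the mass of a set -/
noncomputable def ms1 (ψ : ℝ → Zd d → ℂ) (A : Set (Zd d)) (t : ℝ) : ℝ :=
  ∑' x, A.indicator (fun x => ‖ψ t x‖ ^ 2) x

theorem ms1_summ (h : Sol d V a ψ) (A : Set (Zd d)) (t : ℝ) :
    Summable fun x => A.indicator (fun x => ‖ψ t x‖ ^ 2) x :=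
  (h.norm t).summable.indicator A

theorem ms1_bd (h : Sol d V a ψ) (A : Set (Zd d)) (t : ℝ) : 0 ≤ ms1 ψ A t ∧ ms1 ψ A t ≤ 1 := by
  unfold ms1
  refine ⟨tsum_nonneg fun x => Set.indicator_nonneg (fun _ _ => sq_nonneg _) _, ?_⟩
  rw [← (h.norm t).tsum_eq]
  exact (ms1_summ h A t).tsum_le_tsum (fun x => Set.indicator_le_self' (fun _ _ => sq_nonneg _) x)
    (h.norm t).summable

theorem ms1_meas (h : Sol d V a ψ) (A : Set (Zd d)) : Measurable (ms1 ψ A) := by
  unfold ms1
  refine Measurable.tsum fun x => ?_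
  by_cases hx : x ∈ A
  · simp only [Set.indicator_of_mem hx]
    have := (h.cont x).measurable
    fun_prop
  · simp only [Set.indicator_of_notMem hx]
    exact measurable_const

/-- **the mass of a slab** -/
theorem slab (h : Sol d V a ψ) {T : ℝ} (N : ℕ) (hN : 1 ≤ N) (θ : Zd d → ℝ) {ε : ℝ} (hε : 0 ≤ ε)
    (hyp : ∀ k ∈ Finset.range N, ∀ l ∈ Finset.range N, k ≠ l →
      ‖∫ s in Ioc (1 : ℝ) 2, Phi ψ (fun x => Complex.exp (Complex.I *
        ((((k : ℝ) - l) * θ x : ℝ) : ℂ))) (s * T)‖ ≤ ε) :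
    ∫ s in Ioc (1 : ℝ) 2, ms1 ψ {x | |θ x| * N ≤ 1} (s * T) ≤ 4 / N + 4 * ε := by
  have hN0 : (0 : ℝ) < N := by exact_mod_cast hN
  obtain ⟨A, hA⟩ : ∃ A : Set (Zd d), A = {x | |θ x| * N ≤ 1} := ⟨_, rfl⟩
  rw [← hA]
  obtain ⟨c, hc⟩ : ∃ c : ℕ → ℕ → Zd d → ℂ, c = fun (k l : ℕ) (x : Zd d) =>
    Complex.exp (Complex.I * ((((k : ℝ) - l) * θ x : ℝ) : ℂ)) := ⟨_, rfl⟩
  have hc1 : ∀ k l x, ‖c k l x‖ ≤ 1 := by
    intro k l x
    rw [hc]
    simp only
    rw [mul_comm, Complex.norm_exp_ofReal_mul_I]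
  have hyp' : ∀ k ∈ Finset.range N, ∀ l ∈ Finset.range N, k ≠ l →
      ‖∫ s in Ioc (1 : ℝ) 2, Phi ψ (c k l) (s * T)‖ ≤ ε := by
    intro k hk l hl hkl
    rw [hc]
    exact hyp k hk l hl hkl
  have pt : ∀ t, ms1 ψ A t * ((N : ℝ) ^ 2 / 4) ≤
      (∑ k ∈ Finset.range N, ∑ l ∈ Finset.range N, Phi ψ (c k l) t).re := by
    intro t
    have hsum := (h.norm t).summable
    have hs2 : ∀ k l, Summable fun x => c k l x * ((‖ψ t x‖ ^ 2 : ℝ) : ℂ) := by
      intro k l
      refine Summable.of_norm_bounded (g := fun x => ‖ψ t x‖ ^ 2) hsum fun x => ?_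
      rw [norm_mul, Complex.norm_real, Real.norm_of_nonneg (sq_nonneg _)]
      exact mul_le_of_le_one_left (sq_nonneg _) (hc1 k l x)
    have e1 : ∑ k ∈ Finset.range N, ∑ l ∈ Finset.range N, Phi ψ (c k l) t =
        ∑' x, ((‖∑ k ∈ Finset.range N, Complex.exp (Complex.I * ((k * θ x : ℝ) : ℂ))‖ ^ 2 *
          ‖ψ t x‖ ^ 2 : ℝ) : ℂ) := by
      unfold Phi
      have e2 : ∀ k ∈ Finset.range N, ∑ l ∈ Finset.range N, ∑' x, c k l x *
          ((‖ψ t x‖ ^ 2 : ℝ) : ℂ) = ∑' x, ∑ l ∈ Finset.range N, c k l x *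
          ((‖ψ t x‖ ^ 2 : ℝ) : ℂ) := fun k _ =>
        (Summable.tsum_finsetSum fun l _ => hs2 k l).symm
      rw [Finset.sum_congr rfl e2, ← Summable.tsum_finsetSum fun k _ =>
        (summable_sum fun l _ => hs2 k l)]
      refine tsum_congr fun x => ?_
      rw [Complex.ofReal_mul, fejer_sq, Finset.sum_mul]
      refine Finset.sum_congr rfl fun k _ => ?_
      rw [Finset.sum_mul, hc]
    rw [e1, ← Complex.ofReal_tsum, Complex.ofReal_re]
    unfold ms1
    rw [← tsum_mul_right]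
    have s3 : Summable fun x => ‖∑ k ∈ Finset.range N,
        Complex.exp (Complex.I * ((k * θ x : ℝ) : ℂ))‖ ^ 2 * ‖ψ t x‖ ^ 2 := by
      refine Summable.of_nonneg_of_le (fun x => by positivity) (fun x => ?_)
        (hsum.mul_left ((N : ℝ) ^ 2))
      refine mul_le_mul_of_nonneg_right ?_ (sq_nonneg _)
      refine pow_le_pow_left₀ (norm_nonneg _) ?_ 2
      refine (norm_sum_le _ _).trans (le_of_eq ?_)
      have : ∀ k ∈ Finset.range N, ‖Complex.exp (Complex.I * ((k * θ x : ℝ) : ℂ))‖ = 1 := by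
        intro k _
        rw [mul_comm, Complex.norm_exp_ofReal_mul_I]
      rw [Finset.sum_congr rfl this, Finset.sum_const, Finset.card_range, nsmul_eq_mul, mul_one]
    refine Summable.tsum_le_tsum (fun x => ?_) ((ms1_summ h A t).mul_right _) s3
    by_cases hx : x ∈ A
    · rw [Set.indicator_of_mem hx, mul_comm]
      refine mul_le_mul_of_nonneg_right (fejer_low N _ ?_) (sq_nonneg _)
      rw [hA] at hx
      exact hx
    · rw [Set.indicator_of_notMem hx, zero_mul]
      positivity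
  obtain ⟨μ, hμ⟩ : ∃ μ : Measure ℝ, μ = volume.restrict (Ioc (1 : ℝ) 2) := ⟨_, rfl⟩
  have hfin : IsFiniteMeasure μ := by
    rw [hμ]
    exact ⟨by simp⟩
  have hμ1 : μ.real univ = 1 := by
    rw [hμ, measureReal_restrict_apply_univ, Real.volume_real_Ioc_of_le (by norm_num)]
    norm_num
  rw [← hμ] at hyp' ⊢
  have iP : ∀ k l, Integrable (fun s => Phi ψ (c k l) (s * T)) μ := fun k l =>
    Integrable.mono' (integrable_const 1)
      ((phi_meas h (c k l)).comp (by fun_prop : Measurable fun s : ℝ => s * T)).aestronglyMeasurable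
      (Filter.Eventually.of_forall fun s => phi_le h (c k l) (hc1 k l) _)
  have iS : Integrable (fun s => ∑ k ∈ Finset.range N, ∑ l ∈ Finset.range N,
      Phi ψ (c k l) (s * T)) μ :=
    integrable_finsetSum _ fun k _ => integrable_finsetSum _ fun l _ => iP k l
  have iM : Integrable (fun s => ms1 ψ A (s * T)) μ :=
    Integrable.mono' (integrable_const 1)
      ((ms1_meas h A).comp (by fun_prop : Measurable fun s : ℝ => s * T)).aestronglyMeasurable
      (Filter.Eventually.of_forall fun s => by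
        rw [Real.norm_of_nonneg (ms1_bd h A _).1]
        exact (ms1_bd h A _).2)
  have h1 : (∫ s, ms1 ψ A (s * T) ∂μ) * ((N : ℝ) ^ 2 / 4) ≤
      (∫ s, ∑ k ∈ Finset.range N, ∑ l ∈ Finset.range N, Phi ψ (c k l) (s * T) ∂μ).re := by
    rw [← integral_mul_const]
    have e3 : (∫ s, ∑ k ∈ Finset.range N, ∑ l ∈ Finset.range N, Phi ψ (c k l) (s * T) ∂μ).re =
        ∫ s, (∑ k ∈ Finset.range N, ∑ l ∈ Finset.range N, Phi ψ (c k l) (s * T)).re ∂μ :=
      (integral_re iS).symm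
    rw [e3]
    exact integral_mono (iM.mul_const _) iS.re fun s => pt (s * T)
  have h2 : (∫ s, ∑ k ∈ Finset.range N, ∑ l ∈ Finset.range N, Phi ψ (c k l) (s * T) ∂μ).re ≤
      N + (N : ℝ) ^ 2 * ε := by
    refine (Complex.re_le_norm _).trans ?_
    rw [integral_finsetSum _ fun k _ => integrable_finsetSum _ fun l _ => iP k l]
    have h3 : ∀ k ∈ Finset.range N, ‖∫ s, ∑ l ∈ Finset.range N, Phi ψ (c k l) (s * T) ∂μ‖ ≤
        1 + N * ε := by
      intro k hk
      rw [integral_finsetSum _ fun l _ => iP k l]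
      refine (norm_sum_le _ _).trans ?_
      have h4 : ∀ l ∈ Finset.range N, ‖∫ s, Phi ψ (c k l) (s * T) ∂μ‖ ≤
          (if l = k then 1 else 0) + (if l = k then 0 else ε) := by
        intro l hl
        by_cases hlk : l = k
        · rw [if_pos hlk, if_pos hlk, add_zero]
          refine (norm_integral_le_of_norm_le_const (C := 1)
            (Filter.Eventually.of_forall fun s => phi_le h (c k l) (hc1 k l) _)).trans ?_
          rw [hμ1, mul_one]
        · rw [if_neg hlk, if_neg hlk, zero_add]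
          exact hyp' k hk l hl fun e => hlk e.symm
      refine (Finset.sum_le_sum h4).trans ?_
      rw [Finset.sum_add_distrib, Finset.sum_ite_eq' (Finset.range N) k fun _ => (1 : ℝ), if_pos hk]
      have h5 : ∑ l ∈ Finset.range N, (if l = k then (0 : ℝ) else ε) ≤ N * ε := by
        calc ∑ l ∈ Finset.range N, (if l = k then (0 : ℝ) else ε) ≤
              ∑ _l ∈ Finset.range N, ε := Finset.sum_le_sum fun l _ => by split_ifs <;> linarith
          _ = _ := by rw [Finset.sum_const, Finset.card_range, nsmul_eq_mul]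
      linarith
    refine (norm_sum_le _ _).trans ((Finset.sum_le_sum h3).trans (le_of_eq ?_))
    rw [Finset.sum_const, Finset.card_range, nsmul_eq_mul]
    ring
  have h3 := h1.trans h2
  have h4 : (∫ s, ms1 ψ A (s * T) ∂μ) ≤ (N + (N : ℝ) ^ 2 * ε) / ((N : ℝ) ^ 2 / 4) := by
    rw [le_div_iff₀ (by positivity)]
    exact h3
  refine h4.trans (le_of_eq ?_)
  field_simp

end Pool.Agent.Q218.AD
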