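import Pool.Agent.Q218.AD.Loc1
import Pool.Agent.Q218.AD.Loc2

/-! Families of eigenfunctions which are concentrated in a finite set. -/

set_option autoImplicit false
set_option linter.unusedSectionVars false

open scoped BigOperators Topology InnerProductSpace
open MeasureTheory Filter Set

namespace Pool.Agent.Q218.AD

open Pool.Agent.W788.LD.Spec (S)
open Pool.Agent.H4R2.LO (Zd)
open Pool.Agent.TH794.QD (Sol HS hmk hmk_apply hs_sum)

variable {d : ℕ} {V : Zd d → ℝ} {a : Zd d} {ψ : ℝ → Zd d → ℂ}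

theorem hs_inner (u v : HS d) : HasSum (fun x => (starRingEnd ℂ) (u x) * v x) ⟪u, v⟫_ℂ := by
  have h := lp.hasSum_inner (𝕜 := ℂ) u v
  refine h.congr_fun fun x => ?_
  rw [RCLike.inner_apply]
  ring

theorem apply_eq (u : HS d) (x : Zd d) : u x = ⟪(lp.single 2 x (1 : ℂ) : HS d), u⟫_ℂ := by
  rw [lp.inner_single_left, RCLike.inner_apply, map_one, mul_one]

/-- Bessel's inequality at a site -/
theorem bess {ι : Type*} (f : ι → HS d) (hf : Orthonormal ℂ f) (s : Finset ι) (x : Zd d) :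
    ∑ j ∈ s, ‖f j x‖ ^ 2 ≤ 1 := by
  have h := hf.sum_inner_products_le (lp.single 2 x (1 : ℂ) : HS d) (s := s)
  have h1 : ‖(lp.single 2 x (1 : ℂ) : HS d)‖ = 1 := by
    rw [lp.norm_single (by norm_num), norm_one]
  rw [h1, one_pow] at h
  refine le_trans (le_of_eq (Finset.sum_congr rfl fun j _ => ?_)) h
  rw [apply_eq (f j) x, norm_inner_symm]

/-- **families of eigenfunctions which are concentrated in a set** -/
theorem fam (h : Sol d V a ψ) (B : ℝ) (hV : ∀ x, |V x| ≤ B) {ι : Type*} (f : ι → HS d)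
    (hf : Orthonormal ℂ f) (E : ι → ℝ)
    (he : ∀ j x, -S (fun y => f j y) x + (V x : ℂ) * f j x = (E j : ℂ) * f j x)
    (A : Set (Zd d)) (δ σ : ℝ) (hσ : 0 < σ) (s : Finset ι)
    (hout : ∀ j ∈ s, ∑' x, Aᶜ.indicator (fun x => ‖f j x‖ ^ 2) x ≤ δ) (t : ℝ) :
    ∑ j ∈ s, ‖f j a‖ ^ 2 ≤ ms1 ψ A t + σ * (s.card * δ) + σ⁻¹ := by
  have hs := (h.norm t).summable
  obtain ⟨P, hP⟩ : ∃ P : HS d, P = hmk (ψ t) hs := ⟨_, rfl⟩
  have hPx : ∀ x, P x = ψ t x := fun x => by rw [hP]; rfl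
  have hP1 : ‖P‖ ^ 2 = 1 := by
    have h4 := hs_sum P
    simp only [hPx] at h4
    exact h4.unique (h.norm t)
  obtain ⟨c, hc⟩ : ∃ c : ι → ℂ, c = fun j => ⟪f j, P⟫_ℂ := ⟨_, rfl⟩
  have hcn : ∀ j, ‖c j‖ = ‖f j a‖ := by
    intro j
    have h1 := cf_eq h (fun x => f j x) (hs_sum (f j)).summable (E j) (he j) B hV t
    have h2 : cf (fun x => f j x) ψ t = c j := by
      unfold cf
      rw [hc]
      simp only
      rw [← (hs_inner (f j) P).tsum_eq]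
      exact tsum_congr fun x => by rw [hPx]
    rw [← h2, h1, norm_mul, Complex.norm_conj]
    have h3 : -Complex.I * (E j : ℂ) * (t : ℂ) = ((-(E j * t) : ℝ) : ℂ) * Complex.I := by
      push_cast
      ring
    rw [h3, Complex.norm_exp_ofReal_mul_I, one_mul]
  obtain ⟨p, hp⟩ : ∃ p, p = ∑ j ∈ s, ‖f j a‖ ^ 2 := ⟨_, rfl⟩
  have hpc : ∑ j ∈ s, ‖c j‖ ^ 2 = p := by
    rw [hp]
    exact Finset.sum_congr rfl fun j _ => by rw [hcn]
  have hp0 : 0 ≤ p := by rw [hp]; positivity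
  have hp1 : p ≤ 1 := by rw [hp]; exact bess f hf s a
  obtain ⟨w, hw⟩ : ∃ w : HS d, w = ∑ j ∈ s, c j • f j := ⟨_, rfl⟩
  have hwP : ⟪w, P⟫_ℂ = ((p : ℝ) : ℂ) := by
    rw [hw, sum_inner, ← hpc, Complex.ofReal_sum]
    refine Finset.sum_congr rfl fun j _ => ?_
    rw [inner_smul_left]
    have : ⟪f j, P⟫_ℂ = c j := by rw [hc]
    rw [this, Complex.conj_mul', Complex.ofReal_pow]
  have hww : ‖w‖ ^ 2 = p := by
    have h1 : ⟪w, w⟫_ℂ = ((p : ℝ) : ℂ) := by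
      rw [hw, hf.inner_sum, ← hpc, Complex.ofReal_sum]
      refine Finset.sum_congr rfl fun j _ => ?_
      rw [Complex.conj_mul', Complex.ofReal_pow]
    rw [inner_self_eq_norm_sq_to_K] at h1
    apply Complex.ofReal_injective
    rw [← h1]
    push_cast
    rfl
  have hwx : ∀ x, w x = ∑ j ∈ s, c j * f j x := by
    intro x
    rw [apply_eq w x, hw, inner_sum]
    refine Finset.sum_congr rfl fun j _ => ?_
    rw [inner_smul_right, ← apply_eq]
  have hwo : ∀ x, ‖w x‖ ^ 2 ≤ p * ∑ j ∈ s, ‖f j x‖ ^ 2 := by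
    intro x
    rw [hwx, ← hpc]
    refine (pow_le_pow_left₀ (norm_nonneg _) (norm_sum_le _ _) 2).trans ?_
    simp only [norm_mul]
    exact Finset.sum_mul_sq_le_sq_mul_sq s _ _
  -- the sums
  have sA := ms1_summ h A t
  have sw := hs_sum w
  have sIn : Summable fun x => A.indicator (fun x => ‖w x‖ ^ 2) x := sw.summable.indicator A
  have sOut : Summable fun x => Aᶜ.indicator (fun x => ‖w x‖ ^ 2) x := sw.summable.indicator Aᶜ
  have sOj : ∀ j, Summable fun x => Aᶜ.indicator (fun x => ‖f j x‖ ^ 2) x := fun j =>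
    (hs_sum (f j)).summable.indicator Aᶜ
  have bIn : ∑' x, A.indicator (fun x => ‖w x‖ ^ 2) x ≤ p := by
    rw [← hww, ← sw.tsum_eq]
    exact sIn.tsum_le_tsum (fun x => Set.indicator_le_self' (fun _ _ => sq_nonneg _) x) sw.summable
  have bOut : ∑' x, Aᶜ.indicator (fun x => ‖w x‖ ^ 2) x ≤ s.card * δ := by
    have h1 : ∑' x, ∑ j ∈ s, Aᶜ.indicator (fun x => ‖f j x‖ ^ 2) x ≤ s.card * δ := by
      rw [Summable.tsum_finsetSum fun j _ => sOj j]
      refine (Finset.sum_le_sum hout).trans (le_of_eq ?_)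
      rw [Finset.sum_const, nsmul_eq_mul]
    refine le_trans (Summable.tsum_le_tsum (fun x => ?_) sOut (summable_sum fun j _ => sOj j)) h1
    by_cases hx : x ∈ Aᶜ
    · simp only [Set.indicator_of_mem hx]
      refine (hwo x).trans ?_
      exact mul_le_of_le_one_left (Finset.sum_nonneg fun j _ => sq_nonneg _) hp1
    · simp only [Set.indicator_of_notMem hx, Finset.sum_const_zero, le_refl]
  have sB : HasSum (fun x => Aᶜ.indicator (fun x => ‖ψ t x‖ ^ 2) x)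
      (∑' x, Aᶜ.indicator (fun x => ‖ψ t x‖ ^ 2) x) := (hs.indicator Aᶜ).hasSum
  have bB : ∑' x, Aᶜ.indicator (fun x => ‖ψ t x‖ ^ 2) x ≤ 1 := (ms1_bd h Aᶜ t).2
  have hpt : ∀ x, ‖(starRingEnd ℂ) (w x) * P x‖ ≤
      (1 / 2 * A.indicator (fun x => ‖w x‖ ^ 2) x + 1 / 2 * A.indicator (fun x => ‖ψ t x‖ ^ 2) x) +
      (σ / 2 * Aᶜ.indicator (fun x => ‖w x‖ ^ 2) x +
        σ⁻¹ / 2 * Aᶜ.indicator (fun x => ‖ψ t x‖ ^ 2) x) := by
    intro x
    rw [norm_mul, Complex.norm_conj, hPx]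
    by_cases hx : x ∈ A
    · have hx' : x ∉ Aᶜ := fun h => h hx
      rw [Set.indicator_of_mem hx, Set.indicator_of_mem hx, Set.indicator_of_notMem hx',
        Set.indicator_of_notMem hx']
      nlinarith [sq_nonneg (‖w x‖ - ‖ψ t x‖)]
    · have hx' : x ∈ Aᶜ := hx
      rw [Set.indicator_of_notMem hx, Set.indicator_of_notMem hx, Set.indicator_of_mem hx',
        Set.indicator_of_mem hx']
      have h1 : 0 ≤ σ⁻¹ * (σ * ‖w x‖ - ‖ψ t x‖) ^ 2 := by positivity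
      have h2 : σ⁻¹ * (σ * ‖w x‖ - ‖ψ t x‖) ^ 2 = σ * ‖w x‖ ^ 2 - 2 * (‖w x‖ * ‖ψ t x‖) +
          σ⁻¹ * ‖ψ t x‖ ^ 2 := by
        field_simp
        ring
      linarith
  have hmaj : HasSum (fun x => (1 / 2 * A.indicator (fun x => ‖w x‖ ^ 2) x +
      1 / 2 * A.indicator (fun x => ‖ψ t x‖ ^ 2) x) +
      (σ / 2 * Aᶜ.indicator (fun x => ‖w x‖ ^ 2) x +
        σ⁻¹ / 2 * Aᶜ.indicator (fun x => ‖ψ t x‖ ^ 2) x))
      ((1 / 2 * (∑' x, A.indicator (fun x => ‖w x‖ ^ 2) x) + 1 / 2 * ms1 ψ A t) +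
      (σ / 2 * (∑' x, Aᶜ.indicator (fun x => ‖w x‖ ^ 2) x) +
        σ⁻¹ / 2 * ∑' x, Aᶜ.indicator (fun x => ‖ψ t x‖ ^ 2) x)) :=
    ((sIn.hasSum.mul_left _).add (sA.hasSum.mul_left _)).add
      ((sOut.hasSum.mul_left _).add (sB.mul_left _))
  have hfin := tsum_of_norm_bounded hmaj hpt
  rw [(hs_inner w P).tsum_eq, hwP, Complex.norm_real, Real.norm_of_nonneg hp0] at hfin
  rw [← hp]
  have hσ' : 0 < σ⁻¹ := inv_pos.2 hσ
  have h2 : σ / 2 * (∑' x, Aᶜ.indicator (fun x => ‖w x‖ ^ 2) x) ≤ σ / 2 * (s.card * δ) :=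
    mul_le_mul_of_nonneg_left bOut (by positivity)
  have h3 : σ⁻¹ / 2 * (∑' x, Aᶜ.indicator (fun x => ‖ψ t x‖ ^ 2) x) ≤ σ⁻¹ / 2 * 1 :=
    mul_le_mul_of_nonneg_left bB (by positivity)
  linarith

/-- the number of eigenfunctions which are concentrated in a finite set -/
theorem card_le {ι : Type*} (f : ι → HS d) (hf : Orthonormal ℂ f) (A : Finset (Zd d)) (s : Finset ι)
    (hout : ∀ j ∈ s, ∑' x, ((A : Set (Zd d))ᶜ).indicator (fun x => ‖f j x‖ ^ 2) x ≤ 1 / 2) :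
    (s.card : ℝ) ≤ 2 * A.card := by
  have h1 : ∀ j ∈ s, (1 / 2 : ℝ) ≤ ∑ x ∈ A, ‖f j x‖ ^ 2 := by
    intro j hj
    have h2 := hs_sum (f j)
    rw [hf.1 j, one_pow] at h2
    have h3 := h2.summable.sum_add_tsum_compl (s := A)
    rw [h2.tsum_eq] at h3
    have h4 : ∑' x, ((A : Set (Zd d))ᶜ).indicator (fun x => ‖f j x‖ ^ 2) x =
        ∑' x : ((A : Set (Zd d))ᶜ : Set (Zd d)), ‖f j x‖ ^ 2 := (tsum_subtype _ _).symm
    have h5 := hout j hj
    rw [h4] at h5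
    linarith
  have h2 : (s.card : ℝ) * (1 / 2) ≤ ∑ j ∈ s, ∑ x ∈ A, ‖f j x‖ ^ 2 := by
    refine le_trans (le_of_eq ?_) (Finset.sum_le_sum h1)
    rw [Finset.sum_const, nsmul_eq_mul]
  rw [Finset.sum_comm] at h2
  have h3 : ∑ x ∈ A, ∑ j ∈ s, ‖f j x‖ ^ 2 ≤ A.card := by
    refine (Finset.sum_le_sum fun x _ => bess f hf s x).trans (le_of_eq ?_)
    rw [Finset.sum_const, nsmul_eq_mul, mul_one]
  linarith

end Pool.Agent.Q218.AD
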