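import Pool.Agent.Q218.AD.Loc3
import Pool.Agent.H4R2.LO.La

/-! Families of exponentially decaying eigenfunctions. -/

set_option autoImplicit false
set_option linter.unusedSectionVars false

open scoped BigOperators Topology InnerProductSpace
open MeasureTheory Filter Set

namespace Pool.Agent.Q218.AD

open Pool.Agent.W788.LD.Spec (S)
open Pool.Agent.H4R2.LO (Zd dd bx)
open Pool.Agent.H4R2.LO.Em (dd_norm mem_bx card_bx dd_comm)
open Pool.Agent.TH794.QD (Sol HS hmk hmk_apply hs_sum)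

variable {d : ℕ} {V : Zd d → ℝ} {a : Zd d} {ψ : ℝ → Zd d → ℂ}

theorem lin_exp (d : ℕ) (hd : 1 ≤ d) (m : ℝ) (hm : 0 < m) (hm1 : m ≤ 1) (n : ℕ) :
    ((2 * n + 1 : ℕ) : ℝ) ^ d * Real.exp (-(m * n)) ≤
      (4 * d / m) ^ d * Real.exp (-(m / 2) * n) := by
  have hd0 : (1 : ℝ) ≤ d := by exact_mod_cast hd
  have hn : (0 : ℝ) ≤ n := Nat.cast_nonneg n
  have h1 : ((2 * n + 1 : ℕ) : ℝ) ≤ 4 * d / m * Real.exp (m * n / (2 * d)) := by
    have h2 : m * n / (2 * d) + 1 ≤ Real.exp (m * n / (2 * d)) := Real.add_one_le_exp _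
    have h3 : 4 * d / m * (m * n / (2 * d) + 1) ≤ 4 * d / m * Real.exp (m * n / (2 * d)) :=
      mul_le_mul_of_nonneg_left h2 (by positivity)
    have h4 : 4 * d / m * (m * n / (2 * d) + 1) = 2 * n + 4 * d / m := by
      field_simp
      ring
    have h5 : 1 ≤ 4 * d / m := by
      rw [le_div_iff₀ hm]
      linarith
    push_cast
    linarith
  have h2 : ((2 * n + 1 : ℕ) : ℝ) ^ d ≤ (4 * d / m) ^ d * Real.exp (m * n / 2) := by
    refine (pow_le_pow_left₀ (by positivity) h1 d).trans (le_of_eq ?_)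
    rw [mul_pow, ← Real.exp_nat_mul]
    congr 2
    field_simp
  calc ((2 * n + 1 : ℕ) : ℝ) ^ d * Real.exp (-(m * n)) ≤
      (4 * d / m) ^ d * Real.exp (m * n / 2) * Real.exp (-(m * n)) := by gcongr
    _ = _ := by
      rw [mul_assoc, ← Real.exp_add]
      congr 2
      ring

/-- the constant -/
noncomputable def Cw (d : ℕ) : ℝ := 3 * (4 * d) ^ d

theorem geo_bd (m : ℝ) (hm : 0 < m) (hm1 : m ≤ 1) :
    (Summable fun n : ℕ => Real.exp (-(m / 2) * n)) ∧
      ∑' n : ℕ, Real.exp (-(m / 2) * n) ≤ 3 / m := by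
  have h0 : ∀ n : ℕ, Real.exp (-(m / 2) * n) = Real.exp (-(m / 2)) ^ n := by
    intro n
    rw [← Real.exp_nat_mul]
    congr 1
    ring
  simp only [h0]
  have h1 : Real.exp (-(m / 2)) < 1 := by
    rw [Real.exp_lt_one_iff]
    linarith
  refine ⟨summable_geometric_of_lt_one (Real.exp_pos _).le h1, ?_⟩
  rw [tsum_geometric_of_lt_one (Real.exp_pos _).le h1]
  have h2 : Real.exp (-(m / 2)) ≤ 1 / (1 + m / 2) := by
    rw [Real.exp_neg, ← one_div]
    apply one_div_le_one_div_of_le (by positivity)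
    linarith [Real.add_one_le_exp (m / 2)]
  have h3 : m / 3 ≤ 1 - Real.exp (-(m / 2)) := by
    have h4 : 1 - 1 / (1 + m / 2) = m / (2 + m) := by
      field_simp
      ring
    have h5 : m / 3 ≤ m / (2 + m) := by
      apply div_le_div_of_nonneg_left hm.le (by linarith) (by linarith)
    linarith
  rw [inv_le_comm₀ (by linarith) (by positivity)]
  rw [inv_div]
  exact h3

theorem W_bd (hd : 1 ≤ d) (m : ℝ) (hm : 0 < m) (hm1 : m ≤ 1) (F : Finset (Zd d)) :
    ∑ x ∈ F, Real.exp (-(m * ‖x‖)) ≤ Cw d / m ^ (d + 1) := by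
  obtain ⟨g1, g2⟩ := geo_bd m hm hm1
  have hs : Summable fun n : ℕ => ((2 * n + 1 : ℕ) : ℝ) ^ d * Real.exp (-(m * n)) :=
    Summable.of_nonneg_of_le (fun n => by positivity) (fun n => lin_exp d hd m hm hm1 n)
      (g1.mul_left _)
  have hb : ∑' n : ℕ, ((2 * n + 1 : ℕ) : ℝ) ^ d * Real.exp (-(m * n)) ≤ Cw d / m ^ (d + 1) := by
    refine (hs.tsum_le_tsum (fun n => lin_exp d hd m hm hm1 n) (g1.mul_left _)).trans ?_
    rw [tsum_mul_left]
    refine (mul_le_mul_of_nonneg_left g2 (by positivity)).trans (le_of_eq ?_)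
    unfold Cw
    rw [div_pow, pow_succ]
    field_simp
  have h1 : ∑ x ∈ F, Real.exp (-(m * ‖x‖)) =
      ∑ n ∈ F.image (fun x => dd x 0), ∑ x ∈ F.filter (fun x => dd x 0 = n),
        Real.exp (-(m * ‖x‖)) := by
    rw [Finset.sum_fiberwise_of_maps_to]
    intro x hx
    exact Finset.mem_image_of_mem _ hx
  rw [h1]
  have h2 : ∀ n ∈ F.image (fun x => dd x 0), ∑ x ∈ F.filter (fun x => dd x 0 = n),
      Real.exp (-(m * ‖x‖)) ≤ ((2 * n + 1 : ℕ) : ℝ) ^ d * Real.exp (-(m * n)) := by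
    intro n _
    have h3 : ∀ x ∈ F.filter (fun x => dd x 0 = n), Real.exp (-(m * ‖x‖)) ≤ Real.exp (-(m * n)) := by
      intro x hx
      have h4 := (Finset.mem_filter.1 hx).2
      have h5 := dd_norm x (0 : Zd d)
      rw [sub_zero, h4] at h5
      rw [← h5]
    refine (Finset.sum_le_card_nsmul _ _ _ h3).trans ?_
    rw [nsmul_eq_mul]
    refine mul_le_mul_of_nonneg_right ?_ (Real.exp_pos _).le
    have h6 : (F.filter (fun x => dd x 0 = n)).card ≤ (bx (0 : Zd d) n).card := by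
      apply Finset.card_le_card
      intro x hx
      have h4 := (Finset.mem_filter.1 hx).2
      rw [mem_bx, dd_comm, h4]
    rw [card_bx] at h6
    exact_mod_cast h6
  exact (Finset.sum_le_sum h2).trans ((hs.sum_le_tsum _ (fun n _ => by positivity)).trans hb)

theorem W_tsum (hd : 1 ≤ d) (m : ℝ) (hm : 0 < m) (hm1 : m ≤ 1) (c : Zd d) :
    (Summable fun x : Zd d => Real.exp (-(m * ‖x - c‖))) ∧
      ∑' x : Zd d, Real.exp (-(m * ‖x - c‖)) ≤ Cw d / m ^ (d + 1) := by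
  have h1 : Summable fun x : Zd d => Real.exp (-(m * ‖x‖)) :=
    summable_of_sum_le (fun x => (Real.exp_pos _).le) fun F => W_bd hd m hm hm1 F
  have h2 : Summable fun x : Zd d => Real.exp (-(m * ‖x - c‖)) :=
    (Equiv.subRight c).summable_iff.2 h1
  refine ⟨h2, ?_⟩
  have h3 : ∑' x : Zd d, Real.exp (-(m * ‖x - c‖)) = ∑' x : Zd d, Real.exp (-(m * ‖x‖)) :=
    (Equiv.subRight c).tsum_eq fun x => Real.exp (-(m * ‖x‖))
  rw [h3]
  exact Real.tsum_le_of_sum_le (fun x => (Real.exp_pos _).le) fun F => W_bd hd m hm hm1 F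

/-- the mass outside a ball -/
theorem out_mass (hd : 1 ≤ d) (m : ℝ) (hm : 0 < m) (hm1 : m ≤ 1) (g : HS d) (c b : Zd d) (K r r' : ℝ)
    (hg : ∀ x, ‖g x‖ ≤ K * Real.exp (-(m * ‖x - c‖))) (hr : ‖c - b‖ + r' ≤ r) :
    ∑' x, ({x : Zd d | ‖x - b‖ ≤ r}ᶜ).indicator (fun x => ‖g x‖ ^ 2) x ≤
      K ^ 2 * Real.exp (-(m * r')) * (Cw d / m ^ (d + 1)) := by
  obtain ⟨w1, w2⟩ := W_tsum hd m hm hm1 c
  have h1 := w1.mul_left (K ^ 2 * Real.exp (-(m * r')))
  have hs := (hs_sum g).summable.indicator ({x : Zd d | ‖x - b‖ ≤ r}ᶜ)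
  refine (hs.tsum_le_tsum (fun x => ?_) h1).trans ?_
  · by_cases hx : x ∈ {x : Zd d | ‖x - b‖ ≤ r}ᶜ
    · rw [Set.indicator_of_mem hx]
      have hx' : r < ‖x - b‖ := by
        rw [Set.mem_compl_iff, Set.mem_ofPred_eq, not_le] at hx
        exact hx
      have h2 : r' ≤ ‖x - c‖ := by
        have h3 : ‖x - b‖ ≤ ‖x - c‖ + ‖c - b‖ := by
          have := norm_add_le (x - c) (c - b)
          rwa [sub_add_sub_cancel] at this
        linarith
      calc ‖g x‖ ^ 2 ≤ (K * Real.exp (-(m * ‖x - c‖))) ^ 2 :=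
            pow_le_pow_left₀ (norm_nonneg _) (hg x) 2
        _ = K ^ 2 * Real.exp (-(m * ‖x - c‖)) * Real.exp (-(m * ‖x - c‖)) := by ring
        _ ≤ K ^ 2 * Real.exp (-(m * r')) * Real.exp (-(m * ‖x - c‖)) := by
            gcongr
    · rw [Set.indicator_of_notMem hx]
      positivity
  · rw [tsum_mul_left]
    exact mul_le_mul_of_nonneg_left w2 (by positivity)

theorem ball_eq (b : Zd d) (r : ℝ) (hr : 0 ≤ r) :
    ((bx b ⌊r⌋₊ : Finset (Zd d)) : Set (Zd d)) = {x : Zd d | ‖x - b‖ ≤ r} := by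
  ext x
  rw [Finset.mem_coe, mem_bx, Set.mem_ofPred_eq, Nat.le_floor_iff hr, dd_norm, norm_sub_rev]

theorem ball_card (b : Zd d) (r : ℝ) (hr : 0 ≤ r) :
    ((bx b ⌊r⌋₊ : Finset (Zd d)).card : ℝ) ≤ (2 * r + 1) ^ d := by
  rw [card_bx]
  push_cast
  apply pow_le_pow_left₀ (by positivity)
  have := Nat.floor_le hr
  linarith

/-- **families of exponentially decaying eigenfunctions** -/
theorem exp_fam (hd : 1 ≤ d) (h : Sol d V a ψ) (B : ℝ) (hV : ∀ x, |V x| ≤ B) {ι : Type*}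
    (f : ι → HS d) (hf : Orthonormal ℂ f) (E : ι → ℝ)
    (he : ∀ j x, -S (fun y => f j y) x + (V x : ℂ) * f j x = (E j : ℂ) * f j x)
    (m : ℝ) (hm : 0 < m) (hm1 : m ≤ 1) (K R : ℝ) (hR : 0 ≤ R) (c : ι → Zd d)
    (hdec : ∀ j x, ‖f j x‖ ≤ K * Real.exp (-(m * ‖x - c j‖)))
    (hq : K ^ 2 * Real.exp (-(m * (R / 8))) * (Cw d / m ^ (d + 1)) ≤ 1 / 2)
    (σ : ℝ) (hσ : 0 < σ) (s : Finset ι) (t : ℝ) :
    ∑ j ∈ s, ‖f j a‖ ^ 2 ≤ ms1 ψ {x | ‖x - a‖ ≤ R} t +
      σ * (2 * (2 * R + 1) ^ d * (K ^ 2 * Real.exp (-(m * (R / 2))) * (Cw d / m ^ (d + 1)))) + σ⁻¹ +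
      2 * (K ^ 2 * Real.exp (-(m * (3 * R / 8))) * (Cw d / m ^ (d + 1))) := by
  classical
  have hW0 : 0 ≤ Cw d / m ^ (d + 1) := by
    unfold Cw
    positivity
  obtain ⟨W, hW⟩ : ∃ W, W = Cw d / m ^ (d + 1) := ⟨_, rfl⟩
  rw [← hW] at hq hW0 ⊢
  have hmono : ∀ r1 r2 : ℝ, r2 ≤ r1 → K ^ 2 * Real.exp (-(m * r1)) * W ≤
      K ^ 2 * Real.exp (-(m * r2)) * W := by
    intro r1 r2 hr
    gcongr
  rw [← Finset.sum_filter_add_sum_filter_not s fun j => ‖c j - a‖ ≤ R / 2]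
  -- the near centres
  have hnear : ∑ j ∈ s.filter fun j => ‖c j - a‖ ≤ R / 2, ‖f j a‖ ^ 2 ≤
      ms1 ψ {x | ‖x - a‖ ≤ R} t +
      σ * (2 * (2 * R + 1) ^ d * (K ^ 2 * Real.exp (-(m * (R / 2))) * W)) + σ⁻¹ := by
    have hout : ∀ j ∈ s.filter fun j => ‖c j - a‖ ≤ R / 2,
        ∑' x, ({x : Zd d | ‖x - a‖ ≤ R}ᶜ).indicator (fun x => ‖f j x‖ ^ 2) x ≤
          K ^ 2 * Real.exp (-(m * (R / 2))) * W := by
      intro j hj
      have hj' := (Finset.mem_filter.1 hj).2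
      rw [hW]
      exact out_mass hd m hm hm1 (f j) (c j) a K R (R / 2) (hdec j) (by linarith)
    have h1 := fam h B hV f hf E he {x | ‖x - a‖ ≤ R} _ σ hσ _ hout t
    have h2 : ((s.filter fun j => ‖c j - a‖ ≤ R / 2).card : ℝ) ≤ 2 * (2 * R + 1) ^ d := by
      have h3 := card_le f hf (bx a ⌊R⌋₊) (s.filter fun j => ‖c j - a‖ ≤ R / 2) (fun j hj => by
        rw [ball_eq a R hR]
        exact (hout j hj).trans ((hmono _ _ (by linarith)).trans hq))
      have h4 := ball_card a R hR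
      linarith
    have h3 : 0 ≤ K ^ 2 * Real.exp (-(m * (R / 2))) * W := by positivity
    have h4 : σ * (((s.filter fun j => ‖c j - a‖ ≤ R / 2).card : ℝ) *
        (K ^ 2 * Real.exp (-(m * (R / 2))) * W)) ≤
        σ * (2 * (2 * R + 1) ^ d * (K ^ 2 * Real.exp (-(m * (R / 2))) * W)) := by gcongr
    linarith
  -- the far centres
  have hfar : ∑ j ∈ s.filter fun j => ¬ ‖c j - a‖ ≤ R / 2, ‖f j a‖ ^ 2 ≤
      2 * (K ^ 2 * Real.exp (-(m * (3 * R / 8))) * W) := by
    have key : ∀ j, Real.exp (-(m * ‖a - c j‖)) ≤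
        2 * Real.exp (m * (R / 8)) * ∑' x, ‖f j x‖ ^ 2 * Real.exp (-(m * ‖x - a‖)) := by
      intro j
      have h1 := hs_sum (f j)
      rw [hf.1 j, one_pow] at h1
      have h2 := out_mass hd m hm hm1 (f j) (c j) (c j) K (R / 8) (R / 8) (hdec j) (by
        rw [sub_self, norm_zero]
        linarith)
      rw [← hW] at h2
      obtain ⟨A, hA⟩ : ∃ A : Set (Zd d), A = {x : Zd d | ‖x - c j‖ ≤ R / 8} := ⟨_, rfl⟩
      rw [← hA] at h2
      have sA : Summable fun x => A.indicator (fun x => ‖f j x‖ ^ 2) x := h1.summable.indicator A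
      have sA' : Summable fun x => Aᶜ.indicator (fun x => ‖f j x‖ ^ 2) x := h1.summable.indicator Aᶜ
      have h3 : (∑' x, A.indicator (fun x => ‖f j x‖ ^ 2) x) +
          ∑' x, Aᶜ.indicator (fun x => ‖f j x‖ ^ 2) x = 1 := by
        rw [← sA.tsum_add sA', ← h1.tsum_eq]
        refine tsum_congr fun x => ?_
        exact congrFun (Set.indicator_self_add_compl A fun x => ‖f j x‖ ^ 2) x
      have h4 : (1 / 2 : ℝ) ≤ ∑' x, A.indicator (fun x => ‖f j x‖ ^ 2) x := by linarith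
      have sE : Summable fun x => ‖f j x‖ ^ 2 * Real.exp (-(m * ‖x - a‖)) := by
        refine Summable.of_nonneg_of_le (fun x => by positivity) (fun x => ?_) h1.summable
        refine mul_le_of_le_one_right (sq_nonneg _) (Real.exp_le_one_iff.2 ?_)
        have := mul_nonneg hm.le (norm_nonneg (x - a))
        linarith
      have h5 : (∑' x, A.indicator (fun x => ‖f j x‖ ^ 2) x) * (Real.exp (-(m * (R / 8))) *
          Real.exp (-(m * ‖a - c j‖))) ≤ ∑' x, ‖f j x‖ ^ 2 * Real.exp (-(m * ‖x - a‖)) := by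
        rw [← tsum_mul_right]
        refine (sA.mul_right _).tsum_le_tsum (fun x => ?_) sE
        by_cases hx : x ∈ A
        · rw [Set.indicator_of_mem hx, ← Real.exp_add]
          refine mul_le_mul_of_nonneg_left (Real.exp_le_exp.2 ?_) (sq_nonneg _)
          have hx' : ‖x - c j‖ ≤ R / 8 := by
            rw [hA] at hx
            exact hx
          have h6 : ‖x - a‖ ≤ ‖x - c j‖ + ‖a - c j‖ := by
            have := norm_add_le (x - c j) (c j - a)
            rw [sub_add_sub_cancel] at this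
            rwa [norm_sub_rev a (c j)]
          have h7 : m * ‖x - a‖ ≤ m * (R / 8 + ‖a - c j‖) :=
            mul_le_mul_of_nonneg_left (by linarith) hm.le
          linarith
        · rw [Set.indicator_of_notMem hx, zero_mul]
          positivity
      have h6 : 1 / 2 * (Real.exp (-(m * (R / 8))) * Real.exp (-(m * ‖a - c j‖))) ≤
          ∑' x, ‖f j x‖ ^ 2 * Real.exp (-(m * ‖x - a‖)) :=
        (mul_le_mul_of_nonneg_right h4 (by positivity)).trans h5
      have h7 : Real.exp (m * (R / 8)) * Real.exp (-(m * (R / 8))) = 1 := by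
        rw [← Real.exp_add]
        simp
      calc Real.exp (-(m * ‖a - c j‖)) = 2 * Real.exp (m * (R / 8)) *
            (1 / 2 * (Real.exp (-(m * (R / 8))) * Real.exp (-(m * ‖a - c j‖)))) := by
            linear_combination (-Real.exp (-(m * ‖a - c j‖))) * h7
        _ ≤ _ := mul_le_mul_of_nonneg_left h6 (by positivity)
    have h1 : ∀ j ∈ s.filter fun j => ¬ ‖c j - a‖ ≤ R / 2, ‖f j a‖ ^ 2 ≤
        K ^ 2 * Real.exp (-(m * (R / 2))) * (2 * Real.exp (m * (R / 8)) *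
          ∑' x, ‖f j x‖ ^ 2 * Real.exp (-(m * ‖x - a‖))) := by
      intro j hj
      have hj' := (Finset.mem_filter.1 hj).2
      rw [not_le, norm_sub_rev] at hj'
      calc ‖f j a‖ ^ 2 ≤ (K * Real.exp (-(m * ‖a - c j‖))) ^ 2 :=
            pow_le_pow_left₀ (norm_nonneg _) (hdec j a) 2
        _ = K ^ 2 * Real.exp (-(m * ‖a - c j‖)) * Real.exp (-(m * ‖a - c j‖)) := by ring
        _ ≤ K ^ 2 * Real.exp (-(m * (R / 2))) * (2 * Real.exp (m * (R / 8)) *
          ∑' x, ‖f j x‖ ^ 2 * Real.exp (-(m * ‖x - a‖))) := by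
            have := key j
            gcongr
    refine (Finset.sum_le_sum h1).trans ?_
    rw [← Finset.mul_sum, ← Finset.mul_sum]
    have sE : ∀ j, Summable fun x => ‖f j x‖ ^ 2 * Real.exp (-(m * ‖x - a‖)) := fun j => by
      refine Summable.of_nonneg_of_le (fun x => by positivity) (fun x => ?_) (hs_sum (f j)).summable
      refine mul_le_of_le_one_right (sq_nonneg _) (Real.exp_le_one_iff.2 ?_)
      have := mul_nonneg hm.le (norm_nonneg (x - a))
      linarith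
    have h2 : ∑ j ∈ s.filter fun j => ¬ ‖c j - a‖ ≤ R / 2,
        ∑' x, ‖f j x‖ ^ 2 * Real.exp (-(m * ‖x - a‖)) ≤ W := by
      rw [← Summable.tsum_finsetSum fun j _ => sE j]
      obtain ⟨w1, w2⟩ := W_tsum hd m hm hm1 a
      rw [← hW] at w2
      refine le_trans (Summable.tsum_le_tsum (fun x => ?_) (summable_sum fun j _ => sE j) w1) w2
      rw [← Finset.sum_mul]
      exact mul_le_of_le_one_left (Real.exp_pos _).le (bess f hf _ x)
    have h3 : Real.exp (-(m * (R / 2))) * Real.exp (m * (R / 8)) = Real.exp (-(m * (3 * R / 8))) := by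
      rw [← Real.exp_add]
      congr 1
      ring
    calc K ^ 2 * Real.exp (-(m * (R / 2))) * (2 * Real.exp (m * (R / 8)) *
        ∑ j ∈ s.filter fun j => ¬ ‖c j - a‖ ≤ R / 2,
          ∑' x, ‖f j x‖ ^ 2 * Real.exp (-(m * ‖x - a‖))) ≤
        K ^ 2 * Real.exp (-(m * (R / 2))) * (2 * Real.exp (m * (R / 8)) * W) := by gcongr
      _ = 2 * (K ^ 2 * (Real.exp (-(m * (R / 2))) * Real.exp (m * (R / 8))) * W) := by ring
      _ = _ := by rw [h3]
  linarith

end Pool.Agent.Q218.AD
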