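import Pool.Agent.Q218.AD.Loc4

/-! From the characteristic function to the eigenfunctions. -/

set_option autoImplicit false
set_option linter.unusedSectionVars false

open scoped BigOperators Topology InnerProductSpace
open MeasureTheory Filter Set

namespace Pool.Agent.Q218.AD

open Pool.Agent.W788.LD.Spec (S)
open Pool.Agent.H4R2.LO (Zd dd bx)
open Pool.Agent.TH794.QD (Sol HS hmk hmk_apply hs_sum)

variable {d : ℕ} {V : Zd d → ℝ} {a : Zd d} {ψ : ℝ → Zd d → ℂ}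

theorem ms1_mono (h : Sol d V a ψ) (A A' : Set (Zd d)) (hA : A ⊆ A') (t : ℝ) :
    ms1 ψ A t ≤ ms1 ψ A' t := by
  unfold ms1
  refine (ms1_summ h A t).tsum_le_tsum (fun x => ?_) (ms1_summ h A' t)
  exact Set.indicator_le_indicator_of_subset hA (fun _ => sq_nonneg _) x

/-- **from the characteristic function to the eigenfunctions** -/
theorem loc_main (hd : 1 ≤ d) (h : Sol d V a ψ) (B : ℝ) (hV : ∀ x, |V x| ≤ B) {ι : Type*}
    (f : ι → HS d) (hf : Orthonormal ℂ f) (E : ι → ℝ)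
    (he : ∀ j x, -S (fun y => f j y) x + (V x : ℂ) * f j x = (E j : ℂ) * f j x)
    (m : ℝ) (hm : 0 < m) (hm1 : m ≤ 1) (K R : ℝ) (hR : 0 ≤ R) (c : ι → Zd d)
    (hdec : ∀ j x, ‖f j x‖ ≤ K * Real.exp (-(m * ‖x - c j‖)))
    (hq : K ^ 2 * Real.exp (-(m * (R / 8))) * (Cw d / m ^ (d + 1)) ≤ 1 / 2)
    (σ : ℝ) (hσ : 0 < σ) (i0 : Fin d) (N : ℕ) (hN : 1 ≤ N) (q0 T β ε1 : ℝ) (hq0 : 0 < q0)
    (hβ0 : 0 ≤ β) (hβ : β * (q0 * R) * N ≤ 1) (hε1 : 0 ≤ ε1)
    (hyp : ∀ q : Fin d → ℝ, q0 ^ 2 ≤ ∑ i, q i ^ 2 → ∑ i, q i ^ 2 ≤ (N * q0) ^ 2 →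
      ‖∫ s in Ioc (1 : ℝ) 2, Phi ψ (fun x => Complex.exp (Complex.I *
        ((β * ∑ i, q i * ((x i : ℝ) - a i) : ℝ) : ℂ))) (s * T)‖ ≤ ε1)
    (s : Finset ι) :
    ∑ j ∈ s, ‖f j a‖ ^ 2 ≤ 4 / N + 4 * ε1 +
      (σ * (2 * (2 * R + 1) ^ d * (K ^ 2 * Real.exp (-(m * (R / 2))) * (Cw d / m ^ (d + 1)))) + σ⁻¹ +
      2 * (K ^ 2 * Real.exp (-(m * (3 * R / 8))) * (Cw d / m ^ (d + 1)))) := by
  obtain ⟨θ, hθ⟩ : ∃ θ : Zd d → ℝ, θ = fun x => β * (q0 * ((x i0 : ℝ) - a i0)) := ⟨_, rfl⟩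
  have h1 : ∫ s in Ioc (1 : ℝ) 2, ms1 ψ {x | |θ x| * N ≤ 1} (s * T) ≤ 4 / N + 4 * ε1 := by
    refine slab h N hN θ hε1 fun k hk l hl hkl => ?_
    have e1 : ∀ x : Zd d, (((k : ℝ) - l) * θ x : ℝ) = β * ∑ i, (Pi.single i0 (((k : ℝ) - l) * q0) :
        Fin d → ℝ) i * ((x i : ℝ) - a i) := by
      intro x
      rw [Finset.sum_eq_single i0]
      · rw [hθ, Pi.single_eq_same]
        ring
      · intro i _ hi
        rw [Pi.single_eq_of_ne hi, zero_mul]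
      · intro hi
        exact absurd (Finset.mem_univ i0) hi
    have e2 : ∑ i, (Pi.single i0 (((k : ℝ) - l) * q0) : Fin d → ℝ) i ^ 2 =
        (((k : ℝ) - l) * q0) ^ 2 := by
      rw [Finset.sum_eq_single i0]
      · rw [Pi.single_eq_same]
      · intro i _ hi
        rw [Pi.single_eq_of_ne hi]
        ring
      · intro hi
        exact absurd (Finset.mem_univ i0) hi
    simp only [e1]
    have hkN : (k : ℝ) < N := by exact_mod_cast Finset.mem_range.1 hk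
    have hlN : (l : ℝ) < N := by exact_mod_cast Finset.mem_range.1 hl
    have hk0 : (0 : ℝ) ≤ k := Nat.cast_nonneg k
    have hl0 : (0 : ℝ) ≤ l := Nat.cast_nonneg l
    refine hyp _ ?_ ?_
    · rw [e2, mul_pow]
      have h2 : (1 : ℝ) ≤ ((k : ℝ) - l) ^ 2 := by
        have h3 : (1 : ℤ) ≤ ((k : ℤ) - l) ^ 2 := by
          have h4 : ((k : ℤ) - l) ≠ 0 := by
            intro h5
            apply hkl
            omega
          have h5 : 0 < ((k : ℤ) - l) ^ 2 := by positivity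
          omega
        exact_mod_cast h3
      nlinarith [sq_nonneg q0]
    · rw [e2, mul_pow, mul_pow]
      refine mul_le_mul_of_nonneg_right ?_ (sq_nonneg _)
      apply sq_le_sq'
      · linarith
      · linarith
  have hsub : {x : Zd d | ‖x - a‖ ≤ R} ⊆ {x | |θ x| * N ≤ 1} := by
    intro x hx
    rw [Set.mem_ofPred_eq] at hx ⊢
    refine le_trans ?_ hβ
    refine mul_le_mul_of_nonneg_right ?_ (Nat.cast_nonneg _)
    rw [hθ]
    simp only
    rw [abs_mul, abs_of_nonneg hβ0, abs_mul, abs_of_pos hq0]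
    refine mul_le_mul_of_nonneg_left (mul_le_mul_of_nonneg_left ?_ hq0.le) hβ0
    have h2 := norm_le_pi_norm (x - a) i0
    rw [Pi.sub_apply, Int.norm_eq_abs] at h2
    push_cast at h2
    linarith
  obtain ⟨Y, hY⟩ : ∃ Y, Y = σ * (2 * (2 * R + 1) ^ d * (K ^ 2 * Real.exp (-(m * (R / 2))) *
      (Cw d / m ^ (d + 1)))) + σ⁻¹ +
      2 * (K ^ 2 * Real.exp (-(m * (3 * R / 8))) * (Cw d / m ^ (d + 1))) := ⟨_, rfl⟩
  obtain ⟨p, hp⟩ : ∃ p, p = ∑ j ∈ s, ‖f j a‖ ^ 2 := ⟨_, rfl⟩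
  have h2 : ∀ t, p ≤ ms1 ψ {x | |θ x| * N ≤ 1} t + Y := by
    intro t
    have h3 := exp_fam hd h B hV f hf E he m hm hm1 K R hR c hdec hq σ hσ s t
    have h4 := ms1_mono h _ _ hsub t
    rw [hp, hY]
    linarith
  rw [← hp, ← hY]
  obtain ⟨μ, hμ⟩ : ∃ μ : Measure ℝ, μ = volume.restrict (Ioc (1 : ℝ) 2) := ⟨_, rfl⟩
  have hfin : IsFiniteMeasure μ := by
    rw [hμ]
    exact ⟨by simp⟩
  have hμ1 : μ.real univ = 1 := by
    rw [hμ, measureReal_restrict_apply_univ, Real.volume_real_Ioc_of_le (by norm_num)]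
    norm_num
  rw [← hμ] at h1
  have iM : Integrable (fun s => ms1 ψ {x | |θ x| * N ≤ 1} (s * T)) μ :=
    Integrable.mono' (integrable_const 1)
      ((ms1_meas h _).comp (by fun_prop : Measurable fun s : ℝ => s * T)).aestronglyMeasurable
      (Filter.Eventually.of_forall fun s => by
        rw [Real.norm_of_nonneg (ms1_bd h _ _).1]
        exact (ms1_bd h _ _).2)
  have h3 : ∫ _s : ℝ, p ∂μ ≤ ∫ s, (ms1 ψ {x | |θ x| * N ≤ 1} (s * T) + Y) ∂μ :=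
    integral_mono (integrable_const _) (iM.add (integrable_const _)) fun s => h2 (s * T)
  rw [integral_const, hμ1, one_smul, integral_add iM (integrable_const _), integral_const, hμ1,
    one_smul] at h3
  linarith

/-- a power times an exponential is small -/
theorem small_exp (p b c : ℝ) (hb : 0 < b) (hc : 0 < c) :
    ∃ l : ℝ, 0 < l ∧ ∀ lam : ℝ, 0 < lam → lam ≤ l →
      lam ^ (-p) * Real.exp (-(b * lam ^ (-(1 / 1000) : ℝ))) ≤ c := by
  have h1 := tendsto_rpow_mul_exp_neg_mul_atTop_nhds_zero (1000 * p) b hb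
  obtain ⟨X, hX⟩ := Filter.eventually_atTop.1 (h1.eventually_le_const hc)
  obtain ⟨Z, hZ⟩ : ∃ Z, Z = max X 1 := ⟨_, rfl⟩
  have hZ1 : 1 ≤ Z := by rw [hZ]; exact le_max_right _ _
  have hZ0 : 0 < Z := by linarith
  refine ⟨Z ^ (-1000 : ℝ), Real.rpow_pos_of_pos hZ0 _, fun lam h0 hl => ?_⟩
  have h2 : Z ≤ lam ^ (-(1 / 1000) : ℝ) := by
    calc Z = (Z ^ (-1000 : ℝ)) ^ (-(1 / 1000) : ℝ) := by
          rw [← Real.rpow_mul hZ0.le]
          norm_num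
      _ ≤ lam ^ (-(1 / 1000) : ℝ) := Real.rpow_le_rpow_of_nonpos h0 hl (by norm_num)
  have h3 := hX _ ((le_max_left X 1).trans (hZ ▸ h2))
  have h4 : (lam ^ (-(1 / 1000) : ℝ)) ^ (1000 * p) = lam ^ (-p) := by
    rw [← Real.rpow_mul h0.le]
    congr 1
    ring
  rw [h4] at h3
  simpa [neg_mul] using h3

end Pool.Agent.Q218.AD
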