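import Pool.Agent.Q218.AD.Loc5
import Pool.Agent.Q218.AD.Fin

/-! The numerical estimates for the exponentially decaying eigenfunctions, and the transfer of
families of functions to the Hilbert space. -/

set_option autoImplicit false
set_option linter.unusedSectionVars false

open scoped BigOperators Topology InnerProductSpace
open MeasureTheory Filter Set

namespace Pool.Agent.Q218.AD

open Pool.Agent.H4R2.LO (Zd)
open Pool.Agent.TH794.QD (HS hmk hs_sum)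

theorem loc_num (d : ℕ) (k ε : ℝ) (hε : 0 < ε) : ∃ l : ℝ, 0 < l ∧ ∀ lam : ℝ, 0 < lam → lam ≤ l →
    lam ^ (201 / 100 : ℝ) ≤ 1 ∧
    (lam ^ (-k)) ^ 2 * Real.exp (-(lam ^ (201 / 100 : ℝ) * (lam ^ (-(2011 / 1000) : ℝ) / 8))) *
      (Cw d / (lam ^ (201 / 100 : ℝ)) ^ (d + 1)) ≤ 1 / 2 ∧
    4 / ε * (2 * (2 * lam ^ (-(2011 / 1000) : ℝ) + 1) ^ d * ((lam ^ (-k)) ^ 2 *
      Real.exp (-(lam ^ (201 / 100 : ℝ) * (lam ^ (-(2011 / 1000) : ℝ) / 2))) *
      (Cw d / (lam ^ (201 / 100 : ℝ)) ^ (d + 1)))) +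
      2 * ((lam ^ (-k)) ^ 2 *
      Real.exp (-(lam ^ (201 / 100 : ℝ) * (3 * lam ^ (-(2011 / 1000) : ℝ) / 8))) *
      (Cw d / (lam ^ (201 / 100 : ℝ)) ^ (d + 1))) ≤ ε := by
  obtain ⟨C, hC⟩ : ∃ C, C = (8 / ε + 2) * 3 ^ d * (Cw d + 1) := ⟨_, rfl⟩
  have hCw : 0 ≤ Cw d := by unfold Cw; positivity
  have hC0 : 0 < C := by rw [hC]; positivity
  obtain ⟨p, hp⟩ : ∃ p : ℝ, p = 2 * k + 201 / 100 * (d + 1) + 2011 / 1000 * d := ⟨_, rfl⟩
  obtain ⟨l, hl0, hl⟩ := small_exp p (1 / 8) (min (1 / 2) ε / C) (by norm_num) (by positivity)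
  refine ⟨min l 1, by positivity, fun lam h0 h1 => ?_⟩
  have hl1 : lam ≤ 1 := h1.trans (min_le_right _ _)
  have key := hl lam h0 (h1.trans (min_le_left _ _))
  rw [le_div_iff₀ hC0] at key
  obtain ⟨m, hm⟩ : ∃ m, m = lam ^ (201 / 100 : ℝ) := ⟨_, rfl⟩
  obtain ⟨R, hR⟩ : ∃ R, R = lam ^ (-(2011 / 1000) : ℝ) := ⟨_, rfl⟩
  obtain ⟨K, hK⟩ : ∃ K, K = (lam ^ (-k)) ^ 2 := ⟨_, rfl⟩
  rw [← hm, ← hR, ← hK]
  have hm0 : 0 < m := by rw [hm]; positivity
  have hR1 : 1 ≤ R := by rw [hR]; exact Real.one_le_rpow_of_pos_of_le_one_of_nonpos h0 hl1 (by norm_num)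
  have hK0 : 0 < K := by rw [hK]; positivity
  have hmR : m * R = lam ^ (-(1 / 1000) : ℝ) := by
    rw [hm, hR, ← Real.rpow_add h0]
    norm_num
  obtain ⟨e, he⟩ : ∃ e, e = Real.exp (-(m * R / 8)) := ⟨_, rfl⟩
  have he0 : 0 < e := by rw [he]; positivity
  have hmR0 : 0 ≤ m * R := by positivity
  have e1 : Real.exp (-(m * (R / 8))) = e := by
    rw [he]
    congr 1
    ring
  have e2 : Real.exp (-(m * (R / 2))) ≤ e := by
    rw [he]
    apply Real.exp_le_exp.2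
    nlinarith
  have e3 : Real.exp (-(m * (3 * R / 8))) ≤ e := by
    rw [he]
    apply Real.exp_le_exp.2
    nlinarith
  obtain ⟨Y, hY⟩ : ∃ Y, Y = K * e * (Cw d / m ^ (d + 1)) := ⟨_, rfl⟩
  have hY0 : 0 ≤ Y := by rw [hY]; positivity
  have hRd : (2 * R + 1) ^ d ≤ 3 ^ d * R ^ d := by
    rw [← mul_pow]
    apply pow_le_pow_left₀ (by positivity)
    linarith
  have h3R : (1 : ℝ) ≤ 3 ^ d * R ^ d := by
    rw [← mul_pow]
    apply one_le_pow₀
    linarith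
  -- the common bound
  have hbig : (8 / ε + 2) * (3 ^ d * R ^ d) * Y ≤ min (1 / 2) ε := by
    refine le_trans ?_ key
    have f1 : K = lam ^ (-(2 * k)) := by
      rw [hK, ← Real.rpow_natCast, ← Real.rpow_mul h0.le]
      congr 1
      push_cast
      ring
    have f2 : (m ^ (d + 1))⁻¹ = lam ^ (-(201 / 100 * ((d : ℝ) + 1))) := by
      rw [hm, ← Real.rpow_natCast, ← Real.rpow_mul h0.le, ← Real.rpow_neg h0.le]
      congr 1
      push_cast
      ring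
    have f3 : R ^ d = lam ^ (-(2011 / 1000 * (d : ℝ))) := by
      rw [hR, ← Real.rpow_natCast, ← Real.rpow_mul h0.le]
      congr 1
      ring
    have f4 : lam ^ (-p) = K * (m ^ (d + 1))⁻¹ * R ^ d := by
      rw [f1, f2, f3, ← Real.rpow_add h0, ← Real.rpow_add h0, hp]
      congr 1
      ring
    have f5 : Real.exp (-(1 / 8 * lam ^ (-(1 / 1000) : ℝ))) = e := by
      rw [he, ← hmR]
      congr 1
      ring
    rw [f4, f5, hC, hY, div_eq_mul_inv (Cw d)]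
    have f6 : 0 ≤ K * (m ^ (d + 1))⁻¹ * R ^ d * e := by positivity
    have f7 : 0 ≤ (8 / ε + 2) * (3 : ℝ) ^ d := by positivity
    have f8 := mul_nonneg f6 f7
    calc (8 / ε + 2) * (3 ^ d * R ^ d) * (K * e * (Cw d * (m ^ (d + 1))⁻¹)) =
        K * (m ^ (d + 1))⁻¹ * R ^ d * e * ((8 / ε + 2) * 3 ^ d) * Cw d := by ring
      _ ≤ K * (m ^ (d + 1))⁻¹ * R ^ d * e * ((8 / ε + 2) * 3 ^ d) * (Cw d + 1) := by
          apply mul_le_mul_of_nonneg_left _ f8
          linarith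
      _ = _ := by ring
  have hmin1 := hbig.trans (min_le_left _ _)
  have hmin2 := hbig.trans (min_le_right _ _)
  have hcoef : 0 ≤ 8 / ε := by positivity
  have hYb : Y ≤ (8 / ε + 2) * (3 ^ d * R ^ d) * Y := by
    apply le_mul_of_one_le_left hY0
    nlinarith
  refine ⟨?_, ?_, ?_⟩
  · rw [hm]
    exact Real.rpow_le_one h0.le hl1 (by norm_num)
  · rw [e1, ← hY]
    linarith
  · have g1 : K * Real.exp (-(m * (R / 2))) * (Cw d / m ^ (d + 1)) ≤ Y := by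
      rw [hY]
      gcongr
    have g2 : K * Real.exp (-(m * (3 * R / 8))) * (Cw d / m ^ (d + 1)) ≤ Y := by
      rw [hY]
      gcongr
    calc _ ≤ 4 / ε * (2 * (3 ^ d * R ^ d) * Y) + 2 * Y := by gcongr
      _ ≤ 4 / ε * (2 * (3 ^ d * R ^ d) * Y) + 2 * ((3 ^ d * R ^ d) * Y) := by
          have : Y ≤ (3 ^ d * R ^ d) * Y := le_mul_of_one_le_left hY0 h3R
          linarith
      _ = (8 / ε + 2) * (3 ^ d * R ^ d) * Y := by ring
      _ ≤ ε := hmin2

/-- orthonormal families of functions -/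
theorem ortho {d : ℕ} {J : Type} (φ : J → Zd d → ℂ)
    (h1 : ∀ j, HasSum (fun x => ‖φ j x‖ ^ 2) 1)
    (h2 : ∀ i j, i ≠ j → HasSum (fun x => (starRingEnd ℂ) (φ i x) * φ j x) 0) :
    Orthonormal ℂ fun j => (hmk (φ j) (h1 j).summable : HS d) := by
  constructor
  · intro j
    have h3 := hs_sum (hmk (φ j) (h1 j).summable)
    have h4 : ‖(hmk (φ j) (h1 j).summable : HS d)‖ ^ 2 = 1 := h3.unique (h1 j)
    exact (pow_eq_one_iff_of_nonneg (norm_nonneg _) two_ne_zero).1 h4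
  · intro i j hij
    exact (hs_inner (hmk (φ i) (h1 i).summable) (hmk (φ j) (h1 j).summable)).unique (h2 i j hij)

end Pool.Agent.Q218.AD
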