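import Pool.Agent.Q218.AD.Core
import Pool.Agent.Q218.AD.Lim
import Pool.Agent.Q218.AD.Appr

/-! From the profile of the resolvent to the time averages of the evolution. -/

set_option autoImplicit false
set_option linter.unusedSectionVars false

open scoped BigOperators Topology
open MeasureTheory Filter Set

namespace Pool.Agent.Q218.AD

open Pool.Agent.H4R2.LO (Zd)
open Pool.Agent.TH794.QD (Sol La ew)

variable {d : ℕ} {V : Zd d → ℝ} {a : Zd d} {ψ : ℝ → Zd d → ℂ}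

/-- the weighted sum of the probabilities at the time `s` -/
noncomputable def Phi (ψ : ℝ → Zd d → ℂ) (c : Zd d → ℂ) (s : ℝ) : ℂ :=
  ∑' x, c x * ((‖ψ s x‖ ^ 2 : ℝ) : ℂ)

theorem phi_meas (h : Sol d V a ψ) (c : Zd d → ℂ) : Measurable (Phi ψ c) := by
  unfold Phi
  refine Measurable.tsum fun x => ?_
  have h1 := (h.cont x).measurable
  fun_prop

theorem phi_le (h : Sol d V a ψ) (c : Zd d → ℂ) (hc : ∀ x, ‖c x‖ ≤ 1) (s : ℝ) :
    ‖Phi ψ c s‖ ≤ 1 := by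
  unfold Phi
  refine tsum_of_norm_bounded (h.norm s) fun x => ?_
  rw [norm_mul, Complex.norm_real, Real.norm_of_nonneg (sq_nonneg _)]
  exact mul_le_of_le_one_left (sq_nonneg _) (hc x)

theorem La_cont (h : Sol d V a ψ) {η : ℝ} (hη : 0 < η) (x : Zd d) :
    Continuous fun E : ℝ => La ψ E η x :=
  La1_cont (f := fun s => ψ s x) (h.cont x) (fun s => h.le_one s x) hη

theorem set_shift (e0 R : ℝ) (hR : 0 ≤ R) (g : ℝ → ℝ) :
    ∫ e in Icc (e0 - R) (e0 + R), g (e0 - e) = ∫ E in (-R)..R, g E := by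
  rw [integral_Icc_eq_integral_Ioc, ← intervalIntegral.integral_of_le (by linarith),
    intervalIntegral.integral_comp_sub_left (fun x => g x)]
  congr 1 <;> ring

/-- **the energies** -/
theorem step1 (h : Sol d V a ψ) {η : ℝ} (hη : 0 < η) (c : Zd d → ℂ) (hc : ∀ x, ‖c x‖ ≤ 1)
    {X κ e0 δ Q : ℝ} {G0 G1 : ℝ → ℝ} (hκ : 0 < κ) (hκX : κ ≤ X) (hδ : 0 ≤ δ) (hQ : 0 ≤ Q)
    (c0 : Continuous G0) (c1 : Continuous G1) (n0 : ∀ E, 0 ≤ G0 E) (n1 : ∀ E, 0 ≤ G1 E)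
    (hP : ∀ e, |e0 - e| ≤ X - κ → ‖(η : ℂ) * ∑' x, c x * ((‖La ψ e η x‖ ^ 2 : ℝ) : ℂ) -
      ((G0 (e0 - e) / (1 + G1 (e0 - e) / G0 (e0 - e) ^ 2 * Q) : ℝ) : ℂ)‖ ≤ δ)
    (hN : ∀ e, |e0 - e| ≤ X - κ → |η * ∑' x, ‖La ψ e η x‖ ^ 2 - G0 (e0 - e)| ≤ δ) :
    ‖((2 * η : ℝ) : ℂ) * (∫ s in Ioi (0 : ℝ), ((Real.exp (-(2 * η) * s) : ℝ) : ℂ) * Phi ψ c s) -
      ((Real.pi⁻¹ * ∫ E in (-(X - κ))..(X - κ), G0 E / (1 + G1 E / G0 E ^ 2 * Q) : ℝ) : ℂ)‖ ≤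
    (1 - Real.pi⁻¹ * ∫ E in (-(X - κ))..(X - κ), G0 E) + 4 * X / Real.pi * δ := by
  have m0 := c0.measurable
  have m1 := c1.measurable
  have hD : ∀ E, 0 ≤ G1 E / G0 E ^ 2 := fun E => div_nonneg (n1 E) (sq_nonneg _)
  have hp := Real.pi_pos
  obtain ⟨R, hR⟩ : ∃ R, R = X - κ := ⟨_, rfl⟩
  have hR0 : 0 ≤ R := by rw [hR]; linarith
  have hRX : R ≤ X := by rw [hR]; linarith
  rw [← hR] at hP hN ⊢
  obtain ⟨J, hJ⟩ : ∃ J : Set ℝ, J = Icc (e0 - R) (e0 + R) := ⟨_, rfl⟩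
  have hJm : MeasurableSet J := by rw [hJ]; exact measurableSet_Icc
  have hJe : ∀ e ∈ J, |e0 - e| ≤ R := by
    intro e he
    rw [hJ] at he
    rw [abs_le]
    constructor <;> linarith [he.1, he.2]
  have hvol : volume.real J = 2 * R := by
    rw [hJ, Real.volume_real_Icc_of_le (by linarith)]
    ring
  have hfin : volume J < ⊤ := by
    rw [hJ]
    exact measure_Icc_lt_top
  -- the integrands
  obtain ⟨f, hf⟩ : ∃ f : ℝ → ℝ, f = fun E => G0 E / (1 + G1 E / G0 E ^ 2 * Q) := ⟨_, rfl⟩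
  have hfm : Measurable f := by
    rw [hf]
    fun_prop
  have f0 : ∀ E, 0 ≤ f E := by
    intro E
    rw [hf]
    have := n0 E
    have := hD E
    positivity
  have f1 : ∀ E, f E ≤ G0 E := by
    intro E
    rw [hf]
    simp only
    have := hD E
    apply div_le_self (n0 E)
    have : 0 ≤ G1 E / G0 E ^ 2 * Q := by positivity
    linarith
  have i0 : IntegrableOn (fun e => G0 (e0 - e)) J := by
    rw [hJ]
    exact (Continuous.comp c0 (by fun_prop)).integrableOn_Icc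
  have i1 : IntegrableOn (fun e => f (e0 - e)) J := by
    refine Integrable.mono' i0 ?_ (Filter.Eventually.of_forall fun e => ?_)
    · exact (hfm.comp (by fun_prop)).aestronglyMeasurable
    · rw [Real.norm_of_nonneg (f0 _)]
      exact f1 _
  have i1c : IntegrableOn (fun e => ((f (e0 - e) : ℝ) : ℂ)) J := i1.ofReal
  have ic : IntegrableOn (fun _ : ℝ => δ) J := integrableOn_const hfin.ne
  have hP' : ∀ e ∈ J, ‖(η : ℂ) * ∑' x, c x * ((‖La ψ e η x‖ ^ 2 : ℝ) : ℂ) -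
      ((f (e0 - e) : ℝ) : ℂ)‖ ≤ δ := by
    intro e he
    rw [hf]
    exact hP e (hJe e he)
  have mG : Measurable fun e : ℝ => (η : ℂ) * ∑' x, c x * ((‖La ψ e η x‖ ^ 2 : ℝ) : ℂ) := by
    refine Measurable.const_mul (Measurable.tsum fun x => ?_) _
    have := (La_cont h hη x).measurable
    fun_prop
  have mN : Measurable fun e : ℝ => η * ∑' x, ‖La ψ e η x‖ ^ 2 := by
    refine Measurable.const_mul (Measurable.tsum fun x => ?_) _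
    have := (La_cont h hη x).measurable
    fun_prop
  have iG : IntegrableOn (fun e : ℝ => (η : ℂ) * ∑' x, c x * ((‖La ψ e η x‖ ^ 2 : ℝ) : ℂ)) J := by
    refine Integrable.mono' (ic.add i0) mG.aestronglyMeasurable ?_
    filter_upwards [ae_restrict_mem hJm] with e he
    have h1 := hP' e he
    have h2 : ‖((f (e0 - e) : ℝ) : ℂ)‖ ≤ G0 (e0 - e) := by
      rw [Complex.norm_real, Real.norm_of_nonneg (f0 _)]
      exact f1 _
    have h3 := norm_le_norm_sub_add ((η : ℂ) * ∑' x, c x * ((‖La ψ e η x‖ ^ 2 : ℝ) : ℂ))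
      ((f (e0 - e) : ℝ) : ℂ)
    simp only [Pi.add_apply]
    linarith
  have iN : IntegrableOn (fun e : ℝ => η * ∑' x, ‖La ψ e η x‖ ^ 2) J := by
    refine Integrable.mono' (ic.add i0) mN.aestronglyMeasurable ?_
    filter_upwards [ae_restrict_mem hJm] with e he
    have h1 := abs_le.1 (hN e (hJe e he))
    have h2 : 0 ≤ η * ∑' x, ‖La ψ e η x‖ ^ 2 :=
      mul_nonneg hη.le (tsum_nonneg fun x => sq_nonneg _)
    rw [Real.norm_of_nonneg h2]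
    simp only [Pi.add_apply]
    linarith [h1.2]
  -- the two comparisons
  have b1 : ‖(∫ e in J, (η : ℂ) * ∑' x, c x * ((‖La ψ e η x‖ ^ 2 : ℝ) : ℂ)) -
      ((∫ E in (-R)..R, f E : ℝ) : ℂ)‖ ≤ 2 * X * δ := by
    rw [← set_shift e0 R hR0 f, ← hJ, ← integral_complex_ofReal, ← integral_sub iG i1c]
    refine (norm_setIntegral_le_of_norm_le_const hfin fun e he => hP' e he).trans ?_
    rw [hvol]
    nlinarith
  have b2 : |(∫ e in J, η * ∑' x, ‖La ψ e η x‖ ^ 2) - ∫ E in (-R)..R, G0 E| ≤ 2 * X * δ := by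
    rw [← set_shift e0 R hR0 G0, ← hJ, ← integral_sub iN i0, ← Real.norm_eq_abs]
    refine (norm_setIntegral_le_of_norm_le_const (C := δ) hfin fun e he => ?_).trans ?_
    · rw [Real.norm_eq_abs]
      exact hN e (hJe e he)
    · rw [hvol]
      nlinarith
  have hcore := core h hη J c hc
  rw [integral_const_mul] at b1 b2
  obtain ⟨I, hI⟩ : ∃ I, I = ∫ s in Ioi (0 : ℝ), ((Real.exp (-(2 * η) * s) : ℝ) : ℂ) *
    Phi ψ c s := ⟨_, rfl⟩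
  obtain ⟨GJ, hGJ⟩ : ∃ GJ, GJ = ∫ E in J, ∑' x, c x * ((‖La ψ E η x‖ ^ 2 : ℝ) : ℂ) := ⟨_, rfl⟩
  obtain ⟨NJ, hNJ⟩ : ∃ NJ, NJ = ∫ E in J, ∑' x, ‖La ψ E η x‖ ^ 2 := ⟨_, rfl⟩
  obtain ⟨F, hF⟩ : ∃ F, F = ∫ E in (-R)..R, f E := ⟨_, rfl⟩
  obtain ⟨M, hM⟩ : ∃ M, M = ∫ E in (-R)..R, G0 E := ⟨_, rfl⟩
  have hff : (∫ E in (-R)..R, G0 E / (1 + G1 E / G0 E ^ 2 * Q)) = F := by
    rw [hF, hf]
  rw [← hI, hff, ← hM]
  change ‖((2 * Real.pi : ℝ) : ℂ) * (∫ s in Ioi (0 : ℝ), ((Real.exp (-(2 * η) * s) : ℝ) : ℂ) *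
        Phi ψ c s) - _‖ ≤ _ at hcore
  rw [← hI, ← hGJ, ← hNJ] at hcore
  rw [← hGJ, ← hF] at b1
  rw [← hNJ, ← hM] at b2
  have e1 : ((2 * η : ℝ) : ℂ) * I - ((Real.pi⁻¹ * F : ℝ) : ℂ) =
      ((η / Real.pi : ℝ) : ℂ) * (((2 * Real.pi : ℝ) : ℂ) * I - GJ) +
        ((Real.pi⁻¹ : ℝ) : ℂ) * ((η : ℂ) * GJ - ((F : ℝ) : ℂ)) := by
    have : (Real.pi : ℂ) ≠ 0 := by exact_mod_cast Real.pi_ne_zero
    push_cast
    field_simp
    ring
  rw [e1]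
  refine (norm_add_le _ _).trans ?_
  rw [norm_mul, norm_mul, Complex.norm_real, Complex.norm_real,
    Real.norm_of_nonneg (by positivity), Real.norm_of_nonneg (by positivity)]
  have a1 : η / Real.pi * ‖((2 * Real.pi : ℝ) : ℂ) * I - GJ‖ ≤
      η / Real.pi * (Real.pi / η - NJ) := mul_le_mul_of_nonneg_left hcore (by positivity)
  have a2 : Real.pi⁻¹ * ‖(η : ℂ) * GJ - ((F : ℝ) : ℂ)‖ ≤ Real.pi⁻¹ * (2 * X * δ) :=
    mul_le_mul_of_nonneg_left b1 (by positivity)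
  have a3 : η / Real.pi * (Real.pi / η - NJ) = 1 - Real.pi⁻¹ * (η * NJ) := by
    field_simp
  have a4 : Real.pi⁻¹ * M - Real.pi⁻¹ * (η * NJ) ≤ Real.pi⁻¹ * (2 * X * δ) := by
    rw [← mul_sub]
    apply mul_le_mul_of_nonneg_left _ (by positivity)
    linarith [(abs_le.1 b2).1]
  have a5 : 4 * X / Real.pi * δ = Real.pi⁻¹ * (2 * X * δ) + Real.pi⁻¹ * (2 * X * δ) := by
    field_simp
    ring
  linarith

/-- **the Laplace transform in the scaled time** -/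
theorem step2 (h : Sol d V a ψ) {k T : ℝ} (hk : 0 < k) (hT : 0 < T) (c : Zd d → ℂ)
    (hc : ∀ x, ‖c x‖ ≤ 1)
    {X κ e0 δ Q : ℝ} {G0 G1 : ℝ → ℝ} (hκ : 0 < κ) (hκX : κ ≤ X) (hδ : 0 ≤ δ) (hQ : 0 ≤ Q)
    (c0 : Continuous G0) (c1 : Continuous G1) (n0 : ∀ E, 0 ≤ G0 E) (n1 : ∀ E, 0 ≤ G1 E)
    (hm : ∫ E in (-X)..X, G0 E = Real.pi)
    (hP : ∀ e, |e0 - e| ≤ X - κ → ‖((k / (2 * T) : ℝ) : ℂ) * ∑' x, c x *
      ((‖La ψ e (k / (2 * T)) x‖ ^ 2 : ℝ) : ℂ) -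
      ((G0 (e0 - e) / (1 + G1 (e0 - e) / G0 (e0 - e) ^ 2 * (2 * Q / k)) : ℝ) : ℂ)‖ ≤ δ)
    (hN : ∀ e, |e0 - e| ≤ X - κ →
      |k / (2 * T) * ∑' x, ‖La ψ e (k / (2 * T)) x‖ ^ 2 - G0 (e0 - e)| ≤ δ) :
    ‖∫ s in Ioi (0 : ℝ), ((Real.exp (-k * s) : ℝ) : ℂ) *
      (Phi ψ c (s * T) - ((Psi X G0 G1 Q s : ℝ) : ℂ))‖ ≤
    (2 * (1 - Real.pi⁻¹ * ∫ E in (-(X - κ))..(X - κ), G0 E) + 4 * X / Real.pi * δ) / k := by
  have hX : 0 < X := by linarith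
  have h1 := step1 h (η := k / (2 * T)) (by positivity) c hc hκ hκX hδ
    (by positivity : 0 ≤ 2 * Q / k) c0 c1 n0 n1 hP hN
  have h2 := edge_cut c0 c1 n0 n1 (2 * Q / k) κ (by positivity) hκ hm
  have h3 := psi_lap hX c0 c1 n0 n1 Q k hQ hk
  -- the change of time
  have e1 : ((2 * (k / (2 * T)) : ℝ) : ℂ) * (∫ s in Ioi (0 : ℝ),
      ((Real.exp (-(2 * (k / (2 * T))) * s) : ℝ) : ℂ) * Phi ψ c s) =
      (k : ℂ) * ∫ s in Ioi (0 : ℝ), ((Real.exp (-k * s) : ℝ) : ℂ) * Phi ψ c (s * T) := by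
    have e2 := integral_comp_mul_right_Ioi (fun s => ((Real.exp (-(2 * (k / (2 * T))) * s) : ℝ) : ℂ) *
      Phi ψ c s) 0 hT
    rw [zero_mul] at e2
    have e3 : ∀ s, ((Real.exp (-(2 * (k / (2 * T))) * (s * T)) : ℝ) : ℂ) * Phi ψ c (s * T) =
        ((Real.exp (-k * s) : ℝ) : ℂ) * Phi ψ c (s * T) := by
      intro s
      congr 3
      field_simp
    simp only [e3] at e2
    rw [e2, Complex.real_smul, ← mul_assoc]
    congr 1
    push_cast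
    have : (T : ℂ) ≠ 0 := by exact_mod_cast hT.ne'
    field_simp
  rw [e1] at h1
  have mPhi : Measurable fun s => Phi ψ c (s * T) := (phi_meas h c).comp (by fun_prop)
  have i1 := mul_bdd_int (exp_int k hk) mPhi (B := 1) fun s _ => phi_le h c hc _
  have mPsi : Measurable fun s => ((Psi X G0 G1 Q s : ℝ) : ℂ) := by
    have := psi_meas (X := X) c0 c1 Q
    fun_prop
  have i2 := mul_bdd_int (exp_int k hk) mPsi (B := 1) fun s hs => by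
    have := psi_bd hX c0 c1 n0 n1 hm Q s hQ hs.le
    rw [Complex.norm_real, Real.norm_of_nonneg this.1]
    exact this.2
  have e4 : ∫ s in Ioi (0 : ℝ), ((Real.exp (-k * s) : ℝ) : ℂ) *
      (Phi ψ c (s * T) - ((Psi X G0 G1 Q s : ℝ) : ℂ)) =
      (∫ s in Ioi (0 : ℝ), ((Real.exp (-k * s) : ℝ) : ℂ) * Phi ψ c (s * T)) -
        ((∫ s in Ioi (0 : ℝ), Real.exp (-k * s) * Psi X G0 G1 Q s : ℝ) : ℂ) := by
    rw [← integral_complex_ofReal]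
    simp only [mul_sub, Complex.ofReal_mul]
    exact integral_sub i1 i2
  rw [le_div_iff₀ hk, e4, mul_comm]
  have e5 : k * ‖(∫ s in Ioi (0 : ℝ), ((Real.exp (-k * s) : ℝ) : ℂ) * Phi ψ c (s * T)) -
        ((∫ s in Ioi (0 : ℝ), Real.exp (-k * s) * Psi X G0 G1 Q s : ℝ) : ℂ)‖ =
      ‖(k : ℂ) * (∫ s in Ioi (0 : ℝ), ((Real.exp (-k * s) : ℝ) : ℂ) * Phi ψ c (s * T)) -
        ((Real.pi⁻¹ * ∫ E in (-X)..X, G0 E / (1 + G1 E / G0 E ^ 2 * (2 * Q / k)) : ℝ) : ℂ)‖ := by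
    rw [← h3]
    push_cast
    rw [← mul_sub, norm_mul, Complex.norm_real, Real.norm_of_nonneg hk.le]
  rw [e5]
  refine (norm_sub_le_norm_sub_add_norm_sub _
    ((Real.pi⁻¹ * ∫ E in (-(X - κ))..(X - κ), G0 E / (1 + G1 E / G0 E ^ 2 * (2 * Q / k)) : ℝ) : ℂ)
    _).trans ?_
  rw [← Complex.ofReal_sub, Complex.norm_real, Real.norm_eq_abs, abs_sub_comm]
  linarith

end Pool.Agent.Q218.AD
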