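import Pool.Agent.TH794.QE.FinA
import Pool.Agent.Q218.AD.Core

/-! The mean square displacement of the evolution from the second moment of the resolvent. -/

set_option autoImplicit false
set_option linter.unusedSectionVars false

open scoped BigOperators Topology InnerProductSpace
open MeasureTheory Filter Set

namespace Pool.Agent.Q218.AD

open Pool.Agent.W788.LD.Spec (S)
open Pool.Agent.H4R2.LO (Zd)
open Pool.Agent.TH794.QD
open Pool.Agent.TH794.QE (Rs QM rs_LS mom_c QM_eq)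

variable {d : ℕ}

theorem qm_le {V : Zd d → ℝ} {a : Zd d} {e η : ℝ} {u : Zd d → ℂ} (h : Rs d V a e η u)
    (hη : 0 < η) (hη1 : η ≤ 1) (j : Fin d) :
    (Summable fun x => ((x j : ℝ) - a j) ^ 2 * ‖u x‖ ^ 2) ∧
      η ^ 2 * QM a j u ≤ 8 * ∑' x, ‖u x‖ ^ 2 := by
  have hV : ∀ x, V x = 0 - 1 * (fun x => -V x) x := fun x => by simp
  obtain ⟨h1, h2⟩ := QM_eq h (fun x => -V x) 0 1 hV hη hη1 j
  refine ⟨h1, ?_⟩
  have hLS := rs_LS h (fun x => -V x) 0 1 hV
  obtain ⟨k0, -, -, -, -, k1, k2, -⟩ := mom_c a hLS hη hη1 j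
  have hz : ∀ x : Zd d, cj j x * (Pi.single (M := fun _ => ℝ) 0 1 : Zd d → ℝ) x = 0 := by
    intro x
    by_cases hx : x = 0
    · rw [hx]
      unfold cj
      simp
    · rw [Pi.single_eq_of_ne hx, mul_zero]
  have hs0 : Summable fun _ : Zd d => (0 : ℝ) ^ 2 := by
    simp only [zero_pow two_ne_zero]
    exact summable_zero
  obtain ⟨-, -, h3⟩ := mom k0 hη j 0 (by simp only [hz]; exact hs0)
    (by simp only [mul_zero]; exact hs0) (by simp only [hz, mul_zero]; simp)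
  rw [mul_zero, zero_add] at h3
  have e3 : ∑' x, (-(u (x + a)).re) ^ 2 + ∑' x, (u (x + a)).im ^ 2 = ∑' x, ‖u x‖ ^ 2 := by
    have t1 : ∑' x, (-(u (x + a)).re) ^ 2 = ∑' x, (-(u x).re) ^ 2 :=
      (Equiv.addRight a).tsum_eq fun x => (-(u x).re) ^ 2
    have t2 : ∑' x, (u (x + a)).im ^ 2 = ∑' x, (u x).im ^ 2 :=
      (Equiv.addRight a).tsum_eq fun x => (u x).im ^ 2
    rw [t1, t2, ← hLS.sr.tsum_add hLS.si]
    refine tsum_congr fun x => ?_
    rw [← Complex.normSq_eq_norm_sq, Complex.normSq_apply]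
    ring
  rw [h2, k1, k2, ← e3]
  exact h3

theorem tr_norm (e : Zd d) : ‖Tr e‖ ≤ 1 :=
  ContinuousLinearMap.opNorm_le_bound _ zero_le_one fun u => by
    rw [one_mul]
    have h1 := hs_sum (Tr e u)
    have h2 : ‖Tr e u‖ ^ 2 = ∑' x, ‖Tr e u x‖ ^ 2 := h1.tsum_eq.symm
    have h3 : ∑' x, ‖Tr e u x‖ ^ 2 = ‖u‖ ^ 2 := tr_tsum e u
    rw [h3] at h2
    exact ((pow_left_inj₀ (norm_nonneg _) (norm_nonneg _) two_ne_zero).1 h2).le

theorem hop_norm (W : Zd d → ℝ) (B : ℝ) (hB : 0 ≤ B) (hW : ∀ x, |W x| ≤ B) :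
    ‖Hop W B hB hW‖ ≤ B + 2 * d := by
  unfold Hop
  refine (norm_sub_le _ _).trans (add_le_add ?_ ?_)
  · refine ContinuousLinearMap.opNorm_le_bound _ hB fun u => ?_
    exact hmk_le _ (mv_sum W B hW u).1 _ (by positivity) (mv_sum W B hW u).2
  · refine (norm_sum_le _ _).trans ?_
    have h1 : ∀ i ∈ (Finset.univ : Finset (Fin d)),
        ‖(Tr (Pi.single i 1) + Tr (-Pi.single i 1) : HS d →L[ℂ] HS d)‖ ≤ 2 := by
      intro i _
      refine (norm_add_le _ _).trans ?_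
      have := tr_norm (d := d) (Pi.single i 1)
      have := tr_norm (d := d) (-Pi.single i 1)
      linarith
    refine (Finset.sum_le_sum h1).trans (le_of_eq ?_)
    rw [Finset.sum_const, Finset.card_univ, Fintype.card_fin, nsmul_eq_mul]
    ring

/-- **away from the spectrum** -/
theorem off_norm {V : Zd d → ℝ} {a : Zd d} {e η c0 c : ℝ} {u : Zd d → ℂ} (h : Rs d V a e η u)
    (hc : 0 ≤ c) (hV : ∀ x, |V x - c0| ≤ c) (hE : 2 * d + c < |c0 - e|) :
    ∑' x, ‖u x‖ ^ 2 ≤ (1 / (|c0 - e| - 2 * d - c)) ^ 2 := by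
  obtain ⟨U, hU⟩ : ∃ U : HS d, U = hmk u h.sq := ⟨_, rfl⟩
  have hUx : ∀ x, U x = u x := fun x => by rw [hU]; rfl
  have hs1 : HasSum (fun x : Zd d => ‖if x = a then (1 : ℂ) else 0‖ ^ 2) 1 := by
    have := hasSum_single (f := fun x : Zd d => ‖if x = a then (1 : ℂ) else 0‖ ^ 2) a
      (fun x hx => by
        rw [if_neg hx]
        simp)
    simp only [if_true, norm_one, one_pow] at this
    exact this
  obtain ⟨δ, hδ⟩ : ∃ δ : HS d, δ = hmk (fun x => if x = a then (1 : ℂ) else 0) hs1.summable :=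
    ⟨_, rfl⟩
  have hδ1 : ‖δ‖ = 1 := by
    have h1 := hs_sum δ
    rw [hδ] at h1 ⊢
    have h2 := h1.unique hs1
    have h3 : ‖hmk (fun x => if x = a then (1 : ℂ) else 0) hs1.summable‖ ^ 2 = 1 ^ 2 := by
      rw [h2, one_pow]
    exact (pow_left_inj₀ (norm_nonneg _) zero_le_one two_ne_zero).1 h3
  obtain ⟨A, hA⟩ : ∃ A : HS d →L[ℂ] HS d, A = Hop (fun x => V x - c0) c hc hV := ⟨_, rfl⟩
  have heq : ((c0 - e : ℝ) - (η : ℂ) * Complex.I) • U = δ - A U := by
    ext x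
    have h1 := h.eq x
    have h2 : (δ - A U) x = δ x - A U x := rfl
    have h3 : (((c0 - e : ℝ) - (η : ℂ) * Complex.I) • U) x =
        ((c0 - e : ℝ) - (η : ℂ) * Complex.I) * U x := rfl
    rw [h2, h3, hA, Hop_apply, hUx]
    have h4 : δ x = if x = a then 1 else 0 := by rw [hδ]; rfl
    have h5 : (fun y => U y) = u := by
      funext y
      exact hUx y
    rw [h4, h5, ← h1]
    push_cast
    ring
  have h6 : |c0 - e| * ‖U‖ ≤ 1 + (c + 2 * d) * ‖U‖ := by
    have h7 : |c0 - e| ≤ ‖((c0 - e : ℝ) - (η : ℂ) * Complex.I : ℂ)‖ := by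
      have h8 := Complex.abs_re_le_norm ((c0 - e : ℝ) - (η : ℂ) * Complex.I : ℂ)
      simpa using h8
    calc |c0 - e| * ‖U‖ ≤ ‖((c0 - e : ℝ) - (η : ℂ) * Complex.I : ℂ)‖ * ‖U‖ :=
          mul_le_mul_of_nonneg_right h7 (norm_nonneg _)
      _ = ‖δ - A U‖ := by rw [← norm_smul, heq]
      _ ≤ ‖δ‖ + ‖A U‖ := norm_sub_le _ _
      _ ≤ 1 + (c + 2 * d) * ‖U‖ := by
        rw [hδ1]
        have h9 : ‖A U‖ ≤ (c + 2 * d) * ‖U‖ := by
          rw [hA]
          exact ContinuousLinearMap.le_of_opNorm_le _ (hop_norm _ c hc hV) U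
        linarith
  have h10 : 0 < |c0 - e| - 2 * d - c := by linarith
  have h11 : ‖U‖ ≤ 1 / (|c0 - e| - 2 * d - c) := by
    rw [le_div_iff₀ h10]
    nlinarith
  have h12 : ∑' x, ‖u x‖ ^ 2 = ‖U‖ ^ 2 := by
    rw [← (hs_sum U).tsum_eq]
    exact tsum_congr fun x => by rw [hUx]
  rw [h12]
  exact pow_le_pow_left₀ (norm_nonneg _) h11 2

/-- the tail integral -/
theorem tail_int (R : ℝ) (hR : 0 < R) :
    IntegrableOn (fun y : ℝ => 16 / y ^ 2) {y : ℝ | R < |y|} ∧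
    ∫ y in {y : ℝ | R < |y|}, 16 / y ^ 2 ≤ 32 / R := by
  have e0 : ∀ y : ℝ, y ∈ Ioi R → 16 / y ^ 2 = 16 * y ^ (-2 : ℝ) := by
    intro y hy
    have hy0 : 0 < y := hR.trans hy
    rw [Real.rpow_neg hy0.le, div_eq_mul_inv]
    norm_num
  have i1 : IntegrableOn (fun y : ℝ => 16 / y ^ 2) (Ioi R) := by
    refine IntegrableOn.congr_fun ((integrableOn_Ioi_rpow_of_lt (by norm_num : (-2 : ℝ) < -1)
      hR).const_mul 16) (fun y hy => (e0 y hy).symm) measurableSet_Ioi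
  have v1 : ∫ y in Ioi R, 16 / y ^ 2 = 16 / R := by
    rw [setIntegral_congr_fun measurableSet_Ioi e0, integral_const_mul,
      integral_Ioi_rpow_of_lt (by norm_num) hR]
    rw [show (-2 : ℝ) + 1 = -1 by norm_num, Real.rpow_neg_one]
    field_simp
  have hset : {y : ℝ | R < |y|} = Iio (-R) ∪ Ioi R := by
    ext y
    simp only [Set.mem_ofPred_eq, Set.mem_union, Set.mem_Iio, Set.mem_Ioi, lt_abs]
    constructor
    · rintro (h | h)
      · exact Or.inr h
      · exact Or.inl (by linarith)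
    · rintro (h | h)
      · exact Or.inr (by linarith)
      · exact Or.inl h
  have i2 : IntegrableOn (fun y : ℝ => 16 / y ^ 2) (Iio (-R)) := by
    have h1 := (i1.comp_neg : IntegrableOn (fun y : ℝ => 16 / (-y) ^ 2) (-(Ioi R)))
    rw [Set.neg_Ioi] at h1
    refine h1.congr_fun (fun y _ => ?_) measurableSet_Iio
    simp only
    rw [neg_sq]
  have v2 : ∫ y in Iio (-R), 16 / y ^ 2 = 16 / R := by
    rw [← integral_Iic_eq_integral_Iio, ← v1, ← integral_comp_neg_Ioi R]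
    refine integral_congr_ae (Filter.Eventually.of_forall fun y => ?_)
    simp only
    rw [neg_sq]
  have hd : Disjoint (Iio (-R)) (Ioi R) := by
    rw [Set.disjoint_left]
    intro y h1 h2
    simp only [Set.mem_Iio, Set.mem_Ioi] at h1 h2
    linarith
  rw [hset]
  refine ⟨i2.union i1, ?_⟩
  rw [setIntegral_union hd measurableSet_Ioi i2 i1, v1, v2]
  exact le_of_eq (by ring)

end Pool.Agent.Q218.AD
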