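import Pool.Agent.Q218.AD.Msd
import Pool.Agent.Q218.AD.Main

/-! The mean square displacement of the evolution from the second moment of the resolvent. -/

set_option autoImplicit false
set_option linter.unusedSectionVars false

open scoped BigOperators Topology ENNReal
open MeasureTheory Filter Set

namespace Pool.Agent.Q218.AD

open Pool.Agent.H4R2.LO (Zd)
open Pool.Agent.TH794.QD
open Pool.Agent.TH794.QE (Rs QM)

variable {d : ℕ} {V : Zd d → ℝ} {a : Zd d} {ψ : ℝ → Zd d → ℂ}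

/-- the second moment of the Laplace transform -/
noncomputable def qe (ψ : ℝ → Zd d → ℂ) (a : Zd d) (j : Fin d) (η e : ℝ) : ℝ :=
  ∑' x : Zd d, ((x j : ℝ) - a j) ^ 2 * ‖La ψ e η x‖ ^ 2

/-- the mean square displacement -/
noncomputable def Md (ψ : ℝ → Zd d → ℂ) (a : Zd d) (j : Fin d) (s : ℝ) : ℝ :=
  ∑' x : Zd d, ((x j : ℝ) - a j) ^ 2 * ‖ψ s x‖ ^ 2

theorem rs_La (h : Sol d V a ψ) {η : ℝ} (hη : 0 < η) (e : ℝ) :
    Rs d V a e η (fun x => Complex.I * La ψ e η x) := ⟨La_sum h e η hη, La_eq h e η hη⟩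

theorem nI (ψ : ℝ → Zd d → ℂ) (e η : ℝ) (x : Zd d) :
    ‖Complex.I * La ψ e η x‖ ^ 2 = ‖La ψ e η x‖ ^ 2 := by
  rw [norm_mul, Complex.norm_I, one_mul]

theorem qe_eq (ψ : ℝ → Zd d → ℂ) (a : Zd d) (j : Fin d) (η e : ℝ) :
    QM a j (fun x => Complex.I * La ψ e η x) = qe ψ a j η e := by
  unfold QM qe
  simp only [nI]

theorem qe_bd (h : Sol d V a ψ) {η : ℝ} (hη : 0 < η) (hη1 : η ≤ 1) (j : Fin d) (e : ℝ) :
    (Summable fun x => ((x j : ℝ) - a j) ^ 2 * ‖La ψ e η x‖ ^ 2) ∧ 0 ≤ qe ψ a j η e ∧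
      η ^ 2 * qe ψ a j η e ≤ 8 * ∑' x, ‖La ψ e η x‖ ^ 2 := by
  obtain ⟨h1, h2⟩ := qm_le (rs_La h hη e) hη hη1 j
  rw [qe_eq] at h2
  simp only [nI] at h1 h2
  exact ⟨h1, tsum_nonneg fun x => by positivity, h2⟩

theorem qe_meas (h : Sol d V a ψ) {η : ℝ} (hη : 0 < η) (j : Fin d) :
    Measurable fun e => qe ψ a j η e := by
  unfold qe
  refine Measurable.tsum fun x => ?_
  have := (La_cont h hη x).measurable
  fun_prop

theorem N_int (h : Sol d V a ψ) {η : ℝ} (hη : 0 < η) :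
    Integrable fun e : ℝ => ∑' x, ‖La ψ e η x‖ ^ 2 := by
  have hm : Measurable fun e : ℝ => ∑' x, ‖La ψ e η x‖ ^ 2 := by
    refine Measurable.tsum fun x => ?_
    have := (La_cont h hη x).measurable
    fun_prop
  by_contra hcon
  have h1 := Bt_total h hη Set.univ
  rw [Measure.restrict_univ, integral_undef hcon] at h1
  have h2 : ∀ x, Bt ψ η Set.univ x = 2 * Real.pi * At ψ η x := by
    intro x
    unfold Bt
    rw [Measure.restrict_univ, (La_sq h hη x).2]
  rw [show Bt ψ η Set.univ = fun x => 2 * Real.pi * At ψ η x from funext h2] at h1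
  have h3 := (At_total h hη).mul_left (2 * Real.pi)
  have h4 := h1.unique h3
  have := Real.pi_pos
  have h5 : 0 < 2 * Real.pi * (2 * η)⁻¹ := by positivity
  linarith

theorem qe_int (h : Sol d V a ψ) {η : ℝ} (hη : 0 < η) (hη1 : η ≤ 1) (j : Fin d) :
    Integrable fun e => qe ψ a j η e := by
  refine Integrable.mono' ((N_int h hη).const_mul (8 / η ^ 2)) (qe_meas h hη j).aestronglyMeasurable
    (Filter.Eventually.of_forall fun e => ?_)
  obtain ⟨-, h1, h2⟩ := qe_bd h hη hη1 j e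
  rw [Real.norm_of_nonneg h1, div_mul_eq_mul_div, le_div_iff₀ (by positivity)]
  linarith

/-- the sum of the energy integrals -/
theorem qe_sum (h : Sol d V a ψ) {η : ℝ} (hη : 0 < η) (hη1 : η ≤ 1) (j : Fin d) :
    HasSum (fun x : Zd d => ((x j : ℝ) - a j) ^ 2 * (2 * Real.pi * At ψ η x))
      (∫ e, qe ψ a j η e) := by
  have hi : ∀ x : Zd d, Integrable fun e => ((x j : ℝ) - a j) ^ 2 * ‖La ψ e η x‖ ^ 2 :=
    fun x => (La_sq h hη x).1.const_mul _
  have hn : ∀ x : Zd d, ∫ e, ‖((x j : ℝ) - a j) ^ 2 * ‖La ψ e η x‖ ^ 2‖ =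
      ((x j : ℝ) - a j) ^ 2 * (2 * Real.pi * At ψ η x) := by
    intro x
    rw [← (La_sq h hη x).2, ← integral_const_mul]
    refine integral_congr_ae (Filter.Eventually.of_forall fun e => ?_)
    simp only
    rw [Real.norm_of_nonneg (by positivity)]
  have hs : Summable fun x : Zd d => ∫ e, ‖((x j : ℝ) - a j) ^ 2 * ‖La ψ e η x‖ ^ 2‖ := by
    refine summable_of_sum_le (c := ∫ e, qe ψ a j η e)
      (fun x => integral_nonneg fun e => norm_nonneg _) fun F => ?_
    rw [← integral_finsetSum _ fun x _ => (hi x).norm]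
    refine integral_mono (integrable_finsetSum _ fun x _ => (hi x).norm) (qe_int h hη hη1 j)
      fun e => ?_
    simp only
    have h1 : ∀ x : Zd d, ‖((x j : ℝ) - a j) ^ 2 * ‖La ψ e η x‖ ^ 2‖ =
        ((x j : ℝ) - a j) ^ 2 * ‖La ψ e η x‖ ^ 2 := fun x => Real.norm_of_nonneg (by positivity)
    rw [Finset.sum_congr rfl fun x _ => h1 x]
    exact (qe_bd h hη hη1 j e).1.sum_le_tsum F fun x _ => by positivity
  have h1 := hasSum_integral_of_summable_integral_norm hi hs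
  have e1 : (fun x : Zd d => ∫ e, ((x j : ℝ) - a j) ^ 2 * ‖La ψ e η x‖ ^ 2) =
      fun x : Zd d => ((x j : ℝ) - a j) ^ 2 * (2 * Real.pi * At ψ η x) := by
    funext x
    rw [integral_const_mul, (La_sq h hη x).2]
  rw [e1] at h1
  exact h1

/-- **the mean square displacement and the second moment of the resolvent** -/
theorem msd_id (h : Sol d V a ψ) {η : ℝ} (hη : 0 < η) (hη1 : η ≤ 1) (j : Fin d) :
    (∀ᵐ s ∂(volume.restrict (Ioi (0 : ℝ))),
      Summable fun x : Zd d => ((x j : ℝ) - a j) ^ 2 * ‖ψ s x‖ ^ 2) ∧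
    2 * Real.pi * (∫ s in Ioi (0 : ℝ), Real.exp (-(2 * η) * s) * Md ψ a j s) =
      ∫ e, qe ψ a j η e := by
  have hpi := Real.pi_pos
  have hi : ∀ x : Zd d, Integrable (fun s => ((x j : ℝ) - a j) ^ 2 *
      (Real.exp (-(2 * η) * s) * ‖ψ s x‖ ^ 2)) (volume.restrict (Ioi (0 : ℝ))) :=
    fun x => (At_int h hη x).const_mul _
  have hn : ∀ x : Zd d, ∫ s in Ioi (0 : ℝ), ‖((x j : ℝ) - a j) ^ 2 *
      (Real.exp (-(2 * η) * s) * ‖ψ s x‖ ^ 2)‖ = ((x j : ℝ) - a j) ^ 2 * At ψ η x := by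
    intro x
    unfold At
    rw [← integral_const_mul]
    refine integral_congr_ae (Filter.Eventually.of_forall fun e => ?_)
    simp only
    rw [Real.norm_of_nonneg (by positivity)]
  have hq := qe_sum h hη hη1 j
  have hs : Summable fun x : Zd d => ∫ s in Ioi (0 : ℝ), ‖((x j : ℝ) - a j) ^ 2 *
      (Real.exp (-(2 * η) * s) * ‖ψ s x‖ ^ 2)‖ := by
    simp only [hn]
    refine (hq.summable.mul_left (2 * Real.pi)⁻¹).congr fun x => ?_
    field_simp
  have h1 := hasSum_integral_of_summable_integral_norm hi hs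
  have e1 : (fun x : Zd d => ∫ s in Ioi (0 : ℝ), ((x j : ℝ) - a j) ^ 2 *
      (Real.exp (-(2 * η) * s) * ‖ψ s x‖ ^ 2)) =
      fun x : Zd d => ((x j : ℝ) - a j) ^ 2 * At ψ η x := by
    funext x
    rw [integral_const_mul]
    rfl
  rw [e1] at h1
  have e2 : (∫ s in Ioi (0 : ℝ), ∑' x : Zd d, ((x j : ℝ) - a j) ^ 2 *
      (Real.exp (-(2 * η) * s) * ‖ψ s x‖ ^ 2)) =
      ∫ s in Ioi (0 : ℝ), Real.exp (-(2 * η) * s) * Md ψ a j s := by
    refine integral_congr_ae (Filter.Eventually.of_forall fun s => ?_)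
    simp only
    unfold Md
    rw [← tsum_mul_left]
    exact tsum_congr fun x => by ring
  rw [e2] at h1
  constructor
  · have h3 : ∀ᵐ s ∂(volume.restrict (Ioi (0 : ℝ))), Summable fun x : Zd d =>
        ‖((x j : ℝ) - a j) ^ 2 * (Real.exp (-(2 * η) * s) * ‖ψ s x‖ ^ 2)‖ := by
      refine summable_norm_of_tsum_eLpNorm_ne_top le_rfl (fun x => (hi x).aestronglyMeasurable) ?_
      have h4 : ∀ x : Zd d, eLpNorm (fun s => ((x j : ℝ) - a j) ^ 2 *
          (Real.exp (-(2 * η) * s) * ‖ψ s x‖ ^ 2)) 1 (volume.restrict (Ioi (0 : ℝ))) =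
          ENNReal.ofReal (((x j : ℝ) - a j) ^ 2 * At ψ η x) := by
        intro x
        rw [eLpNorm_one_eq_lintegral_enorm, ← hn x, ofReal_integral_norm_eq_lintegral_enorm (hi x)]
      simp only [h4]
      rw [← ENNReal.ofReal_tsum_of_nonneg (fun x => mul_nonneg (sq_nonneg _) (At_nonneg ψ η x))
        h1.summable]
      exact ENNReal.ofReal_ne_top
    filter_upwards [h3] with s hs
    have h5 := (hs.mul_left (Real.exp (2 * η * s)))
    refine h5.congr fun x => ?_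
    rw [Real.norm_of_nonneg (by positivity), mul_left_comm, ← mul_assoc (Real.exp _),
      ← Real.exp_add]
    have : 2 * η * s + -(2 * η) * s = 0 := by ring
    rw [this, Real.exp_zero, one_mul]
  · have h2 := h1.mul_left (2 * Real.pi)
    have h3 : HasSum (fun x : Zd d => 2 * Real.pi * (((x j : ℝ) - a j) ^ 2 * At ψ η x))
        (∫ e, qe ψ a j η e) := by
      refine hq.congr_fun fun x => ?_
      ring
    exact h2.unique h3

end Pool.Agent.Q218.AD
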