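import Pool.Agent.Q218.AD.Msd2

/-! The mean square displacement of the evolution: the energies away from the spectrum. -/

set_option autoImplicit false
set_option linter.unusedSectionVars false

open scoped BigOperators Topology ENNReal
open MeasureTheory Filter Set

namespace Pool.Agent.Q218.AD

open Pool.Agent.H4R2.LO (Zd)
open Pool.Agent.TH794.QD
open Pool.Agent.TH794.QE (Rs QM)

variable {d : ℕ} {V : Zd d → ℝ} {a : Zd d} {ψ : ℝ → Zd d → ℂ}

theorem N_off (h : Sol d V a ψ) {η : ℝ} (hη : 0 < η) {c0 c : ℝ} (hc : 0 ≤ c) (hc1 : c ≤ 1 / 2)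
    (hV : ∀ x, |V x - c0| ≤ c) (hd : 3 ≤ d) (e : ℝ) (he : 3 * d < |c0 - e|) :
    ∑' x, ‖La ψ e η x‖ ^ 2 ≤ 16 / (c0 - e) ^ 2 := by
  have hd' : (3 : ℝ) ≤ d := by exact_mod_cast hd
  have h1 := off_norm (rs_La h hη e) hc hV (by linarith)
  simp only [nI] at h1
  refine h1.trans ?_
  have h2 : |c0 - e| / 4 ≤ |c0 - e| - 2 * d - c := by linarith
  have h3 : 0 < |c0 - e| / 4 := by
    have : 0 < |c0 - e| := by linarith
    linarith
  rw [← sq_abs (c0 - e)]
  calc (1 / (|c0 - e| - 2 * d - c)) ^ 2 ≤ (1 / (|c0 - e| / 4)) ^ 2 := by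
        apply pow_le_pow_left₀ (by have := h3.trans_le h2; positivity)
        exact one_div_le_one_div_of_le h3 h2
    _ = 16 / |c0 - e| ^ 2 := by
        field_simp
        norm_num

/-- the energies away from the spectrum -/
theorem tail_qe (h : Sol d V a ψ) {η : ℝ} (hη : 0 < η) (hη1 : η ≤ 1) {c0 c : ℝ} (hc : 0 ≤ c)
    (hc1 : c ≤ 1 / 2) (hV : ∀ x, |V x - c0| ≤ c) (hd : 3 ≤ d) (j : Fin d) :
    η ^ 2 * ∫ e in (Icc (c0 - 3 * d) (c0 + 3 * d))ᶜ, qe ψ a j η e ≤ 29 := by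
  have hd' : (3 : ℝ) ≤ d := by exact_mod_cast hd
  obtain ⟨R, hR⟩ : ∃ R : ℝ, R = 3 * d := ⟨_, rfl⟩
  have hR9 : 9 ≤ R := by rw [hR]; linarith
  have hR0 : 0 < R := by linarith
  rw [← hR]
  obtain ⟨i1, v1⟩ := tail_int R hR0
  have hmem : ∀ e, e ∈ (Icc (c0 - R) (c0 + R))ᶜ ↔ R < |c0 - e| := by
    intro e
    rw [Set.mem_compl_iff, Set.mem_Icc, ← not_le, abs_le, not_iff_not]
    constructor
    · rintro ⟨h1, h2⟩
      constructor <;> linarith
    · rintro ⟨h1, h2⟩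
      constructor <;> linarith
  obtain ⟨f, hf⟩ : ∃ f : ℝ → ℝ, f = {y : ℝ | R < |y|}.indicator fun y => 16 / y ^ 2 := ⟨_, rfl⟩
  have hms : MeasurableSet {y : ℝ | R < |y|} := measurableSet_lt measurable_const (by fun_prop)
  have fi : Integrable f := by
    rw [hf, integrable_indicator_iff hms]
    exact i1
  have fv : ∫ y, f y ≤ 32 / R := by
    rw [hf, integral_indicator hms]
    exact v1
  have f0 : ∀ y, 0 ≤ f y := by
    intro y
    rw [hf]
    exact Set.indicator_nonneg (fun y _ => by positivity) y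
  have fi' : Integrable fun e => f (c0 - e) := fi.comp_sub_left c0
  have fv' : ∫ e, f (c0 - e) = ∫ y, f y := integral_sub_left_eq_self f volume c0
  have hJm : MeasurableSet (Icc (c0 - R) (c0 + R))ᶜ := measurableSet_Icc.compl
  have b1 : ∫ e in (Icc (c0 - R) (c0 + R))ᶜ, qe ψ a j η e ≤
      ∫ e in (Icc (c0 - R) (c0 + R))ᶜ, 8 / η ^ 2 * f (c0 - e) := by
    refine setIntegral_mono_on (qe_int h hη hη1 j).integrableOn (fi'.const_mul _).integrableOn hJm
      fun e he => ?_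
    have he' := (hmem e).1 he
    obtain ⟨-, -, h2⟩ := qe_bd h hη hη1 j e
    have h3 := N_off h hη hc hc1 hV hd e (by rw [← hR]; exact he')
    have h4 : f (c0 - e) = 16 / (c0 - e) ^ 2 := by
      rw [hf]
      exact Set.indicator_of_mem (by exact he') _
    rw [h4, div_mul_eq_mul_div, le_div_iff₀ (by positivity)]
    linarith
  have b2 : ∫ e in (Icc (c0 - R) (c0 + R))ᶜ, 8 / η ^ 2 * f (c0 - e) ≤ 8 / η ^ 2 * (32 / R) := by
    rw [integral_const_mul]
    apply mul_le_mul_of_nonneg_left _ (by positivity)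
    calc ∫ e in (Icc (c0 - R) (c0 + R))ᶜ, f (c0 - e) ≤ ∫ e, f (c0 - e) :=
          setIntegral_le_integral fi' (Filter.Eventually.of_forall fun e => f0 _)
      _ ≤ 32 / R := by rw [fv']; exact fv
  have b3 := mul_le_mul_of_nonneg_left (b1.trans b2) (sq_nonneg η)
  refine b3.trans ?_
  have e1 : η ^ 2 * (8 / η ^ 2 * (32 / R)) = 256 / R := by
    field_simp
    norm_num
  rw [e1, div_le_iff₀ hR0]
  linarith

/-- **the mean square displacement** -/
theorem msd_main (h : Sol d V a ψ) {η : ℝ} (hη : 0 < η) (hη1 : η ≤ 1) {c0 c : ℝ} (hc : 0 ≤ c)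
    (hc1 : c ≤ 1 / 2) (hV : ∀ x, |V x - c0| ≤ c) (hd : 3 ≤ d) (j : Fin d) {s2 δ : ℝ}
    (hs2 : 0 ≤ s2) (hδ : 0 ≤ δ) (P : ℝ → ℝ) (hPc : Continuous P)
    (hP : ∀ e, |c0 - e| ≤ 3 * d → |η ^ 2 * s2 * qe ψ a j η e - 2 * P (c0 - e)| ≤ δ) :
    |η * s2 * (2 * η * ∫ s in Ioi (0 : ℝ), Real.exp (-(2 * η) * s) * Md ψ a j s) -
      2 / Real.pi * ∫ E in (-(3 * (d : ℝ)))..(3 * (d : ℝ)), P E| ≤
    (6 * d * δ + 29 * s2) / Real.pi := by
  have hpi := Real.pi_pos
  have hid := (msd_id h hη hη1 j).2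
  obtain ⟨I, hI⟩ : ∃ I, I = ∫ s in Ioi (0 : ℝ), Real.exp (-(2 * η) * s) * Md ψ a j s := ⟨_, rfl⟩
  rw [← hI] at hid ⊢
  obtain ⟨R, hR⟩ : ∃ R : ℝ, R = 3 * d := ⟨_, rfl⟩
  have hR0 : 0 ≤ R := by rw [hR]; positivity
  have hqi := qe_int h hη hη1 j
  have htail := tail_qe h hη hη1 hc hc1 hV hd j
  rw [← hR] at htail hP ⊢
  obtain ⟨J, hJ⟩ : ∃ J : Set ℝ, J = Icc (c0 - R) (c0 + R) := ⟨_, rfl⟩
  have hJm : MeasurableSet J := by rw [hJ]; exact measurableSet_Icc
  rw [← hJ] at htail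
  have hJe : ∀ e ∈ J, |c0 - e| ≤ R := by
    intro e he
    rw [hJ] at he
    rw [abs_le]
    constructor <;> linarith [he.1, he.2]
  have hvol : volume.real J = 2 * R := by
    rw [hJ, Real.volume_real_Icc_of_le (by linarith)]
    ring
  have hfin : volume J < ⊤ := by
    rw [hJ]
    exact measure_Icc_lt_top
  have hsplit := integral_add_compl hJm hqi
  have iq : IntegrableOn (fun e => η ^ 2 * s2 * qe ψ a j η e) J := (hqi.const_mul _).integrableOn
  have iP : IntegrableOn (fun e => 2 * P (c0 - e)) J := by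
    rw [hJ]
    exact (Continuous.const_mul (hPc.comp (by fun_prop)) 2).integrableOn_Icc
  have b1 : |η ^ 2 * s2 * (∫ e in J, qe ψ a j η e) - 2 * ∫ E in (-R)..R, P E| ≤ 2 * R * δ := by
    have e1 : ∫ e in J, 2 * P (c0 - e) = 2 * ∫ E in (-R)..R, P E := by
      rw [integral_const_mul, hJ, set_shift c0 R hR0 P]
    rw [← e1, ← integral_const_mul, ← integral_sub iq iP, ← Real.norm_eq_abs]
    refine (norm_setIntegral_le_of_norm_le_const (C := δ) hfin fun e he => ?_).trans ?_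
    · rw [Real.norm_eq_abs]
      exact hP e (hJe e he)
    · rw [hvol]
      linarith
  have b2 : 0 ≤ ∫ e in Jᶜ, qe ψ a j η e :=
    integral_nonneg fun e => (qe_bd h hη hη1 j e).2.1
  have e2 : η * s2 * (2 * η * I) = η ^ 2 * s2 * (∫ e, qe ψ a j η e) / Real.pi := by
    rw [← hid]
    field_simp
  have e3 : 2 / Real.pi * ∫ E in (-R)..R, P E = (2 * ∫ E in (-R)..R, P E) / Real.pi := by
    ring
  rw [e2, e3, ← hsplit, ← sub_div, abs_div, abs_of_pos hpi]
  apply div_le_div_of_nonneg_right _ hpi.le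
  have e4 : η ^ 2 * s2 * ((∫ e in J, qe ψ a j η e) + ∫ e in Jᶜ, qe ψ a j η e) -
      2 * ∫ E in (-R)..R, P E =
      (η ^ 2 * s2 * (∫ e in J, qe ψ a j η e) - 2 * ∫ E in (-R)..R, P E) +
        s2 * (η ^ 2 * ∫ e in Jᶜ, qe ψ a j η e) := by ring
  rw [e4]
  refine (abs_add_le _ _).trans ?_
  have b3 : |s2 * (η ^ 2 * ∫ e in Jᶜ, qe ψ a j η e)| ≤ s2 * 29 := by
    rw [abs_of_nonneg (by positivity)]
    exact mul_le_mul_of_nonneg_left htail hs2
  have e5 : 2 * R * δ = 6 * d * δ := by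
    rw [hR]
    ring
  linarith

end Pool.Agent.Q218.AD
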