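import Pool.Agent.TH794.QE.FinB
import Pool.Agent.TH794.QE.FreeF
import Pool.Agent.TH794.QD.Par6
import Pool.Agent.Q218.AD.Msd3
import Pool.Agent.Q218.AD.Fin
import Pool.Agent.Q218.AD.Dens

/-! The mean square displacement of the evolution at weak disorder. -/

set_option autoImplicit false
set_option linter.unusedSectionVars false

open scoped BigOperators Topology ENNReal
open MeasureTheory Filter Set

namespace Pool.Agent.Q218.AD

open Pool.Agent.W788.BK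
open Pool.Agent.H4R2.LO (Zd)
open Pool.Agent.TH794.QD
open Pool.Agent.TH794.QE (Rs QM Eng finE Pg)

/-- the profile of the second moment is Lipschitz in the scale -/
theorem pg_u (γ0 γ1 : ℝ → ℂ) (u u' E : ℝ) (hu : 0 < u) (hu' : 0 < u')
    (h0 : 0 ≤ (γ1 E).im) (h1 : (γ1 E).im ≤ (γ0 E).im) :
    |Pg γ0 γ1 u E - Pg γ0 γ1 u' E| ≤ |u - u'| / u' := by
  unfold Pg
  obtain ⟨a, ha⟩ : ∃ a, a = (γ1 E).im := ⟨_, rfl⟩
  obtain ⟨g, hg⟩ : ∃ g, g = (γ0 E).im := ⟨_, rfl⟩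
  rw [← ha] at h0 h1 ⊢
  rw [← hg] at h1 ⊢
  have hg0 : 0 ≤ g := h0.trans h1
  have hp : 0 < u + g := by linarith
  have hp' : 0 < u' + g := by linarith
  have e1 : a / (u + g) - a / (u' + g) = a / (u + g) * ((u' - u) / (u' + g)) := by
    field_simp
    ring
  rw [e1, abs_mul, abs_of_nonneg (div_nonneg h0 hp.le), abs_div, abs_of_pos hp', abs_sub_comm u' u]
  have h2 : a / (u + g) ≤ 1 := by
    rw [div_le_one hp]
    linarith
  have h3 : |u - u'| / (u' + g) ≤ |u - u'| / u' := by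
    apply div_le_div_of_nonneg_left (abs_nonneg _) hu'
    linarith
  calc a / (u + g) * (|u - u'| / (u' + g)) ≤ 1 * (|u - u'| / u') := by gcongr
    _ = _ := one_mul _

/-- the mean square displacement, as a function of the ratio `u` of the scale and `λ² V` -/
noncomputable def ms (d : ℕ) (u : ℝ) : ℝ :=
  2 / Real.pi * ∫ E in (-(2 * (d : ℝ)))..(2 * (d : ℝ)),
    (GF (F1 d) (E : ℂ)).im / (u + (GF (F0 d) (E : ℂ)).im)

theorem ms_eq (hO : S_OSC) (d : ℕ) (hd : 3 ≤ d) (u : ℝ) (hu : 0 < u) :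
    2 / Real.pi * ∫ E in (-(3 * (d : ℝ)))..(3 * (d : ℝ)),
      (GF (F1 d) (E : ℂ)).im / (u + (GF (F0 d) (E : ℂ)).im) = ms d u := by
  unfold ms
  congr 1
  have hd0 : (0 : ℝ) ≤ d := Nat.cast_nonneg d
  obtain ⟨P, hP⟩ : ∃ P : ℝ → ℝ, P = fun E : ℝ => (GF (F1 d) (E : ℂ)).im /
    (u + (GF (F0 d) (E : ℂ)).im) := ⟨_, rfl⟩
  have hPc : Continuous P := by
    rw [hP]
    refine Continuous.div (gf1_cont hO d hd) (continuous_const.add (gf0_cont hO d hd)) fun E => ?_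
    have := GF_im hO d hd (E : ℂ) (by simp)
    linarith [this.1, this.2]
  have hz : ∀ E : ℝ, 2 * d < |E| → P E = 0 := by
    intro E hE
    have h1 := GF_im hO d hd (E : ℂ) (by simp)
    rw [dos_zero hO d hd E hE] at h1
    have h2 : (GF (F1 d) (E : ℂ)).im = 0 := le_antisymm h1.2 h1.1
    rw [hP]
    simp only
    rw [h2, zero_div]
  have e1 : ∀ a b : ℝ, ∫ E in a..b, (GF (F1 d) (E : ℂ)).im / (u + (GF (F0 d) (E : ℂ)).im) =
      ∫ E in a..b, P E := by
    intro a b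
    rw [hP]
  rw [e1, e1, ← intervalIntegral.integral_add_adjacent_intervals
    (hPc.intervalIntegrable (-(3 * (d : ℝ))) (-(2 * (d : ℝ)))) (hPc.intervalIntegrable _ _),
    ← intervalIntegral.integral_add_adjacent_intervals
    (hPc.intervalIntegrable (-(2 * (d : ℝ))) (2 * (d : ℝ))) (hPc.intervalIntegrable _ (3 * (d : ℝ)))]
  have a1 : ∫ E in (-(3 * (d : ℝ)))..(-(2 * (d : ℝ))), P E = 0 := by
    rw [intervalIntegral.integral_of_le (by linarith), integral_Ioc_eq_integral_Ioo]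
    refine (setIntegral_congr_fun measurableSet_Ioo fun E hE => ?_).trans (integral_zero _ _)
    apply hz
    rw [abs_of_nonpos (by linarith [hE.2])]
    linarith [hE.2]
  have a2 : ∫ E in (2 * (d : ℝ))..(3 * (d : ℝ)), P E = 0 := by
    rw [intervalIntegral.integral_of_le (by linarith)]
    refine (setIntegral_congr_fun measurableSet_Ioc fun E hE => ?_).trans (integral_zero _ _)
    apply hz
    rw [abs_of_nonneg (by linarith [hE.1])]
    exact hE.1
  rw [a1, a2, zero_add, add_zero]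

/-- **the mean square displacement at weak disorder** -/
theorem msd_fin (hES : S_ES) (hTH : S_THIRD) (hFL : S_FLUCT) (hIN : S_INV)
    (hSU : S_SUP) (hQB : S_QB) (hLO : S_LOW) (hAD : S_ADM) (hFA : S_FAC) (hO : S_OSC)
    (d : ℕ) (hd : 3 ≤ d) (b v : ℝ) (hb : 0 < b) (hv : 0 < v) : ∃ lam0 : ℝ, 0 < lam0 ∧
    ∀ (μ : Measure ℝ), IsProbabilityMeasure μ → (∀ᵐ s ∂μ, |s| ≤ b) →
    ∀ M Vr : ℝ, ∫ s, s ∂μ = M → ∫ s, (s - M) ^ 2 ∂μ = Vr → v ≤ Vr →
    ∀ lam : ℝ, 0 < lam → lam ≤ lam0 →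
    ∃ G : Set (Zd d → ℝ), MeasurableSet G ∧
      1 - Real.exp (-lam ^ (-(1 / 102) : ℝ)) ≤ (Measure.infinitePi fun _ : Zd d => μ).real G ∧
      ∀ ω ∈ G, (∀ x, |ω x| ≤ b) ∧ ∀ a : Zd d, ‖a‖ ≤ Real.exp (lam ^ (-(1 / 102) : ℝ)) →
        ∀ ψ, Sol d (fun x => 2 * d + lam * ω x) a ψ →
        ∀ η : ℝ, lam ^ (2024 / 1000 : ℝ) ≤ η → η ≤ lam ^ 2 * Vr → ∀ j : Fin d,
          (∀ᵐ s ∂(volume.restrict (Ioi (0 : ℝ))),
            Summable fun x : Zd d => ((x j : ℝ) - a j) ^ 2 * ‖ψ s x‖ ^ 2) ∧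
          |η * (lam ^ 2 * Vr) * (2 * η * ∫ s in Ioi (0 : ℝ), Real.exp (-(2 * η) * s) * Md ψ a j s) -
            ms d (η / (lam ^ 2 * Vr))| ≤ lam ^ (1 / 301 : ℝ) := by
  have hpi := Real.pi_pos
  have hpi3 := Real.pi_gt_three
  have hd' : (3 : ℝ) ≤ d := by exact_mod_cast hd
  have hEng : Eng d (fun E => |E| ≤ 3 * d) (Pg (fun E => GF (F0 d) (E : ℂ))
      (fun E => GF (F1 d) (E : ℂ))) 1 (v / (2 * b) ^ 2) := by
    obtain ⟨y0, h0⟩ := engine6 hES hTH hFL hIN hSU hQB hLO hAD hFA hO d hd 1 (v / (2 * b) ^ 2)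
      one_pos (by positivity)
    refine ⟨y0, fun y hy ν hν hνb hν0 Vv hVv hvV t ht1 ht2 => ?_⟩
    obtain ⟨G, hG, hP, hL⟩ := h0 y hy ν hν hνb hν0 Vv hVv hvV t ht1 ht2
    exact ⟨G, hG, hP, fun ξ hξ a ha E hE => hL ξ hξ a ha E hE⟩
  obtain ⟨c00, hc00, hfin⟩ := finE d (fun E => |E| ≤ 3 * d) _ (v / (2 * b) ^ 2) (by positivity) hEng
    fun u u' E hu hu' _ => pg_u _ _ u u' E hu hu' (GF_im hO d hd (E : ℂ) (by simp)).1
      (GF_im hO d hd (E : ℂ) (by simp)).2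
  obtain ⟨l1, hl1, hs1⟩ := small_rpow (1 / 101 - 1 / 102) ((2 * b) ^ (-(1 / 101) : ℝ))
    (by norm_num) (by positivity)
  obtain ⟨l2, hl2, hs2⟩ := small_rpow (81 / 40 - 2024 / 1000) (((2 * b) ^ (81 / 40 : ℝ))⁻¹)
    (by norm_num) (by positivity)
  obtain ⟨l3, hl3, hs3⟩ := small_rpow (1 / 300 - 1 / 301) ((6 * d * (2 * b) ^ (1 / 300 : ℝ))⁻¹)
    (by norm_num) (by positivity)
  obtain ⟨l4, hl4, hs4⟩ := small_rpow (2 - 1 / 301) ((29 * (2 * b) ^ 2)⁻¹)
    (by norm_num) (by positivity)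
  refine ⟨min (c00 / (2 * b)) (min (1 / 2 / (2 * b)) (min l1 (min l2 (min l3 l4)))), by positivity, ?_⟩
  intro μ hμ hμb M Vr hM hVr hvV lam hlam hlam0
  have q1 : lam ≤ c00 / (2 * b) := hlam0.trans (min_le_left _ _)
  have q2 : lam ≤ 1 / 2 / (2 * b) := hlam0.trans ((min_le_right _ _).trans (min_le_left _ _))
  have q3 : lam ≤ l1 := hlam0.trans ((min_le_right _ _).trans ((min_le_right _ _).trans
    (min_le_left _ _)))
  have q4 : lam ≤ l2 := hlam0.trans ((min_le_right _ _).trans ((min_le_right _ _).trans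
    ((min_le_right _ _).trans (min_le_left _ _))))
  have q5 : lam ≤ l3 := hlam0.trans ((min_le_right _ _).trans ((min_le_right _ _).trans
    ((min_le_right _ _).trans ((min_le_right _ _).trans (min_le_left _ _)))))
  have q6 : lam ≤ l4 := hlam0.trans ((min_le_right _ _).trans ((min_le_right _ _).trans
    ((min_le_right _ _).trans ((min_le_right _ _).trans (min_le_right _ _)))))
  obtain ⟨c, hc⟩ : ∃ c, c = 2 * b * lam := ⟨_, rfl⟩
  have hc0 : 0 < c := by rw [hc]; positivity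
  have hcc : c ≤ c00 := by
    rw [le_div_iff₀ (by positivity)] at q1
    rw [hc]
    linarith
  have hch : c ≤ 1 / 2 := by
    rw [le_div_iff₀ (by positivity)] at q2
    rw [hc]
    linarith
  have cpow : ∀ p : ℝ, c ^ p = (2 * b) ^ p * lam ^ p := by
    intro p
    rw [hc, Real.mul_rpow (by positivity) hlam.le]
  -- the three comparisons
  have r1 : lam ^ (-(1 / 102) : ℝ) ≤ c ^ (-(1 / 101) : ℝ) := by
    rw [cpow]
    have h1 := hs1 lam hlam q3
    have h2 : lam ^ (-(1 / 102) : ℝ) = lam ^ (1 / 101 - 1 / 102 : ℝ) * lam ^ (-(1 / 101) : ℝ) := by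
      rw [← Real.rpow_add hlam]
      norm_num
    rw [h2]
    exact mul_le_mul_of_nonneg_right h1 (Real.rpow_pos_of_pos hlam _).le
  have r2 : c ^ (81 / 40 : ℝ) ≤ lam ^ (2024 / 1000 : ℝ) := by
    rw [cpow]
    have h1 := hs2 lam hlam q4
    have h2 : lam ^ (81 / 40 : ℝ) = lam ^ (81 / 40 - 2024 / 1000 : ℝ) * lam ^ (2024 / 1000 : ℝ) := by
      rw [← Real.rpow_add hlam]
      norm_num
    have hB : 0 < (2 * b) ^ (81 / 40 : ℝ) := by positivity
    rw [h2, ← mul_assoc]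
    apply mul_le_of_le_one_left (Real.rpow_pos_of_pos hlam _).le
    calc (2 * b) ^ (81 / 40 : ℝ) * lam ^ (81 / 40 - 2024 / 1000 : ℝ) ≤
        (2 * b) ^ (81 / 40 : ℝ) * ((2 * b) ^ (81 / 40 : ℝ))⁻¹ :=
          mul_le_mul_of_nonneg_left h1 hB.le
      _ = 1 := mul_inv_cancel₀ hB.ne'
  have r3 : 6 * d * c ^ (1 / 300 : ℝ) ≤ lam ^ (1 / 301 : ℝ) := by
    rw [cpow]
    have h1 := hs3 lam hlam q5
    have h2 : lam ^ (1 / 300 : ℝ) = lam ^ (1 / 300 - 1 / 301 : ℝ) * lam ^ (1 / 301 : ℝ) := by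
      rw [← Real.rpow_add hlam]
      norm_num
    have hB : 0 < 6 * d * (2 * b) ^ (1 / 300 : ℝ) := by positivity
    have h3 : 6 * d * ((2 * b) ^ (1 / 300 : ℝ) * lam ^ (1 / 300 : ℝ)) =
        (6 * d * (2 * b) ^ (1 / 300 : ℝ) * lam ^ (1 / 300 - 1 / 301 : ℝ)) * lam ^ (1 / 301 : ℝ) := by
      rw [h2]
      ring
    rw [h3]
    apply mul_le_of_le_one_left (Real.rpow_pos_of_pos hlam _).le
    calc 6 * d * (2 * b) ^ (1 / 300 : ℝ) * lam ^ (1 / 300 - 1 / 301 : ℝ) ≤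
        6 * d * (2 * b) ^ (1 / 300 : ℝ) * (6 * d * (2 * b) ^ (1 / 300 : ℝ))⁻¹ :=
          mul_le_mul_of_nonneg_left h1 hB.le
      _ = 1 := mul_inv_cancel₀ hB.ne'
  have r4 : 29 * c ^ 2 ≤ lam ^ (1 / 301 : ℝ) := by
    have h1 := hs4 lam hlam q6
    have h2 : lam ^ 2 = lam ^ (2 - 1 / 301 : ℝ) * lam ^ (1 / 301 : ℝ) := by
      rw [← Real.rpow_add hlam, ← Real.rpow_natCast]
      norm_num
    have hB : 0 < 29 * (2 * b) ^ 2 := by positivity
    have h3 : 29 * c ^ 2 = (29 * (2 * b) ^ 2 * lam ^ (2 - 1 / 301 : ℝ)) * lam ^ (1 / 301 : ℝ) := by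
      rw [hc, mul_pow, h2]
      ring
    rw [h3]
    apply mul_le_of_le_one_left (Real.rpow_pos_of_pos hlam _).le
    calc 29 * (2 * b) ^ 2 * lam ^ (2 - 1 / 301 : ℝ) ≤
        29 * (2 * b) ^ 2 * (29 * (2 * b) ^ 2)⁻¹ := mul_le_mul_of_nonneg_left h1 hB.le
      _ = 1 := mul_inv_cancel₀ hB.ne'
  -- the centred law
  have hmm : Measurable fun s : ℝ => lam * (s - M) := by fun_prop
  obtain ⟨ν, hνdef⟩ : ∃ ν, ν = μ.map fun s => lam * (s - M) := ⟨_, rfl⟩
  have hνp : IsProbabilityMeasure ν := by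
    rw [hνdef]
    exact Measure.isProbabilityMeasure_map hmm.aemeasurable
  have hMb : |M| ≤ b := by
    rw [← hM, ← Real.norm_eq_abs]
    refine (norm_integral_le_of_norm_le_const (C := b) ?_).trans (le_of_eq ?_)
    · filter_upwards [hμb] with s hs
      exact hs
    · rw [probReal_univ, mul_one]
  have hsM : ∀ s : ℝ, |s| ≤ b → |lam * (s - M)| ≤ c := by
    intro s hs
    rw [abs_mul, abs_of_pos hlam, hc]
    have h1 : |s - M| ≤ 2 * b := (abs_sub _ _).trans (by linarith)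
    calc lam * |s - M| ≤ lam * (2 * b) := mul_le_mul_of_nonneg_left h1 hlam.le
      _ = _ := by ring
  have hνb : ∀ᵐ s ∂ν, |s| ≤ c := by
    rw [hνdef, ae_map_iff hmm.aemeasurable (measurableSet_le (by fun_prop) (by fun_prop))]
    filter_upwards [hμb] with s hs
    exact hsM s hs
  have hint : Integrable (fun s : ℝ => s) μ := by
    refine Integrable.mono' (integrable_const b) (by fun_prop) ?_
    filter_upwards [hμb] with s hs
    exact hs
  have hν0 : ∫ s, s ∂ν = 0 := by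
    rw [hνdef, integral_map hmm.aemeasurable (by fun_prop), integral_const_mul,
      integral_sub hint (integrable_const _), hM, integral_const, probReal_univ, one_smul, sub_self,
      mul_zero]
  obtain ⟨s2, hs2d⟩ : ∃ s2, s2 = lam ^ 2 * Vr := ⟨_, rfl⟩
  have hν2 : ∫ s, s ^ 2 ∂ν = s2 := by
    rw [hνdef, integral_map hmm.aemeasurable (by fun_prop), hs2d, ← hVr, ← integral_const_mul]
    refine integral_congr_ae (Filter.Eventually.of_forall fun s => ?_)
    simp only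
    ring
  have hvs : v / (2 * b) ^ 2 * c ^ 2 ≤ s2 := by
    have e1 : v / (2 * b) ^ 2 * (2 * b * lam) ^ 2 = lam ^ 2 * v := by
      field_simp
    rw [hc, hs2d, e1]
    exact mul_le_mul_of_nonneg_left hvV (sq_nonneg _)
  have hV0 : 0 < Vr := hv.trans_le hvV
  have hs20 : 0 < s2 := by rw [hs2d]; positivity
  have hs2c : s2 ≤ c ^ 2 := by
    rw [← hν2]
    have h1 : ∫ s, s ^ 2 ∂ν ≤ ∫ _s, c ^ 2 ∂ν := by
      apply integral_mono_of_nonneg (Filter.Eventually.of_forall fun s => sq_nonneg _)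
        (integrable_const _)
      filter_upwards [hνb] with s hs
      rw [← sq_abs]
      exact pow_le_pow_left₀ (abs_nonneg _) hs 2
    rw [integral_const, probReal_univ, one_smul] at h1
    exact h1
  obtain ⟨Γ, hm, hΓP, hΓ⟩ := hfin c hc0 hcc ν hνp hνb hν0 s2 hν2 hvs
  -- the bounded configurations
  obtain ⟨Bd, hBd⟩ : ∃ Bd : Set (Zd d → ℝ), Bd = ⋂ x : Zd d, {ω | |ω x| ≤ b} := ⟨_, rfl⟩
  have hBm : MeasurableSet Bd := by
    rw [hBd]
    exact MeasurableSet.iInter fun x => measurableSet_le (by fun_prop) measurable_const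
  have hBae : ∀ᵐ ω ∂(Measure.infinitePi fun _ : Zd d => μ), ω ∈ Bd := by
    rw [hBd]
    simp only [mem_iInter, mem_ofPred_eq]
    rw [ae_all_iff]
    intro x
    have h1 : (Measure.infinitePi fun _ : Zd d => μ).map (fun ω : Zd d → ℝ => ω x) = μ :=
      Measure.infinitePi_map_eval (fun _ : Zd d => μ) x
    have h2 : ∀ᵐ s ∂((Measure.infinitePi fun _ : Zd d => μ).map (fun ω : Zd d → ℝ => ω x)),
        |s| ≤ b := by
      rw [h1]
      exact hμb
    exact ae_of_ae_map (measurable_pi_apply x).aemeasurable h2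
  have hTm : Measurable (fun (ω : Zd d → ℝ) x => lam * (ω x - M)) := by fun_prop
  have hlaw : (Measure.infinitePi fun _ : Zd d => μ).map (fun ω x => lam * (ω x - M)) =
      Measure.infinitePi fun _ : Zd d => ν := by
    rw [hνdef]
    exact Measure.infinitePi_map_pi (μ := fun _ : Zd d => μ)
      (f := fun _ (s : ℝ) => lam * (s - M)) (fun _ => by fun_prop)
  refine ⟨(fun ω x => lam * (ω x - M)) ⁻¹' Γ ∩ Bd, (hTm hm).inter hBm, ?_, ?_⟩
  · have h1 : (Measure.infinitePi fun _ : Zd d => μ).real ((fun ω x => lam * (ω x - M)) ⁻¹' Γ) =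
        (Measure.infinitePi fun _ : Zd d => ν).real Γ := by
      rw [← hlaw, map_measureReal_apply hTm hm]
    have h2 : (Measure.infinitePi fun _ : Zd d => μ).real
        ((fun ω x => lam * (ω x - M)) ⁻¹' Γ ∩ Bd) =
        (Measure.infinitePi fun _ : Zd d => μ).real ((fun ω x => lam * (ω x - M)) ⁻¹' Γ) := by
      apply measureReal_congr
      filter_upwards [hBae] with ω hω
      apply propext
      constructor
      · intro h
        exact h.1
      · intro h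
        exact ⟨h, hω⟩
    rw [h2, h1]
    have h3 : Real.exp (-c ^ (-(1 / 101) : ℝ)) ≤ Real.exp (-lam ^ (-(1 / 102) : ℝ)) :=
      Real.exp_le_exp.2 (by linarith)
    linarith
  intro ω hω
  have hωb : ∀ x, |ω x| ≤ b := by
    have := hω.2
    rw [hBd] at this
    exact fun x => mem_iInter.1 this x
  refine ⟨hωb, fun a ha ψ hψ η hη1 hη2 j => ?_⟩
  have hη0 : 0 < η := (Real.rpow_pos_of_pos hlam _).trans_le hη1
  rw [← hs2d] at hη2 ⊢
  have hηone : η ≤ 1 := by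
    have : c ^ 2 ≤ 1 := pow_le_one₀ hc0.le (by linarith)
    linarith
  obtain ⟨c0, hc0d⟩ : ∃ c0, c0 = 2 * (d : ℝ) + lam * M := ⟨_, rfl⟩
  have hVc : ∀ x, |(fun x => 2 * (d : ℝ) + lam * ω x) x - c0| ≤ c := by
    intro x
    have e1 : (fun x => 2 * (d : ℝ) + lam * ω x) x - c0 = lam * (ω x - M) := by
      rw [hc0d]
      ring
    rw [e1]
    exact hsM _ (hωb x)
  obtain ⟨u, hu⟩ : ∃ u, u = η / s2 := ⟨_, rfl⟩
  have hu0 : 0 < u := by rw [hu]; positivity
  obtain ⟨P, hP⟩ : ∃ P : ℝ → ℝ, P = fun E : ℝ => (GF (F1 d) (E : ℂ)).im /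
    (u + (GF (F0 d) (E : ℂ)).im) := ⟨_, rfl⟩
  have hPc : Continuous P := by
    rw [hP]
    refine Continuous.div (gf1_cont hO d hd) (continuous_const.add (gf0_cont hO d hd)) fun E => ?_
    have := GF_im hO d hd (E : ℂ) (by simp)
    linarith [this.1, this.2]
  obtain ⟨δ, hδ⟩ : ∃ δ, δ = c ^ (1 / 300 : ℝ) := ⟨_, rfl⟩
  have hδ0 : 0 ≤ δ := by rw [hδ]; exact (Real.rpow_pos_of_pos hc0 _).le
  have key := msd_main hψ hη0 hηone hc0.le hch hVc hd j hs20.le hδ0 P hPc (fun e he => by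
    have hRs := rs_La hψ hη0 e
    have hRs' : Rs d (fun x => 2 * d + (fun x => lam * (ω x - M)) x) a (e - lam * M) η
        (fun x => Complex.I * La ψ e η x) := by
      refine ⟨hRs.sq, fun x => ?_⟩
      have h1 := hRs.eq x
      rw [← h1]
      push_cast
      ring
    have h2 := (hΓ _ hω.1).2 a (ha.trans (Real.exp_le_exp.2 r1)) (e - lam * M) (by
      rw [hc0d] at he
      have e1 : 2 * (d : ℝ) - (e - lam * M) = 2 * d + lam * M - e := by ring
      rw [e1]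
      exact he) η (r2.trans hη1) hη2 _ hRs' j
    have h3 := h2.2
    rw [qe_eq] at h3
    have e1 : 2 * (d : ℝ) - (e - lam * M) = c0 - e := by rw [hc0d]; ring
    rw [e1, ← hu] at h3
    rw [hP, hδ]
    exact h3)
  refine ⟨(msd_id hψ hη0 hηone j).1, ?_⟩
  rw [← hu, ← ms_eq hO d hd u hu0]
  have e1 : ∫ E in (-(3 * (d : ℝ)))..(3 * (d : ℝ)),
      (GF (F1 d) (E : ℂ)).im / (u + (GF (F0 d) (E : ℂ)).im) =
      ∫ E in (-(3 * (d : ℝ)))..(3 * (d : ℝ)), P E := by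
    rw [hP]
  rw [e1]
  refine key.trans ?_
  have r5 : 29 * s2 ≤ lam ^ (1 / 301 : ℝ) := by linarith
  rw [hδ, div_le_iff₀ hpi]
  have r6 : 0 < lam ^ (1 / 301 : ℝ) := Real.rpow_pos_of_pos hlam _
  nlinarith

end Pool.Agent.Q218.AD
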